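import Pool.Agent.Helper29.LC.Noe

/-!
# Project CN: Noether normalisation in `n` variables
-/

namespace Pool.Agent.Helper29.CN

open Polynomial Cardinal Pool.Agent.Helper29.LC

theorem noeBn {σ : Type} {n : ℕ} (ρ : σ → ℂ) (h0 : ∀ i, ρ i ≠ 0)
    (htr : ∀ f : Fin (n + 1) → σ, ¬ AlgebraicIndependent ℚ (fun i => ρ (f i))) {s : ℕ} (t : Fin s → ℂ)
    (ht : AlgebraicIndependent ℚ t)
    (hm : ∀ j, t j ∈ Algebra.adjoin ℚ (Set.range ρ ∪ Set.range fun i => (ρ i)⁻¹)) :
    s ≤ n := by
  classical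
  set B := Algebra.adjoin ℚ (Set.range ρ ∪ Set.range fun i => (ρ i)⁻¹) with hB
  let S0 : Set B := {b | (b : ℂ) ∈ Set.range ρ}
  have halg : Algebra.IsAlgebraic (Algebra.adjoin ℚ S0) B := by
    constructor
    rintro ⟨b, hb⟩
    have key : ∀ c ∈ Algebra.adjoin ℚ (Set.range ρ ∪ Set.range fun i => (ρ i)⁻¹),
        ∀ hc : c ∈ B, IsAlgebraic (Algebra.adjoin ℚ S0) (⟨c, hc⟩ : B) := by
      intro c hc
      induction hc using Algebra.adjoin_induction with
      | mem x hx =>
        intro hc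
        rcases hx with ⟨i, rfl⟩ | ⟨i, rfl⟩
        · exact isAlgebraic_algebraMap
            (⟨⟨ρ i, hc⟩, Algebra.subset_adjoin ⟨i, rfl⟩⟩ : Algebra.adjoin ℚ S0)
        · have hi : ρ i ∈ B := Algebra.subset_adjoin (Or.inl ⟨i, rfl⟩)
          let a : Algebra.adjoin ℚ S0 := ⟨⟨ρ i, hi⟩, Algebra.subset_adjoin ⟨i, rfl⟩⟩
          have ha : a ≠ 0 := by
            intro h
            apply h0 i
            have := congrArg (fun z : Algebra.adjoin ℚ S0 => ((z : B) : ℂ)) h
            exact this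
          refine ⟨C a * X - 1, ?_, ?_⟩
          · intro h
            have := congrArg (fun p => p.coeff 1) h
            simp [coeff_one] at this
            exact ha this
          · simp only [map_sub, map_mul, aeval_C, aeval_X, map_one]
            rw [sub_eq_zero]
            apply Subtype.ext
            show (ρ i) * (ρ i)⁻¹ = 1
            exact mul_inv_cancel₀ (h0 i)
      | algebraMap r =>
        intro hc
        have : (⟨algebraMap ℚ ℂ r, hc⟩ : B) =
            algebraMap (Algebra.adjoin ℚ S0) B (algebraMap ℚ (Algebra.adjoin ℚ S0) r) := rfl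
        rw [this]
        exact isAlgebraic_algebraMap _
      | add x y hx hy h1 h2 =>
        intro hc
        exact (h1 hx).add (h2 hy)
      | mul x y hx hy h1 h2 =>
        intro hc
        exact (h1 hx).mul (h2 hy)
    exact key b hb hb
  obtain ⟨I, hI, hbase⟩ := exists_isTranscendenceBasis_subset (R := ℚ) (A := B) S0
  have hcard : #I ≤ (n : Cardinal) := by
    by_contra h
    have h3 : #(Fin (n + 1)) ≤ #I := by
      by_contra h3
      rw [not_le, mk_fin] at h3
      obtain ⟨m, hm'⟩ := Cardinal.lt_aleph0.1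
        (h3.trans (Cardinal.natCast_lt_aleph0 (n := n + 1)))
      rw [hm'] at h h3
      have h4 : m < n + 1 := by exact_mod_cast h3
      have h5 : ¬ m ≤ n := by exact_mod_cast h
      omega
    obtain ⟨f⟩ := Cardinal.le_def _ _ |>.1 h3
    have h4 : AlgebraicIndependent ℚ (fun k : Fin (n + 1) => ((f k : B) : ℂ)) := by
      have h5 := (hbase.1.comp f f.injective)
      exact h5.map' (f := B.val) Subtype.val_injective
    have h6 : ∀ k, ∃ i, ρ i = ((f k : B) : ℂ) := fun k => hI (f k).2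
    choose i hi using h6
    apply htr i
    convert h4 using 1
    funext k
    exact hi k
  have ht' : AlgebraicIndependent ℚ (fun j => (⟨t j, hm j⟩ : B)) :=
    AlgebraicIndependent.of_comp B.val ht
  have h1 := ht'.lift_cardinalMk_le_trdeg
  rw [← hbase.cardinalMk_eq_trdeg] at h1
  have h2 : (s : Cardinal) ≤ (n : Cardinal) := by
    have h3 : Cardinal.lift.{0} #(Fin s) ≤ Cardinal.lift.{0} #I := h1
    rw [lift_id, lift_id, mk_fin] at h3
    exact h3.trans hcard
  exact_mod_cast h2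

theorem noether_n {n : ℕ} {σ : Type} [Fintype σ] (ρ : σ → ℂ) (h0 : ∀ i, ρ i ≠ 0)
    (htr : ∀ f : Fin (n + 1) → σ, ¬ AlgebraicIndependent ℚ (fun i => ρ (f i))) :
    ∃ (θ : Fin n → ℂ) (d : ℕ) (a : ℤ) (μ : σ → Fin d → MvPolynomial (Fin n) ℤ), 0 < d ∧ a ≠ 0 ∧
      (∀ i (j : Fin d), (j : ℕ) = 0 → μ i j = MvPolynomial.C a) ∧
      ∀ i, (a : ℂ) * ρ i ^ d + ∑ j : Fin d, MvPolynomial.aeval θ (μ i j) * ρ i ^ (j : ℕ) = 0 := by
  classical
  obtain ⟨s, t, ht, hm, hint⟩ := noeA ρ
  have hs := noeBn ρ h0 htr t ht hm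
  let θ : Fin n → ℂ := fun j => if h : (j : ℕ) < s then t ⟨j, h⟩ else 0
  let φ : MvPolynomial (Fin n) ℚ →+* ℂ :=
    (MvPolynomial.aeval θ : MvPolynomial (Fin n) ℚ →ₐ[ℚ] ℂ).toRingHom
  let ι : MvPolynomial (Fin s) ℚ →+* MvPolynomial (Fin n) ℚ :=
    (MvPolynomial.rename (Fin.castLE hs) :
      MvPolynomial (Fin s) ℚ →ₐ[ℚ] MvPolynomial (Fin n) ℚ).toRingHom
  have hι : φ.comp ι = (MvPolynomial.aeval t : MvPolynomial (Fin s) ℚ →ₐ[ℚ] ℂ).toRingHom := by
    apply RingHom.ext
    intro p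
    show MvPolynomial.aeval θ (MvPolynomial.rename (Fin.castLE hs) p) = MvPolynomial.aeval t p
    rw [MvPolynomial.aeval_rename]
    congr 2
    funext j
    have hj := j.2
    simp only [Function.comp, θ, Fin.val_castLE, hj, dif_pos]
  have hI : ∀ x ∈ Algebra.adjoin ℚ (Set.range ρ ∪ Set.range fun i => (ρ i)⁻¹),
      φ.IsIntegralElem x := by
    intro x hx
    obtain ⟨p, hp, hp2⟩ := hint x hx
    refine ⟨p.map ι, hp.map _, ?_⟩
    rw [eval₂_map, hι]
    exact hp2
  choose d0 hd0 using fun i => noeC φ (ρ i) (h0 i)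
    (hI _ (Algebra.subset_adjoin (Or.inl ⟨i, rfl⟩)))
    (hI _ (Algebra.subset_adjoin (Or.inr ⟨i, rfl⟩)))
  obtain ⟨d, hd1, hd2⟩ : ∃ d : ℕ, 0 < d ∧ ∀ i, d0 i ≤ d := by
    refine ⟨Finset.univ.sup d0 + 1, by omega, fun i => ?_⟩
    have := Finset.le_sup (f := d0) (Finset.mem_univ i)
    omega
  choose p hp hpd hp0 hpe using fun i => hd0 i d (hd2 i)
  obtain ⟨b, hb⟩ := IsLocalization.exist_integer_multiples_of_finset (nonZeroDivisors ℤ)
    ((Finset.univ : Finset (σ × Fin d)).biUnion fun z => ((p z.1).coeff z.2).coeffs)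
  have hb0 : (b : ℤ) ≠ 0 := nonZeroDivisors.coe_ne_zero b
  have key : ∀ i (j : Fin d), ∃ q : MvPolynomial (Fin n) ℤ,
      MvPolynomial.map (Int.castRingHom ℚ) q =
        MvPolynomial.C (((b : ℤ)) : ℚ) * (p i).coeff j := by
    intro i j
    have h1 : MvPolynomial.C (((b : ℤ)) : ℚ) * (p i).coeff j ∈
        Set.range (MvPolynomial.map (Int.castRingHom ℚ)) := by
      rw [MvPolynomial.mem_range_map_iff_coeffs_subset]
      intro c hc
      rw [Finset.mem_coe, MvPolynomial.mem_coeffs_iff] at hc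
      obtain ⟨m, hm1, hm2⟩ := hc
      rw [MvPolynomial.coeff_C_mul] at hm2
      by_cases hz : ((p i).coeff j).coeff m = 0
      · rw [hz, mul_zero] at hm2
        exact ⟨0, by rw [hm2, map_zero]⟩
      · have h2 := hb (((p i).coeff j).coeff m) (by
          rw [Finset.mem_biUnion]
          refine ⟨(i, j), Finset.mem_univ _, ?_⟩
          exact MvPolynomial.coeff_mem_coeffs _ hz)
        obtain ⟨l, hn⟩ := h2
        refine ⟨l, ?_⟩
        rw [hm2]
        rw [zsmul_eq_mul] at hn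
        exact hn
    exact h1
  choose μ hμ using key
  have hinj : Function.Injective (MvPolynomial.map (σ := Fin n) (Int.castRingHom ℚ)) :=
    MvPolynomial.map_injective _ (Int.cast_injective)
  refine ⟨θ, d, b, μ, hd1, hb0, ?_, ?_⟩
  · intro i j hj
    apply hinj
    rw [hμ, hj, hp0, mul_one, MvPolynomial.map_C]
    rfl
  · intro i
    have h1 := hpe i
    rw [eval₂_eq_sum_range, hpd, Finset.sum_range_succ] at h1
    have h2 : (p i).coeff d = 1 := by
      have := hp i
      rw [Monic, leadingCoeff, hpd] at this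
      exact this
    rw [h2, map_one, one_mul] at h1
    have h3 : ∀ j : Fin d, MvPolynomial.aeval θ (μ i j) = ((b : ℤ) : ℂ) * φ ((p i).coeff j) := by
      intro j
      have h4 : MvPolynomial.aeval θ (MvPolynomial.map (algebraMap ℤ ℚ) (μ i j)) =
          MvPolynomial.aeval θ (μ i j) := MvPolynomial.aeval_map_algebraMap ℚ θ (μ i j)
      rw [← h4]
      have h5 : MvPolynomial.map (algebraMap ℤ ℚ) (μ i j) =
          MvPolynomial.C (((b : ℤ)) : ℚ) * (p i).coeff j := hμ i j
      rw [h5, map_mul, MvPolynomial.aeval_C]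
      show (algebraMap ℚ ℂ) ((b : ℤ) : ℚ) * φ ((p i).coeff j) = _
      rw [map_intCast]
    rw [Finset.sum_congr rfl fun j _ => by rw [h3 j, mul_assoc], ← Finset.mul_sum, ← mul_add]
    rw [Fin.sum_univ_eq_sum_range (fun j => φ ((p i).coeff j) * ρ i ^ j) d, add_comm, h1, mul_zero]

end Pool.Agent.Helper29.CN
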