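import Pool.Agent.Helper94.LC.Nr

/-!
# Project CN: norm forms in `n` variables (adapted from the case of two variables by helper94)
-/

namespace Pool.Agent.Helper29.CN

open Polynomial Pool.Agent.Helper14.LC Pool.Agent.Helper94.LC

/-! ## all variables -/

section all

variable {σ : Type} [Fintype σ] {n : ℕ}

theorem elim_alln (ρ : σ → ℂ) (θ : Fin n → ℂ) (d : ℕ) (hd : 0 < d)
    (a : ℤ) (ha : a ≠ 0) (μ : σ → Fin d → MvPolynomial (Fin n) ℤ)
    (hμ : ∀ i, (a : ℂ) * ρ i ^ d +
      ∑ j : Fin d, MvPolynomial.aeval θ (μ i j) * ρ i ^ (j : ℕ) = 0) (s : Finset σ) :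
    ∃ A : ℝ, 1 ≤ A ∧ ∀ S : ℝ, 1 ≤ S → ∀ P : MvPolynomial σ ℤ, (P.totalDegree : ℝ) ≤ S →
      len P ≤ Real.exp S →
        ∃ Q : MvPolynomial (Fin n ⊕ σ) ℤ, (Q.totalDegree : ℝ) ≤ A * S ∧
          len Q ≤ Real.exp (A * S) ∧
          ‖MvPolynomial.aeval (Sum.elim θ ρ) Q‖ ≤ ‖MvPolynomial.aeval ρ P‖ * Real.exp (A * S) ∧
          (∀ (x : Fin n → ℂ) (z : σ → ℂ), MvPolynomial.aeval (Sum.elim x z) Q = 0 →
            ∃ z' : σ → ℂ, (∀ i ∈ s, (a : ℂ) * z' i ^ d +
              ∑ j : Fin d, MvPolynomial.aeval x (μ i j) * z' i ^ (j : ℕ) = 0) ∧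
                (∀ i, i ∉ s → z' i = z i) ∧ MvPolynomial.aeval z' P = 0) ∧
          (∀ (x : Fin n → ℂ) (z z' : σ → ℂ), (∀ i, i ∉ s → z i = z' i) →
            MvPolynomial.aeval (Sum.elim x z) Q = MvPolynomial.aeval (Sum.elim x z') Q) := by
  classical
  induction s using Finset.induction_on with
  | empty =>
    refine ⟨1, le_rfl, fun S hS P hPd hPl => ?_⟩
    have hev : ∀ (x : Fin n → ℂ) (z : σ → ℂ), MvPolynomial.aeval (Sum.elim x z)
        (MvPolynomial.rename (Sum.inr : σ → Fin n ⊕ σ) P) = MvPolynomial.aeval z P := by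
      intro x z
      rw [MvPolynomial.aeval_rename]
      rfl
    refine ⟨MvPolynomial.rename Sum.inr P, ?_, ?_, ?_, ?_, ?_⟩
    · rw [one_mul]
      refine le_trans ?_ hPd
      exact_mod_cast MvPolynomial.totalDegree_rename_le _ _
    · rw [one_mul]
      refine le_trans ?_ hPl
      have h1 : MvPolynomial.rename (Sum.inr : σ → Fin n ⊕ σ) P =
          MvPolynomial.aeval (fun i => MvPolynomial.X (Sum.inr i)) P := by
        have h0 : MvPolynomial.rename (Sum.inr : σ → Fin n ⊕ σ) =
            (MvPolynomial.aeval (fun i => MvPolynomial.X (Sum.inr i)) :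
              MvPolynomial σ ℤ →ₐ[ℤ] MvPolynomial (Fin n ⊕ σ) ℤ) := by
          apply MvPolynomial.algHom_ext
          intro i
          rw [MvPolynomial.rename_X, MvPolynomial.aeval_X]
        rw [h0]
      rw [h1]
      have h2 := isNm_len.aeval_le P (fun i => (MvPolynomial.X (Sum.inr i) :
        MvPolynomial (Fin n ⊕ σ) ℤ)) 1 le_rfl (fun i => (len_X _).le) _ le_rfl
      rwa [one_pow, mul_one] at h2
    · rw [hev, one_mul]
      have h1 : (1 : ℝ) ≤ Real.exp S := by
        rw [← Real.exp_zero]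
        exact Real.exp_le_exp.mpr (by linarith)
      nlinarith [norm_nonneg (MvPolynomial.aeval ρ P : ℂ)]
    · intro x z h
      rw [hev] at h
      exact ⟨z, fun i hi => absurd hi (Finset.notMem_empty _), fun i _ => rfl, h⟩
    · intro x z z' h
      rw [hev, hev]
      have : z = z' := funext fun i => h i (Finset.notMem_empty _)
      rw [this]
  | insert i s hi ih =>
    obtain ⟨A, hA, ih⟩ := ih
    have hren : ∀ (y : Fin n ⊕ σ → ℂ) (j : Fin d),
        MvPolynomial.aeval y (MvPolynomial.rename (Sum.inl : Fin n → Fin n ⊕ σ) (μ i j)) =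
          MvPolynomial.aeval (fun k => y (Sum.inl k)) (μ i j) := by
      intro y j
      rw [MvPolynomial.aeval_rename]
      rfl
    have hupd : ∀ (x : Fin n → ℂ) (z : σ → ℂ) (w : ℂ),
        Function.update (Sum.elim x z) (Sum.inr i) w = Sum.elim x (Function.update z i w) := by
      intro x z w
      exact Sum.update_elim_inr
    obtain ⟨B, hB, hstep⟩ := step (τ := Fin n ⊕ σ) (Sum.inr i) hd a ha
      (fun j => MvPolynomial.rename (Sum.inl : Fin n → Fin n ⊕ σ) (μ i j)) (Sum.elim θ ρ)
      (by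
        simp only [hren, Sum.elim_inr, Sum.elim_inl]
        exact hμ i)
      (by
        intro y w j
        rw [hren, hren]
        rfl)
    refine ⟨B * A + A, by nlinarith, fun S hS P hPd hPl => ?_⟩
    obtain ⟨Q, hQ1, hQ2, hQ3, hQ4, hQ5⟩ := ih S hS P hPd hPl
    obtain ⟨R, hR1, hR2, hR3, hR4, hR5⟩ := hstep (A * S) (by nlinarith) Q hQ1 hQ2
    have hle : B * (A * S) ≤ (B * A + A) * S := by nlinarith
    refine ⟨R, hR1.trans hle, hR2.trans (Real.exp_le_exp.mpr hle), ?_, ?_, ?_⟩
    · refine hR3.trans ?_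
      calc ‖MvPolynomial.aeval (Sum.elim θ ρ) Q‖ * Real.exp (B * (A * S))
          ≤ (‖MvPolynomial.aeval ρ P‖ * Real.exp (A * S)) * Real.exp (B * (A * S)) :=
            mul_le_mul_of_nonneg_right hQ3 (Real.exp_pos _).le
        _ = ‖MvPolynomial.aeval ρ P‖ * Real.exp ((B * A + A) * S) := by
            rw [mul_assoc, ← Real.exp_add]
            ring_nf
    · intro x z h
      obtain ⟨w, hw, hpw⟩ := hR4 (Sum.elim x z) h
      rw [hupd] at hpw
      simp only [hren, Sum.elim_inl] at hw
      obtain ⟨z', hz1, hz2, hz3⟩ := hQ4 x (Function.update z i w) hpw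
      have hzi : z' i = w := by
        rw [hz2 i hi, Function.update_self]
      refine ⟨z', ?_, ?_, hz3⟩
      · intro k hk
        rcases Finset.mem_insert.mp hk with rfl | hk
        · rw [hzi]
          exact hw
        · exact hz1 k hk
      · intro k hk
        rw [Finset.mem_insert, not_or] at hk
        rw [hz2 k hk.2, Function.update_of_ne hk.1]
    · intro x z z' h
      apply hR5
      · intro j
        rw [hren, hren]
        rfl
      · intro w
        rw [hupd, hupd]
        apply hQ5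
        intro k hk
        by_cases hki : k = i
        · subst hki
          rw [Function.update_self, Function.update_self]
        · rw [Function.update_of_ne hki, Function.update_of_ne hki]
          apply h
          rw [Finset.mem_insert, not_or]
          exact ⟨hki, hk⟩

theorem norms_n (ρ : σ → ℂ) (θ : Fin n → ℂ) (d : ℕ) (hd : 0 < d)
    (a : ℤ) (ha : a ≠ 0) (μ : σ → Fin d → MvPolynomial (Fin n) ℤ)
    (hμ0 : ∀ i (j : Fin d), (j : ℕ) = 0 → μ i j = MvPolynomial.C a)
    (hμ : ∀ i, (a : ℂ) * ρ i ^ d +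
      ∑ j : Fin d, MvPolynomial.aeval θ (μ i j) * ρ i ^ (j : ℕ) = 0) :
    ∃ (A : ℝ) (Z : (Fin n → ℂ) → Finset (σ → ℂ)), 1 ≤ A ∧
      (∀ x, ((Z x).card : ℝ) ≤ A) ∧ (∀ x, ∀ z ∈ Z x, ∀ i, z i ≠ 0) ∧
      ∀ S : ℝ, 1 ≤ S → ∀ P : MvPolynomial σ ℤ, (P.totalDegree : ℝ) ≤ S → len P ≤ Real.exp S →
        ∃ Q : MvPolynomial (Fin n) ℤ, (Q.totalDegree : ℝ) ≤ A * S ∧ len Q ≤ Real.exp (A * S) ∧
          ‖MvPolynomial.aeval θ Q‖ ≤ ‖MvPolynomial.aeval ρ P‖ * Real.exp (A * S) ∧
          ∀ x, MvPolynomial.aeval x Q = 0 → ∃ z ∈ Z x, MvPolynomial.aeval z P = 0 := by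
  classical
  obtain ⟨A, hA, hall⟩ := elim_alln ρ θ d hd a ha μ hμ Finset.univ
  set G : (Fin n → ℂ) → σ → ℂ[X] := fun x i => C (a : ℂ) * X ^ d +
    ∑ j : Fin d, C (MvPolynomial.aeval x (μ i j)) * X ^ (j : ℕ) with hG
  have hGdeg : ∀ x i, (G x i).natDegree ≤ d := by
    intro x i
    refine (natDegree_add_le _ _).trans (max_le ?_ ?_)
    · exact natDegree_C_mul_X_pow_le _ _
    · refine natDegree_sum_le_of_forall_le _ _ fun j _ => ?_
      exact (natDegree_C_mul_X_pow_le _ _).trans j.2.le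
  have hGne : ∀ x i, G x i ≠ 0 := by
    intro x i h0
    have h1 : (G x i).coeff d = (a : ℂ) := by
      rw [hG]
      simp only [coeff_add, coeff_C_mul, coeff_X_pow, if_true, mul_one, finsetSum_coeff]
      have h2 : ∀ j : Fin d, (MvPolynomial.aeval x (μ i j) : ℂ) * (if d = (j : ℕ) then 1 else 0) =
          0 := by
        intro j
        rw [if_neg (by have := j.2; omega), mul_zero]
      rw [Finset.sum_congr rfl fun j _ => h2 j, Finset.sum_const_zero, add_zero]
    rw [h0, coeff_zero] at h1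
    exact ha (by exact_mod_cast h1.symm)
  have hGev : ∀ x i w, (G x i).eval w = (a : ℂ) * w ^ d +
      ∑ j : Fin d, MvPolynomial.aeval x (μ i j) * w ^ (j : ℕ) := by
    intro x i w
    rw [hG]
    simp only [eval_add, eval_mul, eval_C, eval_pow, eval_X, eval_finsetSum]
  refine ⟨max A ((d : ℝ) ^ Fintype.card σ), fun x => Fintype.piFinset fun i => (G x i).roots.toFinset,
    hA.trans (le_max_left _ _), ?_, ?_, ?_⟩
  · intro x
    refine le_trans ?_ (le_max_right _ _)
    rw [Fintype.card_piFinset]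
    have h1 : ∏ i : σ, (G x i).roots.toFinset.card ≤ ∏ i : σ, d := by
      refine Finset.prod_le_prod (fun i _ => Nat.zero_le _) fun i _ => ?_
      exact (Multiset.toFinset_card_le _).trans ((card_roots' _).trans (hGdeg x i))
    rw [Finset.prod_const, Finset.card_univ] at h1
    exact_mod_cast h1
  · intro x z hz i h0
    rw [Fintype.mem_piFinset] at hz
    have h1 := hz i
    rw [Multiset.mem_toFinset, mem_roots (hGne x i), IsRoot.def, hGev, h0,
      zero_pow hd.ne', mul_zero, zero_add] at h1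
    have h2 : ∀ j : Fin d, (MvPolynomial.aeval x (μ i j) : ℂ) * (0 : ℂ) ^ (j : ℕ) =
        if j = ⟨0, hd⟩ then (a : ℂ) else 0 := by
      intro j
      by_cases hj : (j : ℕ) = 0
      · rw [if_pos (Fin.ext hj), hμ0 i j hj, hj, pow_zero, mul_one, MvPolynomial.aeval_C]
        simp
      · rw [if_neg (fun h => hj (by rw [h])), zero_pow hj, mul_zero]
    rw [Finset.sum_congr rfl fun j _ => h2 j, Finset.sum_ite_eq' Finset.univ,
      if_pos (Finset.mem_univ _)] at h1
    exact ha (by exact_mod_cast h1)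
  · intro S hS P hPd hPl
    obtain ⟨Q, hQ1, hQ2, hQ3, hQ4, hQ5⟩ := hall S hS P hPd hPl
    have hle : A * S ≤ max A ((d : ℝ) ^ Fintype.card σ) * S :=
      mul_le_mul_of_nonneg_right (le_max_left _ _) (by linarith)
    set f : Fin n ⊕ σ → MvPolynomial (Fin n) ℤ := Sum.elim MvPolynomial.X (fun _ => 0) with hf
    have hev : ∀ x : Fin n → ℂ, MvPolynomial.aeval x (MvPolynomial.aeval f Q) =
        MvPolynomial.aeval (Sum.elim x (fun _ => 0)) Q := by
      intro x
      have h1 : (MvPolynomial.aeval x : MvPolynomial (Fin n) ℤ →ₐ[ℤ] ℂ).comp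
          (MvPolynomial.aeval f) = MvPolynomial.aeval (Sum.elim x (fun _ => 0)) := by
        apply MvPolynomial.algHom_ext
        intro k
        rcases k with k | k <;> simp [f]
      exact AlgHom.congr_fun h1 Q
    refine ⟨MvPolynomial.aeval f Q, ?_, ?_, ?_, ?_⟩
    · refine le_trans ?_ (hQ1.trans hle)
      have h1 : (MvPolynomial.aeval f Q).totalDegree ≤ Q.totalDegree := by
        apply totalDegree_aeval_le
        intro k
        rcases k with k | k
        · simp [f]
        · simp [f]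
      exact_mod_cast h1
    · refine le_trans ?_ (hQ2.trans (Real.exp_le_exp.mpr hle))
      have h2 := isNm_len.aeval_le Q f 1 le_rfl (fun k => by
        rcases k with k | k
        · simp only [f, Sum.elim_inl]
          exact (len_X _).le
        · simp only [f, Sum.elim_inr]
          rw [isNm_len.zero]
          exact zero_le_one) _ le_rfl
      rwa [one_pow, mul_one] at h2
    · rw [hev, hQ5 θ _ ρ (fun i hi => absurd (Finset.mem_univ i) hi)]
      exact hQ3.trans (mul_le_mul_of_nonneg_left (Real.exp_le_exp.mpr hle) (norm_nonneg _))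
    · intro x hx
      rw [hev] at hx
      obtain ⟨z', hz1, _, hz3⟩ := hQ4 x _ hx
      refine ⟨z', ?_, hz3⟩
      rw [Fintype.mem_piFinset]
      intro i
      rw [Multiset.mem_toFinset, mem_roots (hGne x i), IsRoot.def, hGev]
      exact hz1 i (Finset.mem_univ i)

end all

end Pool.Agent.Helper29.CN
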