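import Pool.Agent.Helper29.CN.F
import Pool.Agent.Helper29.CN.M1
import Pool.Agent.Helper29.CN.M2
import Pool.Agent.Helper14.LC.Good

/-!
# Project CN: the criterion (adapted from the case `n = 2` by helper14)
-/

namespace Pool.Agent.Helper29.CN

open Polynomial Pool.Agent.Helper14.LC

/-- The criterion: `ρ` in `(ℂ^*)^σ` of transcendence degree at most `n`, `κ > n + 1`. -/
theorem C_main_n {σ : Type} [Fintype σ] (n : ℕ) (ρ : σ → ℂ) (h0 : ∀ i, ρ i ≠ 0)
    (htr : ∀ f : Fin (n + 1) → σ, ¬ AlgebraicIndependent ℚ (fun i => ρ (f i)))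
    (κ : ℝ) (hκ : (n : ℝ) + 1 < κ) :
    ∃ S0 : ℝ, ∀ S : ℝ, S0 ≤ S → ∀ (N : ℕ) (P : Fin N → MvPolynomial σ ℤ),
      (N : ℝ) ≤ Real.exp S → (∀ i, ((P i).totalDegree : ℝ) ≤ S) →
      (∀ i m, |(((P i).coeff m : ℤ) : ℝ)| ≤ Real.exp S) →
      (∀ i, ‖MvPolynomial.aeval ρ (P i)‖ ≤ Real.exp (-S ^ κ)) →
      ∃ x : σ → ℂ, (∀ i, x i ≠ 0) ∧ ∀ i, MvPolynomial.aeval x (P i) = 0 := by
  classical
  obtain ⟨θ, d, a, μ, hd, ha, hμ0, hμ⟩ := noether_n ρ h0 htr
  obtain ⟨A, Z, hA1, hZc, hZ0, hnorm⟩ := norms_n ρ θ d hd a ha μ hμ0 hμ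
  obtain ⟨S1, hS1⟩ := crit n θ κ (3 * A + 2) hκ (by linarith)
  set s := Fintype.card σ with hs
  have hc : (0 : ℝ) < 1 / (A * 2 ^ s) := by positivity
  obtain ⟨S2, hS2⟩ := Filter.eventually_atTop.mp ((Real.isLittleO_pow_exp_atTop (n := s + 3)).def hc)
  refine ⟨max 1 (max S1 S2), ?_⟩
  intro S hS N P hN hdeg hcoeff hval
  have hSone : 1 ≤ S := (le_max_left _ _).trans hS
  have hSS1 : S1 ≤ S := ((le_max_left _ _).trans (le_max_right _ _)).trans hS
  have hSS2 : S2 ≤ S := ((le_max_right _ _).trans (le_max_right _ _)).trans hS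
  have hSpos : 0 < S := by linarith
  have hpoly : A * S ^ 3 * (S + 1) ^ s ≤ Real.exp S := by
    have h1 := hS2 S hSS2
    rw [Real.norm_of_nonneg (by positivity), Real.norm_of_nonneg (Real.exp_nonneg _)] at h1
    have h2 : (S + 1) ^ s ≤ (2 * S) ^ s := pow_le_pow_left₀ (by linarith) (by linarith) s
    calc A * S ^ 3 * (S + 1) ^ s ≤ A * S ^ 3 * (2 * S) ^ s := by gcongr
      _ = (A * 2 ^ s) * S ^ (s + 3) := by rw [mul_pow]; ring
      _ ≤ (A * 2 ^ s) * (1 / (A * 2 ^ s) * Real.exp S) :=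
          mul_le_mul_of_nonneg_left h1 (by positivity)
      _ = Real.exp S := by field_simp
  have hone : 1 ≤ (S + 1) ^ s := one_le_pow₀ (by linarith)
  have hpoly' : A * S ^ 3 ≤ Real.exp S :=
    (le_mul_of_one_le_right (by positivity) hone).trans hpoly
  by_contra hno
  push Not at hno
  refine hS1 S hSS1 fun x0 => ?_
  let E : Finset (Fin n → ℂ) := {x0}
  have hE : (E.card : ℝ) ≤ S ^ 3 := by
    have h1 : (1 : ℝ) ≤ S ^ 3 := one_le_pow₀ hSone
    simpa [E] using h1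
  set W : Finset (σ → ℂ) := E.biUnion Z with hW
  have hWc : (W.card : ℝ) ≤ A * S ^ 3 := by
    have h1 : W.card ≤ ∑ x ∈ E, (Z x).card := Finset.card_biUnion_le
    have h2 : (W.card : ℝ) ≤ ∑ x ∈ E, ((Z x).card : ℝ) := by exact_mod_cast h1
    have h3 : ∑ x ∈ E, ((Z x).card : ℝ) ≤ ∑ x ∈ E, A := Finset.sum_le_sum fun x _ => hZc x
    rw [Finset.sum_const, nsmul_eq_mul] at h3
    have h4 : (E.card : ℝ) * A ≤ S ^ 3 * A := mul_le_mul_of_nonneg_right hE (by linarith)
    linarith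
  obtain ⟨c, hc1, hc2⟩ := avoid W N (fun j z => MvPolynomial.aeval z (P j)) (by
    intro z hz
    obtain ⟨x, _, hx⟩ := Finset.mem_biUnion.mp hz
    exact hno z (hZ0 x z hx))
  set F : MvPolynomial σ ℤ := ∑ j, MvPolynomial.C (c j : ℤ) * P j with hF
  have hFv : ∀ z : σ → ℂ, MvPolynomial.aeval z F =
      ∑ j, (c j : ℂ) * MvPolynomial.aeval z (P j) := by
    intro z
    rw [hF, map_sum]
    refine Finset.sum_congr rfl fun j _ => ?_
    rw [map_mul, MvPolynomial.aeval_C]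
    simp
  have hcj : ∀ j, (c j : ℝ) ≤ A * S ^ 3 := fun j => by
    have : (c j : ℝ) ≤ W.card := by exact_mod_cast hc1 j
    linarith
  -- degree
  have hFd : (F.totalDegree : ℝ) ≤ 3 * S := by
    have h1 : F.totalDegree ≤ ⌊S⌋₊ := by
      rw [hF]
      refine MvPolynomial.totalDegree_finsetSum_le fun j _ => ?_
      refine (MvPolynomial.totalDegree_mul _ _).trans ?_
      rw [MvPolynomial.totalDegree_C, zero_add]
      exact Nat.le_floor (hdeg j)
    have h2 : (F.totalDegree : ℝ) ≤ ⌊S⌋₊ := by exact_mod_cast h1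
    have h3 := Nat.floor_le hSpos.le
    linarith
  -- length
  have hPl : ∀ j, len (P j) ≤ (S + 1) ^ s * Real.exp S := by
    intro j
    have h1 : len (P j) ≤ ∑ m ∈ (P j).support, Real.exp S :=
      Finset.sum_le_sum fun m _ => hcoeff j m
    rw [Finset.sum_const, nsmul_eq_mul] at h1
    refine h1.trans (mul_le_mul_of_nonneg_right ?_ (Real.exp_nonneg _))
    have h2 := card_support_le (P j) ⌊S⌋₊ (Nat.le_floor (hdeg j))
    have h3 : ((P j).support.card : ℝ) ≤ ((⌊S⌋₊ : ℝ) + 1) ^ s := by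
      rw [hs]; exact_mod_cast h2
    refine h3.trans (pow_le_pow_left₀ (by positivity) ?_ s)
    have := Nat.floor_le hSpos.le
    linarith
  have hFl : len F ≤ Real.exp (3 * S) := by
    rw [hF]
    refine (len_sum _ _).trans ?_
    calc ∑ j, len (MvPolynomial.C (c j : ℤ) * P j)
        ≤ ∑ j : Fin N, (A * S ^ 3) * ((S + 1) ^ s * Real.exp S) := by
          refine Finset.sum_le_sum fun j _ => ?_
          refine (isNm_len.mul _ _).trans ?_
          rw [len_C]
          refine mul_le_mul ?_ (hPl j) (len_nonneg _) (by positivity)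
          have : |(((c j : ℕ) : ℤ) : ℝ)| = (c j : ℝ) := by
            rw [Int.cast_natCast, abs_of_nonneg (Nat.cast_nonneg _)]
          rw [this]; exact hcj j
      _ = (N : ℝ) * ((A * S ^ 3 * (S + 1) ^ s) * Real.exp S) := by
          rw [Finset.sum_const, Finset.card_univ, Fintype.card_fin, nsmul_eq_mul]; ring
      _ ≤ Real.exp S * (Real.exp S * Real.exp S) := by gcongr
      _ = Real.exp (3 * S) := by
          rw [← Real.exp_add, ← Real.exp_add]; congr 1; ring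
  -- value
  have hFρ : ‖MvPolynomial.aeval ρ F‖ ≤ Real.exp (2 * S - S ^ κ) := by
    rw [hFv]
    refine (norm_sum_le _ _).trans ?_
    calc ∑ j, ‖(c j : ℂ) * MvPolynomial.aeval ρ (P j)‖
        ≤ ∑ j : Fin N, (A * S ^ 3) * Real.exp (-S ^ κ) := by
          refine Finset.sum_le_sum fun j _ => ?_
          rw [norm_mul, Complex.norm_natCast]
          exact mul_le_mul (hcj j) (hval j) (norm_nonneg _) (by positivity)
      _ = (N : ℝ) * ((A * S ^ 3) * Real.exp (-S ^ κ)) := by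
          rw [Finset.sum_const, Finset.card_univ, Fintype.card_fin, nsmul_eq_mul]
      _ ≤ Real.exp S * (Real.exp S * Real.exp (-S ^ κ)) := by gcongr
      _ = Real.exp (2 * S - S ^ κ) := by
          rw [← Real.exp_add, ← Real.exp_add]; congr 1; ring
  obtain ⟨Q, q1, q2, q3, q4⟩ := hnorm (3 * S) (by linarith) F hFd hFl
  refine ⟨Q, ?_, ?_, ?_, ?_⟩
  · nlinarith
  · refine q2.trans (Real.exp_le_exp.mpr ?_)
    nlinarith
  · refine q3.trans ?_
    calc ‖MvPolynomial.aeval ρ F‖ * Real.exp (A * (3 * S))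
        ≤ Real.exp (2 * S - S ^ κ) * Real.exp (A * (3 * S)) :=
          mul_le_mul_of_nonneg_right hFρ (Real.exp_nonneg _)
      _ = Real.exp ((3 * A + 2) * S - S ^ κ) := by
          rw [← Real.exp_add]; congr 1; ring
  · intro hQx
    obtain ⟨z, hz, hzF⟩ := q4 x0 hQx
    refine hc2 z (Finset.mem_biUnion.mpr ⟨x0, Finset.mem_singleton_self _, hz⟩) ?_
    rw [← hFv]; exact hzF

end Pool.Agent.Helper29.CN
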