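import Pool.Agent.Helper14.LC.Nm

/-!
# Project CN: the criterion for all transcendence degrees, algebra

THEOREM (Crit_n). `θ ∈ ℂ^n`, `κ > n + 1`. For large `S` there is no family of polynomials in
`ℤ[y_1, .., y_n]` of degree at most `S`, height at most `exp S` and absolute value at most
`exp (- S ^ κ)` at `θ`, without common zero in `ℂ^n`.

The ring `R = ℤ[z, y_1, .., y_n]` is `MvPolynomial (Fin (n + 1)) ℤ`, `z = X 0`, `y_j = X j.succ`.
-/

namespace Pool.Agent.Helper29.CN

open MvPolynomial Pool.Agent.Helper14.LC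

noncomputable section

/-- the bound for the degrees of the relations -/
def DD (n S : ℕ) : ℕ := 2 * (n + 2) ^ (n + 1) * S ^ n

/-- `w_j = y_j - z q_j (y)` for `j < n` and `w_n = - z q_n (y)`, `q_j = ∑ γ j i * Q i` -/
def wv {n M : ℕ} (Q : Fin M → MvPolynomial (Fin n) ℤ) (γ : Fin (n + 1) → Fin M → ℕ) :
    Fin (n + 1) → MvPolynomial (Fin (n + 1)) ℤ :=
  fun i => (Fin.snoc (fun j : Fin n => X j.succ) 0 : Fin (n + 1) → MvPolynomial (Fin (n + 1)) ℤ) i -
    ∑ j, (γ i j : MvPolynomial (Fin (n + 1)) ℤ) * (X 0 * rename Fin.succ (Q j))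

/-! ### Noether normalisation by linear changes -/

section step

variable {R : Type} [CommRing R] [Nontrivial R] [Algebra ℚ R] {k D : ℕ}

private theorem top_ne_scale {l d : ℕ} {F : MvPolynomial (Fin l) ℚ} (hF : F.IsHomogeneous d) (t : ℚ)
    (x : Fin l → ℚ) : eval (fun i => t * x i) F = t ^ d * eval x F := by
  rw [eval_eq, eval_eq, Finset.mul_sum]
  refine Finset.sum_congr rfl fun m hm => ?_
  have h1 := hF.degree_eq_sum_deg_support hm
  have h2 : ∏ i ∈ m.support, (t * x i) ^ m i = t ^ d * ∏ i ∈ m.support, x i ^ m i := by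
    simp only [mul_pow]
    rw [Finset.prod_mul_distrib, Finset.prod_pow_eq_pow_sum, h1]
  rw [h2]
  ring

private theorem top_ne_hom {l : ℕ} (E : MvPolynomial (Fin l) ℚ) (hE : E ≠ 0) :
    homogeneousComponent E.totalDegree E ≠ 0 := by
  obtain ⟨s, hs, hsd⟩ := Finset.exists_mem_eq_sup E.support (support_nonempty.2 hE)
    (fun s => s.sum fun _ e => e)
  intro h0
  have h1 : coeff s (homogeneousComponent E.totalDegree E) = 0 := by
    rw [h0, coeff_zero]
  have h2 : s.degree = E.totalDegree := by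
    unfold totalDegree
    rw [hsd]
    rfl
  rw [coeff_homogeneousComponent, if_pos h2] at h1
  exact (mem_support_iff.1 hs) h1

private theorem top_ne_eval (F : MvPolynomial (Fin (k + 1)) ℚ) (x : Fin k → ℚ) :
    eval x (aeval (Fin.snoc X 1 : Fin (k + 1) → MvPolynomial (Fin k) ℚ) F) =
      eval (Fin.snoc x 1 : Fin (k + 1) → ℚ) F := by
  have h1 : ∀ i, eval x ((Fin.snoc X 1 : Fin (k + 1) → MvPolynomial (Fin k) ℚ) i) =
      (Fin.snoc x 1 : Fin (k + 1) → ℚ) i := by
    intro i
    refine Fin.lastCases ?_ (fun j => ?_) i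
    · simp
    · simp
  induction F using MvPolynomial.induction_on with
  | C a => simp
  | add p q hp hq => rw [map_add, map_add, map_add, hp, hq]
  | mul_X p i hp => rw [map_mul, map_mul, map_mul, hp, aeval_X, eval_X, h1]

private theorem top_ne_deg (F : MvPolynomial (Fin (k + 1)) ℚ) (i : Fin k) :
    (aeval (Fin.snoc X 1 : Fin (k + 1) → MvPolynomial (Fin k) ℚ) F).degreeOf i ≤
      F.totalDegree := by
  have h1 : ∀ j, ((Fin.snoc X 1 : Fin (k + 1) → MvPolynomial (Fin k) ℚ) j).degreeOf i ≤ 1 := by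
    intro j
    refine Fin.lastCases ?_ (fun l => ?_) j
    · rw [Fin.snoc_last]
      simp
    · rw [Fin.snoc_castSucc, degreeOf_X]
      split_ifs <;> simp
  rw [aeval_def, eval₂_eq]
  refine (degreeOf_sum_le _ _ _).trans (Finset.sup_le fun m hm => ?_)
  rw [MvPolynomial.algebraMap_eq]
  refine (degreeOf_C_mul_le _ _ _).trans ((degreeOf_prod_le _ _ _).trans ?_)
  calc _ ≤ ∑ j ∈ m.support, m j := by
        refine Finset.sum_le_sum fun j _ => (degreeOf_pow_le _ _ _).trans ?_
        calc _ ≤ m j * 1 := Nat.mul_le_mul_left _ (h1 j)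
          _ = m j := mul_one _
    _ ≤ F.totalDegree := le_totalDegree hm

/-- PROOF. Let `d = E.totalDegree` and `E' = homogeneousComponent d E ≠ 0`. `d ≥ 1` (otherwise `E` is
a nonzero constant, and `aeval _ E ≠ 0`). `g = aeval (Fin.snoc X 1) E'` in `k` variables is not zero:
the monomials of the homogeneous `E'` stay distinct. Its degrees are at most `d ≤ D`:
`MvPolynomial.eq_zero_of_eval_zero_at_prod_finset` with the sets `{0, .., D}` gives `γ` with
`aeval (Fin.snoc γ 1) E' ≠ 0`. -/
theorem top_ne (E : MvPolynomial (Fin (k + 1)) ℚ) (hE : E ≠ 0) (hD : E.totalDegree ≤ D) :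
    ∃ γ : Fin k → ℕ, (∀ i, γ i ≤ D) ∧
      eval (Fin.snoc (fun i => (γ i : ℚ)) 1 : Fin (k + 1) → ℚ)
        (homogeneousComponent E.totalDegree E) ≠ 0 := by
  classical
  obtain ⟨F, hF⟩ : ∃ F, F = homogeneousComponent E.totalDegree E := ⟨_, rfl⟩
  have hF0 : F ≠ 0 := by
    rw [hF]
    exact top_ne_hom E hE
  have hFh : F.IsHomogeneous E.totalDegree := by
    rw [hF]
    exact homogeneousComponent_isHomogeneous _ _
  rw [← hF]
  by_contra hcon
  push Not at hcon
  have hg0 : aeval (Fin.snoc X 1 : Fin (k + 1) → MvPolynomial (Fin k) ℚ) F = 0 := by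
    refine eq_zero_of_eval_zero_at_prod_finset _
      (fun _ => (Finset.range (D + 1)).image (Nat.cast : ℕ → ℚ)) (fun i => ?_) (fun x hx => ?_)
    · rw [Finset.card_image_of_injective _ Nat.cast_injective, Finset.card_range]
      exact Nat.lt_succ_of_le ((top_ne_deg F i).trans (hFh.totalDegree_le.trans hD))
    · have h1 : ∀ i, ∃ n : ℕ, n ≤ D ∧ (n : ℚ) = x i := by
        intro i
        obtain ⟨n, hn, hnx⟩ := Finset.mem_image.1 (hx i)
        exact ⟨n, Nat.lt_succ_iff.1 (Finset.mem_range.1 hn), hnx⟩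
      choose γ hγ hγx using h1
      have h2 : x = fun i => (γ i : ℚ) := funext fun i => (hγx i).symm
      rw [top_ne_eval, h2]
      exact hcon γ hγ
  apply hF0
  have h2 : X (Fin.last k) * F = 0 := by
    refine MvPolynomial.funext fun x => ?_
    rw [map_mul, eval_X, map_zero]
    by_cases hx : x (Fin.last k) = 0
    · rw [hx, zero_mul]
    · have h3 : x = fun i => x (Fin.last k) *
          (Fin.snoc (fun j => x (Fin.castSucc j) / x (Fin.last k)) 1 : Fin (k + 1) → ℚ) i := by
        funext i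
        refine Fin.lastCases ?_ (fun j => ?_) i
        · simp
        · simp only [Fin.snoc_castSucc]
          field_simp
      have h4 : eval x F = 0 := by
        rw [h3, top_ne_scale hFh, ← top_ne_eval, hg0, map_zero, mul_zero]
      rw [h4, mul_zero]
  exact (mul_eq_zero.1 h2).resolve_left (X_ne_zero _)

private theorem step_mon {B : Type} [CommRing B] {n : ℕ} (g : Fin n → Polynomial B) (δ : Fin n → B)
    (h1 : ∀ i, (g i).natDegree ≤ 1) (h2 : ∀ i, (g i).coeff 1 = δ i) (m : Fin n →₀ ℕ)
    (s : Finset (Fin n)) :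
    (∏ i ∈ s, g i ^ m i).natDegree ≤ ∑ i ∈ s, m i ∧
      (∏ i ∈ s, g i ^ m i).coeff (∑ i ∈ s, m i) = ∏ i ∈ s, δ i ^ m i := by
  classical
  induction s using Finset.induction_on with
  | empty => simp
  | insert i s hi ih =>
    rw [Finset.prod_insert hi, Finset.sum_insert hi, Finset.prod_insert hi]
    have h3 : (g i ^ m i).natDegree ≤ m i := by
      have := Polynomial.natDegree_pow_le_of_le (m i) (h1 i)
      rwa [mul_one] at this
    have h4 : (g i ^ m i).coeff (m i) = δ i ^ m i := by
      have := Polynomial.coeff_pow_of_natDegree_le (m := m i) (h1 i)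
      rw [mul_one] at this
      rw [this, h2]
    refine ⟨?_, ?_⟩
    · exact Polynomial.natDegree_mul_le_of_le h3 ih.1
    · rw [Polynomial.coeff_mul_add_eq_of_natDegree_le h3 ih.1, h4, ih.2]

/-- PROOF. `top_ne`, value `e`, `d = E.totalDegree ≥ 1`. Let `B = adjoin ℚ (range u')`,
`u' i = u i - γ i * v`, and `p = aeval (Fin.snoc (fun i => C (u' i) + C (γ i) * X) X) E` in
`Polynomial B`. Each monomial `c X^m` of `E` gives a polynomial of degree at most `|m|` with
coefficient `c ∏ γ i ^ (m i)` at `|m|`, so `p.natDegree ≤ d` and `p.coeff d = e`; `p` vanishes at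
`v`. Divide by `e`. -/
theorem step (u : Fin k → R) (v : R) (E : MvPolynomial (Fin (k + 1)) ℚ) (hE : E ≠ 0)
    (hD : E.totalDegree ≤ D) (h0 : aeval (Fin.snoc u v : Fin (k + 1) → R) E = 0) :
    ∃ γ : Fin k → ℕ, (∀ i, γ i ≤ D) ∧
      IsIntegral (Algebra.adjoin ℚ (Set.range fun i => u i - (γ i : R) * v)) v := by
  classical
  obtain ⟨γ, hγ, he⟩ := top_ne E hE hD
  refine ⟨γ, hγ, ?_⟩
  set δ : Fin (k + 1) → ℚ := Fin.snoc (fun i => (γ i : ℚ)) 1 with hδ
  set e : ℚ := eval δ (homogeneousComponent E.totalDegree E) with hedef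
  set B := Algebra.adjoin ℚ (Set.range fun i => u i - (γ i : R) * v) with hB
  let u' : Fin k → B := fun i => ⟨u i - (γ i : R) * v, Algebra.subset_adjoin ⟨i, rfl⟩⟩
  let g : Fin (k + 1) → Polynomial B :=
    Fin.snoc (fun i => Polynomial.C (u' i) + Polynomial.C (γ i : B) * Polynomial.X) Polynomial.X
  have hg1 : ∀ i, (g i).natDegree ≤ 1 := by
    intro i
    refine Fin.lastCases ?_ (fun j => ?_) i
    · simp only [g, Fin.snoc_last]
      exact Polynomial.natDegree_X_le
    · simp only [g, Fin.snoc_castSucc]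
      rw [add_comm]
      exact Polynomial.natDegree_linear_le
  have hg2 : ∀ i, (g i).coeff 1 = algebraMap ℚ B (δ i) := by
    intro i
    refine Fin.lastCases ?_ (fun j => ?_) i
    · simp only [g, hδ, Fin.snoc_last]
      rw [Polynomial.coeff_X_one, map_one]
    · simp only [g, hδ, Fin.snoc_castSucc]
      rw [Polynomial.coeff_add, Polynomial.coeff_C_mul, Polynomial.coeff_X_one, mul_one,
        Polynomial.coeff_C_of_ne_zero one_ne_zero, zero_add, map_natCast]
  have hgv : ∀ i, Polynomial.aeval v (g i) = (Fin.snoc u v : Fin (k + 1) → R) i := by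
    intro i
    refine Fin.lastCases ?_ (fun j => ?_) i
    · simp only [g, Fin.snoc_last]
      rw [Polynomial.aeval_X]
    · simp only [g, Fin.snoc_castSucc]
      rw [map_add, map_mul, Polynomial.aeval_C, Polynomial.aeval_C, Polynomial.aeval_X,
        map_natCast]
      change u j - (γ j : R) * v + (γ j : R) * v = u j
      ring
  have hp : aeval g E = ∑ m ∈ E.support, algebraMap ℚ (Polynomial B) (coeff m E) *
      ∏ i, g i ^ m i := by
    rw [aeval_def, eval₂_eq']
  have hpv : Polynomial.aeval v (aeval g E) = 0 := by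
    rw [← h0, hp, map_sum, aeval_def, eval₂_eq']
    refine Finset.sum_congr rfl fun m _ => ?_
    rw [map_mul, map_prod, Polynomial.algebraMap_apply, Polynomial.aeval_C]
    congr 1
    refine Finset.prod_congr rfl fun i _ => ?_
    rw [map_pow, hgv]
  have hdeg : ∀ m ∈ E.support, m.degree ≤ E.totalDegree := fun m hm => by
    have := le_totalDegree hm
    exact this
  have hmon : ∀ m : Fin (k + 1) →₀ ℕ, (∏ i, g i ^ m i).natDegree ≤ m.degree ∧
      (∏ i, g i ^ m i).coeff m.degree = algebraMap ℚ B (∏ i, δ i ^ m i) := by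
    intro m
    have h5 := step_mon g (fun i => algebraMap ℚ B (δ i)) hg1 hg2 m Finset.univ
    rw [Finsupp.degree_eq_sum, map_prod]
    simp only [map_pow]
    exact h5
  have hpd : (aeval g E).natDegree ≤ E.totalDegree := by
    rw [hp]
    refine Polynomial.natDegree_sum_le_of_forall_le _ _ fun m hm => ?_
    rw [Polynomial.algebraMap_apply]
    exact (Polynomial.natDegree_C_mul_le _ _).trans ((hmon m).1.trans (hdeg m hm))
  have hpc : (aeval g E).coeff E.totalDegree = algebraMap ℚ B e := by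
    rw [hp, Polynomial.finsetSum_coeff, hedef, homogeneousComponent_apply, map_sum, map_sum,
      Finset.sum_filter]
    refine Finset.sum_congr rfl fun m hm => ?_
    rw [Polynomial.algebraMap_apply, Polynomial.coeff_C_mul]
    split_ifs with h6
    · rw [← h6, (hmon m).2, eval_monomial, Finsupp.prod_fintype _ _ (fun i => pow_zero _),
        map_mul]
    · rw [Polynomial.coeff_eq_zero_of_natDegree_lt, mul_zero]
      exact lt_of_le_of_lt (hmon m).1 (lt_of_le_of_ne (hdeg m hm) h6)
  refine ⟨Polynomial.C (algebraMap ℚ B e⁻¹) * aeval g E, ?_, ?_⟩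
  · refine Polynomial.monic_of_natDegree_le_of_coeff_eq_one E.totalDegree
      ((Polynomial.natDegree_C_mul_le _ _).trans hpd) ?_
    rw [Polynomial.coeff_C_mul, hpc, ← map_mul, inv_mul_cancel₀ he, map_one]
  · rw [← Polynomial.aeval_def, map_mul, hpv, mul_zero]

omit [Nontrivial R] in
private theorem noether_linear_aux {M : ℕ} (u : Fin k → R) (v : Fin (M + 1) → R) (γ0 : Fin k → ℕ)
    (A : Subalgebra ℚ R)
    (h1 : IsIntegral (Algebra.adjoin ℚ (Set.range fun i => u i - (γ0 i : R) * v 0)) (v 0))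
    (h2 : ∀ x ∈ Algebra.adjoin ℚ ((Set.range fun i => u i - (γ0 i : R) * v 0) ∪
      Set.range (Fin.tail v)), IsIntegral A x) :
    ∀ x ∈ Algebra.adjoin ℚ (Set.range u ∪ Set.range v), IsIntegral A x := by
  have h3 : ∀ x ∈ Algebra.adjoin ℚ (Set.range fun i => u i - (γ0 i : R) * v 0),
      IsIntegral A x := fun x hx => h2 x (Algebra.adjoin_mono Set.subset_union_left hx)
  let φ : Algebra.adjoin ℚ (Set.range fun i => u i - (γ0 i : R) * v 0) →+* integralClosure A R :=
    { toFun := fun x => ⟨x.1, h3 x.1 x.2⟩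
      map_one' := rfl
      map_mul' := fun _ _ => rfl
      map_zero' := rfl
      map_add' := fun _ _ => rfl }
  have h4 : IsIntegral (integralClosure A R) (v 0) :=
    IsIntegral.map_of_comp_eq φ (RingHom.id R) rfl h1
  have h5 : IsIntegral A (v 0) := isIntegral_trans (v 0) h4
  have h6 : ∀ i, IsIntegral A (u i) := by
    intro i
    have h7 := h3 _ (Algebra.subset_adjoin (Set.mem_range_self i))
    have h8 : u i = (u i - (γ0 i : R) * v 0) + γ0 i • v 0 := by
      rw [nsmul_eq_mul]
      ring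
    rw [h8]
    exact h7.add (h5.nsmul _)
  have h9 : ∀ j, IsIntegral A (v j) := by
    intro j
    refine Fin.cases h5 (fun j => ?_) j
    exact h2 _ (Algebra.subset_adjoin (Or.inr (Set.mem_range_self j)))
  intro x hx
  have h10 : Algebra.adjoin ℚ (Set.range u ∪ Set.range v) ≤
      (integralClosure A R).restrictScalars ℚ := by
    rw [Algebra.adjoin_le_iff]
    rintro y (⟨i, rfl⟩ | ⟨j, rfl⟩)
    · exact h6 i
    · exact h9 j
  exact h10 hx

/-- PROOF. Induction on `M`. `M = 0`: elements of the subring are integral. `M + 1`: `hrel` for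
`Fin.snoc u (v 0)`, `step`: `γ0`, `u' = u - γ0 v_0`; induction for `u'` and `Fin.tail v`: `γ'`,
`w = u' - ∑ γ' v`. Let `S` be the integral closure of `adjoin ℚ (range w)` in `R`, as a subalgebra
over `ℚ`. It contains `adjoin ℚ (range u' ∪ range (tail v))`, so `v 0` (integral over
`adjoin ℚ (range u')`; transitivity), so `u i = u' i + γ0 v_0`, so everything. -/
theorem noether_linear (V : AddSubgroup R)
    (hrel : ∀ f : Fin (k + 1) → R, (∀ i, f i ∈ V) →
      ∃ E : MvPolynomial (Fin (k + 1)) ℚ, E ≠ 0 ∧ E.totalDegree ≤ D ∧ aeval f E = 0) (M : ℕ) :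
    ∀ (u : Fin k → R) (v : Fin M → R), (∀ i, u i ∈ V) → (∀ j, v j ∈ V) →
      ∃ γ : Fin k → Fin M → ℕ, (∀ i j, γ i j ≤ D) ∧
        ∀ x ∈ Algebra.adjoin ℚ (Set.range u ∪ Set.range v),
          IsIntegral (Algebra.adjoin ℚ (Set.range fun i => u i - ∑ j, (γ i j : R) * v j)) x := by
  induction M with
  | zero =>
    intro u v _ _
    refine ⟨fun _ _ => 0, fun _ _ => Nat.zero_le _, fun x hx => ?_⟩
    have h1 : (fun i => u i - ∑ j : Fin 0, (((fun _ _ => 0 : Fin k → Fin 0 → ℕ) i j : ℕ) : R) *
        v j) = u := by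
      funext i
      rw [Finset.univ_eq_empty, Finset.sum_empty, sub_zero]
    have h2 : Set.range u ∪ Set.range v = Set.range u := by
      rw [Set.range_eq_empty v, Set.union_empty]
    rw [h1]
    rw [h2] at hx
    exact isIntegral_algebraMap (R := Algebra.adjoin ℚ (Set.range u)) (x := ⟨x, hx⟩)
  | succ M ih =>
    intro u v hu hv
    have hf : ∀ i, (Fin.snoc u (v 0) : Fin (k + 1) → R) i ∈ V := by
      intro i
      refine Fin.lastCases ?_ (fun j => ?_) i
      · rw [Fin.snoc_last]
        exact hv 0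
      · rw [Fin.snoc_castSucc]
        exact hu j
    obtain ⟨E, hE, hD, h0⟩ := hrel _ hf
    obtain ⟨γ0, hγ0, hint⟩ := step u (v 0) E hE hD h0
    obtain ⟨γ', hγ', ih'⟩ := ih (fun i => u i - (γ0 i : R) * v 0) (Fin.tail v)
      (fun i => V.sub_mem (hu i) (by
        rw [← nsmul_eq_mul]
        exact V.nsmul_mem (hv 0) _)) (fun j => hv j.succ)
    refine ⟨fun i => Fin.cons (γ0 i) (γ' i), fun i j => ?_, fun x hx => ?_⟩
    · refine Fin.cases ?_ (fun j => ?_) j
      · exact hγ0 i
      · exact hγ' i j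
    · have hw : (fun i => u i - ∑ j : Fin (M + 1), ((Fin.cons (γ0 i) (γ' i) : Fin (M + 1) → ℕ) j : R) *
          v j) = fun i => (u i - (γ0 i : R) * v 0) - ∑ j, (γ' i j : R) * Fin.tail v j := by
        funext i
        rw [Fin.sum_univ_succ]
        simp only [Fin.cons_zero, Fin.cons_succ, Fin.tail]
        ring
      rw [hw]
      exact noether_linear_aux u v γ0 (Algebra.adjoin ℚ (Set.range fun i =>
        (u i - (γ0 i : R) * v 0) - ∑ j, (γ' i j : R) * Fin.tail v j)) hint ih' x hx

end step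

/-! ### Nullstellensatz -/

/-- PROOF. Otherwise the ideal of `MvPolynomial (Fin n) ℚ` generated by the `map (Q i)` is contained
in a maximal ideal; the quotient is a field which is finite over `ℚ`
(`finite_of_finite_type_of_isJacobsonRing`), embed it in `ℂ` (`IsAlgClosed.lift`): a common zero.
`Ideal.mem_span_range_iff_exists_fun`. -/
theorem nullst {n M : ℕ} (Q : Fin M → MvPolynomial (Fin n) ℤ)
    (h : ∀ x : Fin n → ℂ, ∃ i, aeval x (Q i) ≠ 0) :
    ∃ A : Fin M → MvPolynomial (Fin n) ℚ, ∑ i, A i * map (Int.castRingHom ℚ) (Q i) = 1 := by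
  rw [← Ideal.mem_span_range_iff_exists_fun, ← Ideal.eq_top_iff_one]
  by_contra hne
  obtain ⟨m, hm, hle⟩ := Ideal.exists_le_maximal _ hne
  let _ := Ideal.Quotient.field m
  have hft : Algebra.FiniteType ℚ (MvPolynomial (Fin n) ℚ ⧸ m) := inferInstance
  have hfin : Module.Finite ℚ (MvPolynomial (Fin n) ℚ ⧸ m) :=
    finite_of_finite_type_of_isJacobsonRing ℚ _
  have halg : Algebra.IsAlgebraic ℚ (MvPolynomial (Fin n) ℚ ⧸ m) := inferInstance
  let φ : (MvPolynomial (Fin n) ℚ ⧸ m) →ₐ[ℚ] ℂ := IsAlgClosed.lift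
  let x : Fin n → ℂ := fun i => φ (Ideal.Quotient.mk m (X i))
  obtain ⟨i, hi⟩ := h x
  apply hi
  have h1 : (aeval x : MvPolynomial (Fin n) ℚ →ₐ[ℚ] ℂ) = φ.comp (Ideal.Quotient.mkₐ ℚ m) := by
    ext j
    rw [aeval_X]
    rfl
  have h2 : aeval x (Q i) = (aeval x : MvPolynomial (Fin n) ℚ →ₐ[ℚ] ℂ)
      (map (Int.castRingHom ℚ) (Q i)) := by
    rw [aeval_def, aeval_def, eval₂_map]
    congr 1
  rw [h2, h1]
  have h3 : map (Int.castRingHom ℚ) (Q i) ∈ m := hle (Ideal.subset_span ⟨i, rfl⟩)
  change φ (Ideal.Quotient.mk m (map (Int.castRingHom ℚ) (Q i))) = 0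
  rw [Ideal.Quotient.eq_zero_iff_mem.2 h3, map_zero]

/-! ### Algebraic independence -/

/-- PROOF. `MvPolynomial (Fin (n + 1)) ℚ` is generated by the `X i`, so integral, so algebraic over
`adjoin ℚ (range w)`; its transcendence degree is `n + 1`
(`MvPolynomial.trdeg_of_isDomain`): `isTranscendenceBasis_of_lift_le_trdeg_of_finite`. -/
theorem alg_ind {k : ℕ} (w : Fin k → MvPolynomial (Fin k) ℚ)
    (h : ∀ i, IsIntegral (Algebra.adjoin ℚ (Set.range w)) (X i : MvPolynomial (Fin k) ℚ)) :
    AlgebraicIndependent ℚ w := by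
  have hint : ∀ p : MvPolynomial (Fin k) ℚ, IsIntegral (Algebra.adjoin ℚ (Set.range w)) p := by
    intro p
    induction p using MvPolynomial.induction_on with
    | C a =>
      exact isIntegral_algebraMap (R := Algebra.adjoin ℚ (Set.range w))
        (x := algebraMap ℚ (Algebra.adjoin ℚ (Set.range w)) a)
    | add p q hp hq => exact hp.add hq
    | mul_X p i hp => exact hp.mul (h i)
  have hI : Algebra.IsIntegral (Algebra.adjoin ℚ (Set.range w)) (MvPolynomial (Fin k) ℚ) :=
    ⟨hint⟩
  have halg : Algebra.IsAlgebraic (Algebra.adjoin ℚ (Set.range w)) (MvPolynomial (Fin k) ℚ) :=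
    inferInstance
  refine (Algebra.IsAlgebraic.isTranscendenceBasis_of_lift_le_trdeg_of_finite ℚ w ?_).1
  rw [MvPolynomial.trdeg_of_isDomain]
  simp

private theorem clear_mv {k : ℕ} (f : MvPolynomial (Fin k) ℚ) :
    ∃ (b : ℤ) (g : MvPolynomial (Fin k) ℤ), b ≠ 0 ∧
      map (Int.castRingHom ℚ) g = C (b : ℚ) * f := by
  induction f using MvPolynomial.induction_on with
  | C a =>
    refine ⟨a.den, C a.num, by exact_mod_cast a.den_nz, ?_⟩
    rw [map_C, ← C_mul]
    congr 1
    rw [eq_intCast]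
    push_cast
    rw [mul_comm]
    exact (Rat.mul_den_eq_num a).symm
  | add p q hp hq =>
    obtain ⟨b, g, hb, hg⟩ := hp
    obtain ⟨b', g', hb', hg'⟩ := hq
    refine ⟨b * b', C b' * g + C b * g', mul_ne_zero hb hb', ?_⟩
    rw [map_add, map_mul, map_mul, hg, hg', map_C, map_C, eq_intCast, eq_intCast]
    push_cast
    rw [C_mul]
    ring
  | mul_X p i hp =>
    obtain ⟨b, g, hb, hg⟩ := hp
    refine ⟨b, g * X i, hb, ?_⟩
    rw [map_mul, hg, map_X, mul_assoc]

private theorem clear_poly {k : ℕ} (P : Polynomial (MvPolynomial (Fin k) ℚ)) :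
    ∃ (b : ℤ) (m : Polynomial (MvPolynomial (Fin k) ℤ)), b ≠ 0 ∧
      m.map (map (Int.castRingHom ℚ)) = Polynomial.C (C (b : ℚ)) * P := by
  induction P using Polynomial.induction_on' with
  | add p q hp hq =>
    obtain ⟨b, g, hb, hg⟩ := hp
    obtain ⟨b', g', hb', hg'⟩ := hq
    refine ⟨b * b', Polynomial.C (C b') * g + Polynomial.C (C b) * g', mul_ne_zero hb hb', ?_⟩
    rw [Polynomial.map_add, Polynomial.map_mul, Polynomial.map_mul, hg, hg', Polynomial.map_C,
      Polynomial.map_C, map_C, map_C, eq_intCast, eq_intCast]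
    push_cast
    rw [C_mul, Polynomial.C_mul]
    ring
  | monomial n a =>
    obtain ⟨b, g, hb, hg⟩ := clear_mv a
    refine ⟨b, Polynomial.monomial n g, hb, ?_⟩
    rw [Polynomial.map_monomial, hg, Polynomial.C_mul_monomial]

/-- PROOF. A monic polynomial over `adjoin ℚ (range w)` with root `x`; its coefficients are
`aeval w (c i)` with `c i` in `MvPolynomial (Fin k) ℚ`; multiply by a common denominator `b` of all
coefficients of the `c i`. -/
theorem clear {k l : ℕ} (w : Fin k → MvPolynomial (Fin l) ℤ) (x : MvPolynomial (Fin l) ℤ)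
    (h : IsIntegral (Algebra.adjoin ℚ (Set.range fun i => map (Int.castRingHom ℚ) (w i)))
      (map (Int.castRingHom ℚ) x)) :
    ∃ (m : Polynomial (MvPolynomial (Fin k) ℤ)) (b : ℤ), b ≠ 0 ∧ m.leadingCoeff = C b ∧
      Polynomial.eval₂ (aeval w : MvPolynomial (Fin k) ℤ →ₐ[ℤ] MvPolynomial (Fin l) ℤ).toRingHom
        x m = 0 := by
  have hinj : ∀ s : ℕ, Function.Injective (map (σ := Fin s) (Int.castRingHom ℚ)) :=
    fun s => MvPolynomial.map_injective _ Int.cast_injective
  rw [Algebra.adjoin_range_eq_range_aeval] at h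
  obtain ⟨p, hp, hpx⟩ := h
  obtain ⟨φ, hφ⟩ : ∃ φ : MvPolynomial (Fin k) ℚ →ₐ[ℚ]
      (aeval (R := ℚ) fun i => map (Int.castRingHom ℚ) (w i)).range,
      φ = (aeval (R := ℚ) fun i => map (Int.castRingHom ℚ) (w i)).rangeRestrict := ⟨_, rfl⟩
  have hsurj : Function.Surjective (φ : MvPolynomial (Fin k) ℚ →+*
      (aeval (R := ℚ) fun i => map (Int.castRingHom ℚ) (w i)).range) := by
    rw [hφ]
    exact AlgHom.rangeRestrict_surjective _
  obtain ⟨q, hq⟩ := Polynomial.map_surjective _ hsurj p
  obtain ⟨P, hP, -, hPm⟩ := Polynomial.lifts_and_natDegree_eq_and_monic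
    ((Polynomial.mem_lifts p).2 ⟨q, hq⟩) hp
  obtain ⟨b, m, hb, hm⟩ := clear_poly P
  refine ⟨m, b, hb, ?_, ?_⟩
  · apply hinj k
    rw [← Polynomial.leadingCoeff_map_of_injective (hinj k), hm, Polynomial.leadingCoeff_mul,
      Polynomial.leadingCoeff_C, hPm.leadingCoeff, mul_one, map_C, eq_intCast]
  · apply hinj l
    rw [map_zero, Polynomial.hom_eval₂]
    have h1 : (map (Int.castRingHom ℚ)).comp
        (aeval w : MvPolynomial (Fin k) ℤ →ₐ[ℤ] MvPolynomial (Fin l) ℤ).toRingHom =
        (aeval (R := ℚ) fun i => map (Int.castRingHom ℚ) (w i)).toRingHom.comp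
          (map (Int.castRingHom ℚ)) := by
      refine MvPolynomial.ringHom_ext (fun r => ?_) (fun i => ?_)
      · simp
      · simp
    rw [h1, ← Polynomial.eval₂_map, hm, Polynomial.eval₂_mul]
    have h2 : Polynomial.eval₂ (aeval (R := ℚ) fun i => map (Int.castRingHom ℚ) (w i)).toRingHom
        (map (Int.castRingHom ℚ) x) P = 0 := by
      rw [← hpx, ← hP, Polynomial.eval₂_map, hφ]
      rfl
    rw [h2, mul_zero]

/-! ### The common factor -/

/-- PROOF. Take a factorisation of `p` into irreducible elements; `φ` of one of them, `e`, is zero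
(`R` is a domain). `e` is not constant by `hφ`, so it is primitive and irreducible over the field of
fractions `K` (Gauss; `UniqueFactorizationMonoid.toNormalizedGCDMonoid`). If `e` does not divide `q`
then it does not divide it over `K` (Gauss), so `e` and `q` are coprime over `K`: after clearing
denominators `a e + b q = C c` with `c ≠ 0` in `A`; apply `φ`: contradiction to `hφ`. -/
theorem common_factor {A R : Type} [CommRing A] [IsDomain A] [UniqueFactorizationMonoid A]
    [CommRing R] [IsDomain R] (φ : Polynomial A →+* R)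
    (hφ : ∀ a : A, φ (Polynomial.C a) = 0 → a = 0) (p q : Polynomial A) (hp : p ≠ 0) (hq : q ≠ 0)
    (h1 : φ p = 0) (h2 : φ q = 0) : ∃ e : Polynomial A, φ e = 0 ∧ e ∣ p ∧ e ∣ q := by
  classical
  -- an irreducible factor of `p` in the kernel
  obtain ⟨e, hirr, hep, hφe⟩ : ∃ e : Polynomial A, Irreducible e ∧ e ∣ p ∧ φ e = 0 := by
    obtain ⟨f, hf, hfp⟩ := UniqueFactorizationMonoid.exists_prime_factors p hp
    have h3 : φ f.prod = 0 := by
      obtain ⟨u, hu⟩ := hfp
      rw [← hu, map_mul] at h1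
      rcases mul_eq_zero.mp h1 with h4 | h4
      · exact h4
      · exact absurd h4 ((u.isUnit.map φ).ne_zero)
    rw [map_multiset_prod, Multiset.prod_eq_zero_iff, Multiset.mem_map] at h3
    obtain ⟨e, he, he0⟩ := h3
    exact ⟨e, (hf e he).irreducible, (Multiset.dvd_prod he).trans hfp.dvd, he0⟩
  have hdeg : e.natDegree ≠ 0 := by
    intro h0
    rw [Polynomial.natDegree_eq_zero] at h0
    obtain ⟨a, ha⟩ := h0
    rw [← ha] at hφe
    have h5 := hφ a hφe
    apply hirr.ne_zero
    rw [← ha, h5, Polynomial.C_0]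
  have hprim : e.IsPrimitive := hirr.isPrimitive hdeg
  refine ⟨e, hφe, hep, ?_⟩
  apply hprim.dvd_of_fraction_map_dvd_fraction_map (K := FractionRing A)
  by_contra hnd
  have hirrK : Irreducible (e.map (algebraMap A (FractionRing A))) :=
    hprim.irreducible_iff_irreducible_map_fraction_map.mp hirr
  have hcop : IsCoprime (e.map (algebraMap A (FractionRing A)))
      (q.map (algebraMap A (FractionRing A))) :=
    (EuclideanDomain.dvd_or_coprime _ _ hirrK).resolve_left hnd
  obtain ⟨a, b, hab⟩ := hcop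
  obtain ⟨c, c0, hc⟩ := IsLocalization.integerNormalization_spec (nonZeroDivisors A) a
  obtain ⟨d, d0, hd⟩ := IsLocalization.integerNormalization_spec (nonZeroDivisors A) b
  rw [Algebra.smul_def, Polynomial.algebraMap_apply] at hc hd
  rw [mem_nonZeroDivisors_iff_ne_zero] at c0 d0
  set a' := IsLocalization.integerNormalization (nonZeroDivisors A) a
  set b' := IsLocalization.integerNormalization (nonZeroDivisors A) b
  have hkey : Polynomial.C (c * d) =
      Polynomial.C d * a' * e + Polynomial.C c * b' * q := by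
    apply Polynomial.map_injective (algebraMap A (FractionRing A)) (IsFractionRing.injective _ _)
    rw [Polynomial.map_add, Polynomial.map_mul, Polynomial.map_mul, Polynomial.map_mul,
      Polynomial.map_mul, hc, hd, Polynomial.map_C, Polynomial.map_C, Polynomial.map_C, map_mul,
      Polynomial.C_mul]
    linear_combination -(Polynomial.C (algebraMap A (FractionRing A) c) *
      Polynomial.C (algebraMap A (FractionRing A) d)) * hab
  have h6 : φ (Polynomial.C (c * d)) = 0 := by
    rw [hkey, map_add, map_mul, map_mul φ (Polynomial.C c * b'), hφe, h2, mul_zero, mul_zero,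
      add_zero]
  exact mul_ne_zero c0 d0 (hφ _ h6)

end

end Pool.Agent.Helper29.CN
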