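import Pool.Agent.Helper29.CN.M

/-!
Criterion over `ℚ(al)`, `al` algebraic: the integer polynomials may depend on `al`, the common zero
keeps the same `al`.
-/

set_option autoImplicit false

namespace Pool.Agent.Helper29.CN

open MvPolynomial

/-- Common zero with a conjugate of `al` gives a common zero with `al`. -/
theorem conj_point {σ : Type} [Fintype σ] {N : ℕ} (P : Fin N → MvPolynomial (Option σ) ℤ)
    (al y : ℂ) (hal : IsAlgebraic ℚ al) (hy : Polynomial.aeval y (minpoly ℚ al) = 0)
    (x : σ → ℂ) (hx : ∀ i, x i ≠ 0)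
    (h : ∀ i, aeval (fun o : Option σ => o.elim y x) (P i) = 0) :
    ∃ x' : σ → ℂ, (∀ i, x' i ≠ 0) ∧
      ∀ i, aeval (fun o : Option σ => o.elim al x') (P i) = 0 := by
  classical
  have hint : IsIntegral ℚ al := hal.isIntegral
  let k := IntermediateField.adjoin ℚ ({al} : Set ℂ)
  let pb : PowerBasis ℚ k := IntermediateField.adjoin.powerBasis hint
  have hgen : algebraMap k ℂ pb.gen = al := by
    change algebraMap k ℂ (IntermediateField.adjoin.powerBasis hint).gen = al
    rw [IntermediateField.adjoin.powerBasis_gen]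
    exact IntermediateField.AdjoinSimple.algebraMap_gen ℚ al
  have hmp : minpoly ℚ pb.gen = minpoly ℚ al := by
    rw [← hgen]
    exact (minpoly.algebraMap_eq (algebraMap k ℂ).injective pb.gen).symm
  let h1 : k →ₐ[ℚ] ℂ := pb.lift y (by rw [hmp]; exact hy)
  have h1g : h1 pb.gen = y := pb.lift_gen y _
  let p : Fin N → MvPolynomial (Option σ) k := fun i =>
    aeval (fun o : Option σ => o.elim (C pb.gen) (fun j => (X (some j) : MvPolynomial (Option σ) k)))
      (P i)
  let e : MvPolynomial (Option σ) k := X none * ∏ j, X (some j) - 1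
  let I : Ideal (MvPolynomial (Option σ) k) := Ideal.span (insert e (Set.range p))
  have ev : ∀ (B : Type) [CommRing B] (f : MvPolynomial (Option σ) k →+* B) (i : Fin N),
      f (p i) = aeval (fun o : Option σ => o.elim (f (C pb.gen)) (fun j => f (X (some j))))
        (P i) := by
    intro B _ f i
    have h2 := MvPolynomial.comp_aeval_apply
      (fun o : Option σ => o.elim (C pb.gen) (fun j => (X (some j) : MvPolynomial (Option σ) k)))
      f.toIntAlgHom (P i)
    change f (p i) = _ at h2
    rw [h2]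
    congr 2
    funext o
    rcases o with _ | o <;> rfl
  have hI : I ≠ ⊤ := by
    intro hI
    let f : MvPolynomial (Option σ) k →+* ℂ :=
      eval₂Hom (h1 : k →+* ℂ) (fun o : Option σ => o.elim (∏ j, x j)⁻¹ x)
    have hle : I ≤ RingHom.ker f := by
      rw [Ideal.span_le]
      rintro q (rfl | ⟨i, rfl⟩)
      · rw [SetLike.mem_coe, RingHom.mem_ker]
        have h3 : (∏ j, x j) ≠ 0 := Finset.prod_ne_zero_iff.2 fun j _ => hx j
        simp only [e, f, map_sub, map_mul, map_prod, map_one, coe_eval₂Hom, eval₂_X,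
          Option.elim_none, Option.elim_some]
        rw [inv_mul_cancel₀ h3, sub_self]
      · rw [SetLike.mem_coe, RingHom.mem_ker, ev ℂ f i]
        have h3 : f (C pb.gen) = y := by
          simp only [f, coe_eval₂Hom, eval₂_C]
          exact h1g
        have h4 : ∀ j, f (X (some j)) = x j := by
          intro j
          simp only [f, coe_eval₂Hom, eval₂_X, Option.elim_some]
        rw [h3]
        simp only [h4]
        exact h i
    have h5 : (1 : MvPolynomial (Option σ) k) ∈ I := hI ▸ Submodule.mem_top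
    have h6 := hle h5
    rw [RingHom.mem_ker, map_one] at h6
    exact one_ne_zero h6
  obtain ⟨M, hM, hIM⟩ := Ideal.exists_le_maximal I hI
  let := Ideal.Quotient.field M
  have : Module.Finite k (MvPolynomial (Option σ) k ⧸ M) :=
    finite_of_finite_type_of_isJacobsonRing k (MvPolynomial (Option σ) k ⧸ M)
  let ψ : (MvPolynomial (Option σ) k ⧸ M) →ₐ[k] ℂ := IsAlgClosed.lift
  let f : MvPolynomial (Option σ) k →+* ℂ := (ψ : _ →+* ℂ).comp (Ideal.Quotient.mk M)
  have hf : ∀ q ∈ I, f q = 0 := by
    intro q hq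
    have h7 : Ideal.Quotient.mk M q = 0 := Ideal.Quotient.eq_zero_iff_mem.2 (hIM hq)
    change ψ (Ideal.Quotient.mk M q) = 0
    rw [h7, map_zero]
  have hfC : f (C pb.gen) = al := by
    change ψ (algebraMap k (MvPolynomial (Option σ) k ⧸ M) pb.gen) = al
    rw [ψ.commutes]
    exact hgen
  refine ⟨fun j => f (X (some j)), fun j hj => ?_, fun i => ?_⟩
  · have h8 := hf e (Ideal.subset_span (Set.mem_insert _ _))
    simp only [e, map_sub, map_mul, map_prod, map_one] at h8
    have h9 : (∏ j, f (X (some j))) = 0 := Finset.prod_eq_zero (Finset.mem_univ j) hj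
    rw [h9, mul_zero, zero_sub, neg_eq_zero] at h8
    exact one_ne_zero h8
  · have h8 := hf (p i) (Ideal.subset_span (Set.mem_insert_of_mem _ ⟨i, rfl⟩))
    rw [ev ℂ f i, hfC] at h8
    exact h8

/-- The criterion of `C_main_n` for integer polynomials in the coordinates and in one algebraic
number `al` (index `none`): the common zero has the same last coordinate `al`. -/
theorem C_main_al {σ : Type} [Fintype σ] (n : ℕ) (ρ : σ → ℂ) (h0 : ∀ i, ρ i ≠ 0)
    (al : ℂ) (hal0 : al ≠ 0) (hal : IsAlgebraic ℚ al)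
    (htr : ∀ f : Fin (n + 1) → σ, ¬ AlgebraicIndependent ℚ (fun i => ρ (f i)))
    (κ : ℝ) (hκ : (n : ℝ) + 1 < κ) :
    ∃ S0 : ℝ, ∀ S : ℝ, S0 ≤ S → ∀ (N : ℕ) (P : Fin N → MvPolynomial (Option σ) ℤ),
      (N : ℝ) ≤ Real.exp S → (∀ i, ((P i).totalDegree : ℝ) ≤ S) →
      (∀ i m, |(((P i).coeff m : ℤ) : ℝ)| ≤ Real.exp S) →
      (∀ i, ‖MvPolynomial.aeval (fun o : Option σ => o.elim al ρ) (P i)‖ ≤
        Real.exp (-S ^ κ)) →
      ∃ x : σ → ℂ, (∀ i, x i ≠ 0) ∧
        ∀ i, MvPolynomial.aeval (fun o : Option σ => o.elim al x) (P i) = 0 := by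
  classical
  set ρ' : Option σ → ℂ := fun o => o.elim al ρ with hρ'
  have h0' : ∀ o, ρ' o ≠ 0 := by
    rintro (_ | o)
    · exact hal0
    · exact h0 o
  have htr' : ∀ f : Fin (n + 1) → Option σ, ¬ AlgebraicIndependent ℚ (fun i => ρ' (f i)) := by
    intro f hf
    have h1 : ∀ i, ∃ j, f i = some j := by
      intro i
      rcases h : f i with _ | j
      · exfalso
        have h2 := hf.transcendental i
        rw [h] at h2
        exact h2 hal
      · exact ⟨j, rfl⟩
    choose g hg using h1
    apply htr g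
    have h2 : (fun i => ρ' (f i)) = fun i => ρ (g i) := by
      funext i
      rw [hg i]
      rfl
    rwa [h2] at hf
  set κ' : ℝ := ((n : ℝ) + 1 + κ) / 2 with hκ'
  have hκ1 : (n : ℝ) + 1 < κ' := by rw [hκ']; linarith
  have hκ2 : κ' < κ := by rw [hκ']; linarith
  obtain ⟨S1, hS1⟩ := C_main_n n ρ' h0' htr' κ' hκ1
  -- the integer minimal polynomial
  obtain ⟨b, hb, hm⟩ := IsLocalization.integerNormalization_spec (nonZeroDivisors ℤ) (minpoly ℚ al)
  set m : Polynomial ℤ := IsLocalization.integerNormalization (nonZeroDivisors ℤ) (minpoly ℚ al)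
    with hmdef
  have hb0 : ((b : ℤ) : ℚ) ≠ 0 := by
    exact_mod_cast nonZeroDivisors.ne_zero hb
  have hmy : ∀ y : ℂ, Polynomial.aeval y m = (b : ℂ) * Polynomial.aeval y (minpoly ℚ al) := by
    intro y
    have h1 : Polynomial.aeval y m = Polynomial.aeval y (m.map (algebraMap ℤ ℚ)) := by
      rw [Polynomial.aeval_map_algebraMap]
    rw [h1, hm, map_zsmul, zsmul_eq_mul]
  set Q : MvPolynomial (Option σ) ℤ := Polynomial.aeval (X none) m with hQ
  have hQev : ∀ x : Option σ → ℂ, aeval x Q = Polynomial.aeval (x none) m := by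
    intro x
    rw [hQ, ← Polynomial.aeval_algHom_apply, aeval_X]
  obtain ⟨S2, hS2⟩ := Filter.eventually_atTop.mp
    ((tendsto_rpow_atTop (by linarith : (0 : ℝ) < κ - κ')).eventually_ge_atTop ((2 : ℝ) ^ κ'))
  obtain ⟨B, hB⟩ : ∃ B : ℝ, ∀ k, |((Q.coeff k : ℤ) : ℝ)| ≤ B := by
    refine ⟨∑ k ∈ Q.support, |((Q.coeff k : ℤ) : ℝ)|, fun k => ?_⟩
    by_cases hk : k ∈ Q.support
    · exact Finset.single_le_sum (f := fun k => |((Q.coeff k : ℤ) : ℝ)|)
        (fun k _ => abs_nonneg _) hk
    · rw [notMem_support_iff.1 hk, Int.cast_zero, abs_zero]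
      exact Finset.sum_nonneg fun k _ => abs_nonneg _
  refine ⟨max 1 (max S1 (max S2 (max (Q.totalDegree : ℝ) B))), ?_⟩
  intro S hS N P hN hdeg hcoeff hval
  have hSone : 1 ≤ S := (le_max_left _ _).trans hS
  have hSS1 : S1 ≤ S := ((le_max_left _ _).trans (le_max_right _ _)).trans hS
  have hS3 : max S2 (max (Q.totalDegree : ℝ) B) ≤ S :=
    ((le_max_right _ _).trans (le_max_right _ _)).trans hS
  have hSS2 : S2 ≤ S := (le_max_left _ _).trans hS3
  have hS4 : max (Q.totalDegree : ℝ) B ≤ S := (le_max_right _ _).trans hS3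
  have hSQ : (Q.totalDegree : ℝ) ≤ S := (le_max_left _ _).trans hS4
  have hSB : B ≤ S := (le_max_right _ _).trans hS4
  have hSpos : 0 < S := by linarith
  have hexp : Real.exp S ≤ Real.exp (2 * S) := Real.exp_le_exp.2 (by linarith)
  have hpow : (2 * S) ^ κ' ≤ S ^ κ := by
    have h1 := hS2 S hSS2
    rw [Real.mul_rpow (by norm_num) hSpos.le]
    calc (2 : ℝ) ^ κ' * S ^ κ' ≤ S ^ (κ - κ') * S ^ κ' := by gcongr
      _ = S ^ κ := by rw [← Real.rpow_add hSpos]; congr 1; ring
  have hN1 : ((N + 1 : ℕ) : ℝ) ≤ Real.exp (2 * S) := by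
    have h1 : (2 : ℝ) ≤ Real.exp S := by
      have := Real.add_one_le_exp S
      linarith
    push_cast
    calc (N : ℝ) + 1 ≤ Real.exp S + Real.exp S := by linarith
      _ = 2 * Real.exp S := by ring
      _ ≤ Real.exp S * Real.exp S := by
          have := Real.exp_pos S
          nlinarith
      _ = Real.exp (2 * S) := by rw [← Real.exp_add]; congr 1; ring
  obtain ⟨x, hx0, hx⟩ := hS1 (2 * S) (by linarith) (N + 1) (Fin.cons Q P) hN1
    (by
      intro i
      refine Fin.cases ?_ (fun i => ?_) i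
      · simp only [Fin.cons_zero]
        linarith
      · simp only [Fin.cons_succ]
        linarith [hdeg i])
    (by
      intro i
      refine Fin.cases (fun k => ?_) (fun i k => ?_) i
      · simp only [Fin.cons_zero]
        refine (hB k).trans (hSB.trans ?_)
        have := Real.add_one_le_exp (2 * S)
        linarith
      · simp only [Fin.cons_succ]
        exact (hcoeff i k).trans hexp)
    (by
      intro i
      refine Fin.cases ?_ (fun i => ?_) i
      · simp only [Fin.cons_zero]
        rw [hQev, hmy]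
        have h1 : ρ' none = al := rfl
        rw [h1, minpoly.aeval, mul_zero, norm_zero]
        exact (Real.exp_pos _).le
      · simp only [Fin.cons_succ]
        exact (hval i).trans (Real.exp_le_exp.2 (neg_le_neg hpow)))
  have hy : Polynomial.aeval (x none) (minpoly ℚ al) = 0 := by
    have h1 := hx 0
    rw [Fin.cons_zero, hQev, hmy] at h1
    rcases mul_eq_zero.1 h1 with h2 | h2
    · exfalso
      apply hb0
      exact_mod_cast h2
    · exact h2
  refine conj_point P al (x none) hal hy (fun j => x (some j)) (fun j => hx0 _) fun i => ?_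
  have h1 := hx i.succ
  rw [Fin.cons_succ] at h1
  have h2 : (fun o : Option σ => o.elim (x none) fun j => x (some j)) = x := by
    funext o
    rcases o with _ | o <;> rfl
  rw [h2]
  exact h1

end Pool.Agent.Helper29.CN
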