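import Pool.Agent.Helper29.CN.A

/-!
# Project CN: relations with small coefficients
-/

namespace Pool.Agent.Helper29.CN

open MvPolynomial Pool.Agent.Helper14.LC

noncomputable section

/-- The monomials `c` with `c i ≤ D` for all `i`. -/
def bx (k D : ℕ) : Finset (Fin k →₀ ℕ) :=
  (Finset.univ : Finset (Fin k → Fin (D + 1))).image fun s => Finsupp.equivFunOnFinite.symm
    fun i => (s i : ℕ)

theorem mem_bx {k D : ℕ} (c : Fin k →₀ ℕ) : c ∈ bx k D ↔ ∀ i, c i ≤ D := by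
  unfold bx
  rw [Finset.mem_image]
  constructor
  · rintro ⟨s, -, rfl⟩ i
    exact Nat.lt_succ_iff.1 (s i).2
  · intro h
    refine ⟨fun i => ⟨c i, Nat.lt_succ_iff.2 (h i)⟩, Finset.mem_univ _, ?_⟩
    ext i
    rfl

/-- PROOF. `degreeOf_mul_le`, `degreeOf_pow_le`, `degreeOf_prod_le`; `isNm_len`. -/
theorem mono_deg {n S : ℕ} (f : Fin (n + 2) → MvPolynomial (Fin (n + 1)) ℤ) (D : ℕ)
    (h0 : ∀ i, (f i).degreeOf 0 ≤ 1) (h1 : ∀ i (j : Fin n), (f i).degreeOf j.succ ≤ S)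
    (c : Fin (n + 2) → ℕ) (hc : ∀ i, c i ≤ D) :
    (∏ i, f i ^ c i).degreeOf 0 ≤ (n + 2) * D ∧
      ∀ j : Fin n, (∏ i, f i ^ c i).degreeOf j.succ ≤ (n + 2) * D * S := by
  have key : ∀ (j : Fin (n + 1)) (S : ℕ), (∀ i, (f i).degreeOf j ≤ S) →
      (∏ i, f i ^ c i).degreeOf j ≤ (n + 2) * D * S := by
    intro j S h
    calc (∏ i, f i ^ c i).degreeOf j ≤ ∑ i, (f i ^ c i).degreeOf j := degreeOf_prod_le _ _ _
      _ ≤ ∑ _i : Fin (n + 2), D * S := by
        refine Finset.sum_le_sum fun i _ => ?_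
        exact (degreeOf_pow_le _ _ _).trans (Nat.mul_le_mul (hc i) (h i))
      _ = (n + 2) * D * S := by
        rw [Finset.sum_const, Finset.card_univ, Fintype.card_fin, smul_eq_mul, mul_assoc]
  refine ⟨?_, fun j => key j.succ S fun i => h1 i j⟩
  have h2 := key 0 1 h0
  rwa [mul_one] at h2

theorem mono_len {n : ℕ} (f : Fin (n + 2) → MvPolynomial (Fin (n + 1)) ℤ) (D : ℕ)
    (H : ℝ) (hH : 1 ≤ H) (hL : ∀ i, len (f i) ≤ H)
    (c : Fin (n + 2) → ℕ) (hc : ∀ i, c i ≤ D) :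
    len (∏ i, f i ^ c i) ≤ H ^ ((n + 2) * D) := by
  have hN := isNm_len (σ := Fin (n + 1))
  calc len (∏ i, f i ^ c i) ≤ ∏ i, len (f i ^ c i) := hN.prod_le _ _
    _ ≤ ∏ _i : Fin (n + 2), H ^ D := by
      refine Finset.prod_le_prod (fun i _ => hN.nn _) fun i _ => ?_
      calc len (f i ^ c i) ≤ len (f i) ^ c i := hN.pow_le _ _
        _ ≤ H ^ c i := pow_le_pow_left₀ (hN.nn _) (hL i) _
        _ ≤ H ^ D := pow_le_pow_right₀ hH (hc i)
    _ = H ^ ((n + 2) * D) := by
      rw [Finset.prod_const, Finset.card_univ, Fintype.card_fin, ← pow_mul, mul_comm]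

section relsec

attribute [local instance] Matrix.seminormedAddCommGroup

theorem rel_siegel {α β : Type} [Fintype α] [Fintype β] (A : Matrix α β ℤ) (L : ℝ)
    (hL : 1 ≤ L) (hA : ∀ i j, |((A i j : ℤ) : ℝ)| ≤ L)
    (hc : 2 * Fintype.card α ≤ Fintype.card β) (hα : 0 < Fintype.card α) :
    ∃ t : β → ℤ, t ≠ 0 ∧ (∀ i, ∑ j, A i j * t j = 0) ∧
      ∀ j, |((t j : ℤ) : ℝ)| ≤ Fintype.card β * L := by
  obtain ⟨t, h0, h1, h2⟩ := Int.Matrix.exists_ne_zero_int_vec_norm_le A (by omega) hα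
  refine ⟨t, h0, fun i => congrFun h1 i, fun j => ?_⟩
  have hα' : (0 : ℝ) < Fintype.card α := by exact_mod_cast hα
  have hc' : 2 * (Fintype.card α : ℝ) ≤ Fintype.card β := by exact_mod_cast hc
  have hα1 : (1 : ℝ) ≤ Fintype.card α := by exact_mod_cast hα
  have hAL : ‖A‖ ≤ L := by
    rw [Matrix.norm_le_iff (by linarith)]
    intro i j
    rw [Int.norm_eq_abs]
    exact hA i j
  have hmax : max 1 ‖A‖ ≤ L := max_le hL hAL
  have hmax1 : (1 : ℝ) ≤ max 1 ‖A‖ := le_max_left _ _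
  have hb1 : (1 : ℝ) ≤ Fintype.card β * max 1 ‖A‖ := by nlinarith
  have he : (Fintype.card α : ℝ) / (Fintype.card β - Fintype.card α) ≤ 1 := by
    rw [div_le_one (by linarith)]
    linarith
  have h3 := Real.rpow_le_rpow_of_exponent_le hb1 he
  rw [Real.rpow_one] at h3
  have h4 : ‖t j‖ ≤ ‖t‖ := norm_le_pi_norm t j
  rw [Int.norm_eq_abs] at h4
  exact h4.trans (h2.trans (h3.trans (mul_le_mul_of_nonneg_left hmax (by positivity))))

end relsec

private theorem rel_count (n S : ℕ) (hS : 1 ≤ S) :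
    2 * (((n + 2) * DD n S + 1) * ((n + 2) * DD n S * S + 1) ^ n) ≤ (DD n S + 1) ^ (n + 2) := by
  obtain ⟨D, hD⟩ : ∃ D, D = DD n S := ⟨_, rfl⟩
  have hD' : D = 2 * (n + 2) ^ (n + 1) * S ^ n := hD
  rw [← hD]
  have h1 : (n + 2) * D + 1 ≤ (n + 2) * (D + 1) := by
    rw [mul_add]
    omega
  have h2 : (n + 2) * D * S + 1 ≤ (n + 2) * (D + 1) * S := by
    have : (n + 2) * (D + 1) * S = (n + 2) * D * S + (n + 2) * S := by ring
    have h3 : 1 ≤ (n + 2) * S := Nat.one_le_iff_ne_zero.2 (by positivity)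
    omega
  calc 2 * (((n + 2) * D + 1) * ((n + 2) * D * S + 1) ^ n)
      ≤ 2 * (((n + 2) * (D + 1)) * ((n + 2) * (D + 1) * S) ^ n) := by gcongr
    _ = (2 * (n + 2) ^ (n + 1) * S ^ n) * (D + 1) ^ (n + 1) := by
        rw [mul_pow, mul_pow, pow_succ (n + 2), pow_succ (D + 1)]
        ring
    _ = D * (D + 1) ^ (n + 1) := by rw [← hD']
    _ ≤ (D + 1) * (D + 1) ^ (n + 1) := Nat.mul_le_mul_right _ (Nat.le_succ D)
    _ = (D + 1) ^ (n + 2) := by rw [pow_succ (D + 1) (n + 1), mul_comm]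

def rel_mon {k D : ℕ} (c : Fin k → Fin (D + 1)) : Fin k →₀ ℕ :=
  Finsupp.equivFunOnFinite.symm fun i => (c i : ℕ)

theorem rel_mon_apply {k D : ℕ} (c : Fin k → Fin (D + 1)) (i : Fin k) :
    rel_mon c i = (c i : ℕ) := rfl

theorem rel_mon_inj {k D : ℕ} : Function.Injective (rel_mon : (Fin k → Fin (D + 1)) → _) := by
  intro c c' h
  funext i
  exact Fin.ext (DFunLike.congr_fun h i)

def rel_E {k D : ℕ} (t : (Fin k → Fin (D + 1)) → ℤ) : MvPolynomial (Fin k) ℤ :=
  ∑ c, monomial (rel_mon c) (t c)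

theorem rel_E_coeff {k D : ℕ} (t : (Fin k → Fin (D + 1)) → ℤ)
    (c : Fin k → Fin (D + 1)) : (rel_E t).coeff (rel_mon c) = t c := by
  classical
  unfold rel_E
  rw [coeff_sum, Finset.sum_eq_single c]
  · rw [coeff_monomial, if_pos rfl]
  · intro c' _ hc'
    rw [coeff_monomial, if_neg fun h => hc' (rel_mon_inj h)]
  · intro h
    exact absurd (Finset.mem_univ c) h

theorem rel_E_coeff' {k D : ℕ} (t : (Fin k → Fin (D + 1)) → ℤ) (m : Fin k →₀ ℕ)
    (h : (rel_E t).coeff m ≠ 0) : ∃ c, m = rel_mon c ∧ (rel_E t).coeff m = t c := by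
  classical
  have h1 : ∃ c : Fin k → Fin (D + 1), rel_mon c = m := by
    by_contra hcon
    push Not at hcon
    apply h
    unfold rel_E
    rw [coeff_sum]
    refine Finset.sum_eq_zero fun c _ => ?_
    rw [coeff_monomial, if_neg (hcon c)]
  obtain ⟨c, rfl⟩ := h1
  exact ⟨c, rfl, rel_E_coeff t c⟩

private theorem rel_E_aeval {k l D : ℕ} (t : (Fin k → Fin (D + 1)) → ℤ)
    (f : Fin k → MvPolynomial (Fin l) ℤ) (m : Fin l →₀ ℕ) :
    (aeval f (rel_E t)).coeff m = ∑ c, (∏ i, f i ^ (c i : ℕ)).coeff m * t c := by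
  unfold rel_E
  rw [map_sum, coeff_sum]
  refine Finset.sum_congr rfl fun c _ => ?_
  rw [aeval_monomial, Finsupp.prod_fintype _ _ (fun i => pow_zero _)]
  simp only [rel_mon_apply]
  rw [show algebraMap ℤ (MvPolynomial (Fin l) ℤ) (t c) = C (t c) from rfl, coeff_C_mul, mul_comm]

/-- PROOF. Siegel's lemma (`Int.Matrix.exists_ne_zero_int_vec_norm_le`). Let `D = DD n S`,
`m = D + 1`. Unknowns: the coefficients of `E` for `c ∈ {0, .., D}^(n + 2)`, `U = m ^ (n + 2)` in
number. Equations: the coefficients of `z ^ a y ^ b`, `a ≤ (n + 2) D`, `b_j ≤ (n + 2) D S`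
(`mono_deg`), at most `V = ((n + 2) D + 1) ((n + 2) D S + 1) ^ n ≤ (n + 2) ^ (n + 1) m ^ (n + 1) S ^ n`
in number, and `2 V ≤ U` as `D = 2 (n + 2) ^ (n + 1) S ^ n`. The entries have absolute value at most
`H ^ ((n + 2) D)` (`mono_len`, `coeff_le_len`), and the exponent `V / (U - V)` is at most `1`. -/
theorem rel (n S : ℕ) (hS : 1 ≤ S) (f : Fin (n + 2) → MvPolynomial (Fin (n + 1)) ℤ)
    (h0 : ∀ i, (f i).degreeOf 0 ≤ 1) (h1 : ∀ i (j : Fin n), (f i).degreeOf j.succ ≤ S)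
    (H : ℝ) (hH : 1 ≤ H) (hL : ∀ i, len (f i) ≤ H) :
    ∃ E : MvPolynomial (Fin (n + 2)) ℤ, E ≠ 0 ∧ (∀ i, E.degreeOf i ≤ DD n S) ∧
      (∀ m, |((E.coeff m : ℤ) : ℝ)| ≤
        ((DD n S : ℝ) + 1) ^ (n + 2) * H ^ ((n + 2) * DD n S)) ∧ aeval f E = 0 := by
  obtain ⟨D, hD⟩ : ∃ D, D = DD n S := ⟨_, rfl⟩
  have hcount := rel_count n S hS
  rw [← hD] at hcount ⊢
  obtain ⟨t, ht0, ht1, ht2⟩ := rel_siegel
    (α := Fin ((n + 2) * D + 1) × (Fin n → Fin ((n + 2) * D * S + 1)))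
    (β := Fin (n + 2) → Fin (D + 1))
    (fun a c => (∏ i, f i ^ (c i : ℕ)).coeff (Finsupp.equivFunOnFinite.symm
      (Fin.cons (a.1 : ℕ) (fun j => (a.2 j : ℕ)) : Fin (n + 1) → ℕ))) (H ^ ((n + 2) * D))
    (one_le_pow₀ hH) (fun a c => (coeff_le_len _ _).trans
      (mono_len f D H hH hL _ fun i => Nat.lt_succ_iff.1 (c i).2))
    (by
      rw [Fintype.card_prod, Fintype.card_fun, Fintype.card_fun, Fintype.card_fin,
        Fintype.card_fin, Fintype.card_fin, Fintype.card_fin, Fintype.card_fin]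
      exact hcount)
    (by
      rw [Fintype.card_prod, Fintype.card_fun, Fintype.card_fin, Fintype.card_fin,
        Fintype.card_fin]
      positivity)
  have hcard : (Fintype.card (Fin (n + 2) → Fin (D + 1)) : ℝ) = ((D : ℝ) + 1) ^ (n + 2) := by
    rw [Fintype.card_fun, Fintype.card_fin, Fintype.card_fin]
    push_cast
    rfl
  rw [hcard] at ht2
  refine ⟨rel_E t, ?_, ?_, ?_, ?_⟩
  · intro h
    apply ht0
    funext c
    rw [← rel_E_coeff t c, h, coeff_zero]
    rfl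
  · intro i
    rw [degreeOf_le_iff]
    intro m hm
    obtain ⟨c, rfl, -⟩ := rel_E_coeff' t m (mem_support_iff.1 hm)
    exact Nat.lt_succ_iff.1 (c i).2
  · intro m
    by_cases hm : (rel_E t).coeff m = 0
    · rw [hm, Int.cast_zero, abs_zero]
      positivity
    · obtain ⟨c, -, h⟩ := rel_E_coeff' t m hm
      rw [h]
      exact ht2 c
  · ext m
    rw [rel_E_aeval, coeff_zero]
    by_cases hm : m 0 ≤ (n + 2) * D ∧ ∀ j : Fin n, m j.succ ≤ (n + 2) * D * S
    · have h2 := ht1 (⟨m 0, Nat.lt_succ_iff.2 hm.1⟩, fun j => ⟨m j.succ,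
        Nat.lt_succ_iff.2 (hm.2 j)⟩)
      have h3 : (Finsupp.equivFunOnFinite.symm
          (Fin.cons (m 0) (fun j => m j.succ) : Fin (n + 1) → ℕ)) = m := by
        ext i
        refine Fin.cases ?_ (fun j => ?_) i
        · rfl
        · rfl
      dsimp only at h2
      rw [h3] at h2
      exact h2
    · refine Finset.sum_eq_zero fun c _ => ?_
      obtain ⟨d0, d1⟩ := mono_deg f D h0 h1 (fun i => (c i : ℕ))
        fun i => Nat.lt_succ_iff.1 (c i).2
      have h2 : (∏ i, f i ^ (c i : ℕ)).coeff m = 0 := by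
        by_contra hne
        have hmem := mem_support_iff.2 hne
        apply hm
        exact ⟨degreeOf_le_iff.1 d0 m hmem, fun j => degreeOf_le_iff.1 (d1 j) m hmem⟩
      rw [h2, zero_mul]

/-- The group of the `f` with small degrees, over `ℚ`.
PROOF. `degreeOf_add_le`, `degreeOf_neg`. -/
def VV (n S : ℕ) : AddSubgroup (MvPolynomial (Fin (n + 1)) ℤ) where
  carrier := {f | f.degreeOf 0 ≤ 1 ∧ ∀ j : Fin n, f.degreeOf j.succ ≤ S}
  add_mem' := by
    rintro f g ⟨h1, h2⟩ ⟨h3, h4⟩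
    exact ⟨(degreeOf_add_le _ _ _).trans (max_le h1 h3),
      fun j => (degreeOf_add_le _ _ _).trans (max_le (h2 j) (h4 j))⟩
  zero_mem' := by
    refine ⟨?_, fun j => ?_⟩
    · rw [degreeOf_zero]
      exact Nat.zero_le _
    · rw [degreeOf_zero]
      exact Nat.zero_le _
  neg_mem' := by
    rintro f ⟨h1, h2⟩
    refine ⟨?_, fun j => ?_⟩
    · rw [degreeOf_neg]
      exact h1
    · rw [degreeOf_neg]
      exact h2 j

private theorem alg_main_totalDegree {σ : Type} [Fintype σ] {k : ℕ} (E : MvPolynomial σ ℤ)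
    (h : ∀ i, E.degreeOf i ≤ k) :
    (map (Int.castRingHom ℚ) E).totalDegree ≤ Fintype.card σ * k := by
  refine Finset.sup_le fun m hm => ?_
  have hm' : m ∈ E.support := by
    rw [mem_support_iff] at hm ⊢
    intro h0
    apply hm
    rw [coeff_map, h0, map_zero]
  rw [Finsupp.sum_fintype _ _ fun _ => rfl]
  calc ∑ i, m i ≤ ∑ _i : σ, k :=
        Finset.sum_le_sum fun i _ => (monomial_le_degreeOf i hm').trans (h i)
    _ = Fintype.card σ * k := by rw [Finset.sum_const, Finset.card_univ, smul_eq_mul]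

private theorem alg_main_aeval {σ τ : Type} (f : σ → MvPolynomial τ ℤ) (E : MvPolynomial σ ℤ) :
    aeval (fun i => map (Int.castRingHom ℚ) (f i)) (map (Int.castRingHom ℚ) E) =
      map (Int.castRingHom ℚ) (aeval f E) := by
  induction E using MvPolynomial.induction_on with
  | C a => simp
  | add p q hp hq => rw [map_add, map_add, map_add, map_add, hp, hq]
  | mul_X p i hp => rw [map_mul, map_mul, map_mul, map_mul, hp, map_X, aeval_X, aeval_X]

private theorem alg_main_u {n S : ℕ} (hS : 1 ≤ S) (i : Fin (n + 1)) :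
    (Fin.snoc (fun j : Fin n => X j.succ) 0 : Fin (n + 1) → MvPolynomial (Fin (n + 1)) ℤ) i ∈
      VV n S := by
  refine Fin.lastCases ?_ (fun j => ?_) i
  · rw [Fin.snoc_last]
    exact (VV n S).zero_mem
  · rw [Fin.snoc_castSucc]
    refine ⟨?_, fun l => ?_⟩
    · rw [degreeOf_X]
      split_ifs <;> omega
    · rw [degreeOf_X]
      split_ifs <;> omega

private theorem alg_main_rename0 {n : ℕ} (Q : MvPolynomial (Fin n) ℤ) :
    (rename Fin.succ Q).degreeOf 0 = 0 := by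
  classical
  refine Nat.le_zero.1 ((degreeOf_le_iff).2 fun m hm => ?_)
  obtain ⟨u, hu, -⟩ := coeff_rename_ne_zero Fin.succ Q m (mem_support_iff.1 hm)
  rw [← hu]
  refine le_of_eq (Finsupp.mapDomain_notin_range _ _ ?_)
  rintro ⟨j, hj⟩
  exact Fin.succ_ne_zero j hj

private theorem alg_main_v {n S : ℕ} (hS : 1 ≤ S) (Q : MvPolynomial (Fin n) ℤ)
    (hdeg : Q.totalDegree ≤ S) : X 0 * rename Fin.succ Q ∈ VV n S := by
  refine ⟨?_, fun l => ?_⟩
  · refine (degreeOf_mul_le _ _ _).trans ?_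
    rw [alg_main_rename0, degreeOf_X]
    split_ifs <;> omega
  · refine (degreeOf_mul_le _ _ _).trans ?_
    rw [degreeOf_rename_of_injective (Fin.succ_injective n), degreeOf_X,
      if_neg (Fin.succ_ne_zero l), zero_add]
    exact (degreeOf_le_totalDegree Q l).trans hdeg

/-- PROOF. `noether_linear` over `ℚ`: `R = MvPolynomial (Fin (n + 1)) ℚ`, `k = n + 1`, `V` the image of
`VV n S` under `map (Int.castRingHom ℚ)`, `D = (n + 2) * DD n S`; `hrel` is `rel` (with
`H = max 1 (sum of the lengths)`), `E.totalDegree ≤ ∑ degreeOf ≤ (n + 2) DD`. `u = Fin.snoc y 0`,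
`v j = z * Q j`. `X 0 = z = ∑ A i * (z * Q i)` by `nullst` and `X j.succ = u j` are in
`adjoin ℚ (range u ∪ range v)`, so integral over `adjoin ℚ (range w)`. `alg_ind`,
`AlgebraicIndependent` over `ℤ` by injectivity of `map`; `clear` for `x = X 0`. -/
theorem alg_main (n S M : ℕ) (hS : 1 ≤ S) (Q : Fin M → MvPolynomial (Fin n) ℤ)
    (hdeg : ∀ i, (Q i).totalDegree ≤ S) (h : ∀ x : Fin n → ℂ, ∃ i, aeval x (Q i) ≠ 0) :
    ∃ γ : Fin (n + 1) → Fin M → ℕ, (∀ i j, γ i j ≤ (n + 2) * DD n S) ∧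
      AlgebraicIndependent ℤ (wv Q γ) ∧
      ∃ (m : Polynomial (MvPolynomial (Fin (n + 1)) ℤ)) (b : ℤ), b ≠ 0 ∧ m.leadingCoeff = C b ∧
        Polynomial.eval₂ (aeval (wv Q γ) :
          MvPolynomial (Fin (n + 1)) ℤ →ₐ[ℤ] MvPolynomial (Fin (n + 1)) ℤ).toRingHom
          (X 0) m = 0 := by
  classical
  have hinj : Function.Injective (map (σ := Fin (n + 1)) (Int.castRingHom ℚ)) :=
    map_injective _ Int.cast_injective
  have hrel : ∀ f : Fin (n + 1 + 1) → MvPolynomial (Fin (n + 1)) ℚ,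
      (∀ i, f i ∈ (VV n S).map (map (σ := Fin (n + 1)) (Int.castRingHom ℚ)).toAddMonoidHom) →
      ∃ E : MvPolynomial (Fin (n + 1 + 1)) ℚ, E ≠ 0 ∧ E.totalDegree ≤ (n + 2) * DD n S ∧
        aeval f E = 0 := by
    intro f hf
    choose g hg hgf using fun i => AddSubgroup.mem_map.1 (hf i)
    have hlen : ∀ i, 0 ≤ len (g i) := fun i => by
      unfold len
      exact Finset.sum_nonneg fun _ _ => by positivity
    obtain ⟨E, h1, h2, -, h4⟩ := rel n S hS g (fun i => (hg i).1) (fun i => (hg i).2)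
      (1 + ∑ i, len (g i)) (by
        have := Finset.sum_nonneg fun i (_ : i ∈ Finset.univ) => hlen i
        linarith) (fun i => by
        have := Finset.single_le_sum (fun i _ => hlen i) (Finset.mem_univ i)
        linarith)
    refine ⟨map (Int.castRingHom ℚ) E, ?_, ?_, ?_⟩
    · intro h0
      apply h1
      apply map_injective (Int.castRingHom ℚ) Int.cast_injective
      rw [h0, map_zero]
    · have h5 := alg_main_totalDegree E h2
      rwa [Fintype.card_fin] at h5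
    · have h5 : f = fun i => map (Int.castRingHom ℚ) (g i) := by
        funext i
        exact (hgf i).symm
      rw [h5, alg_main_aeval, h4, map_zero]
  obtain ⟨γ, hγ, hint⟩ := noether_linear _ hrel M
    (fun i => map (Int.castRingHom ℚ)
      ((Fin.snoc (fun j : Fin n => X j.succ) 0 : Fin (n + 1) → MvPolynomial (Fin (n + 1)) ℤ) i))
    (fun j => map (Int.castRingHom ℚ) (X 0 * rename Fin.succ (Q j)))
    (fun i => AddSubgroup.mem_map.2 ⟨_, alg_main_u hS i, rfl⟩)
    (fun j => AddSubgroup.mem_map.2 ⟨_, alg_main_v hS (Q j) (hdeg j), rfl⟩)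
  have hw : (fun i => map (Int.castRingHom ℚ)
      ((Fin.snoc (fun j : Fin n => X j.succ) 0 : Fin (n + 1) → MvPolynomial (Fin (n + 1)) ℤ) i) -
        ∑ j, (γ i j : MvPolynomial (Fin (n + 1)) ℚ) *
          map (Int.castRingHom ℚ) (X 0 * rename Fin.succ (Q j))) =
      fun i => map (Int.castRingHom ℚ) (wv Q γ i) := by
    funext i
    unfold wv
    rw [map_sub, map_sum]
    congr 1
    refine Finset.sum_congr rfl fun j _ => ?_
    rw [map_mul (map (Int.castRingHom ℚ)) (γ i j : MvPolynomial (Fin (n + 1)) ℤ), map_natCast]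
  rw [hw] at hint
  have hmono : Algebra.adjoin ℚ (Set.range fun j : Fin n =>
      (X j.succ : MvPolynomial (Fin (n + 1)) ℚ)) ≤
      Algebra.adjoin ℚ ((Set.range fun i => map (Int.castRingHom ℚ)
        ((Fin.snoc (fun j : Fin n => X j.succ) 0 :
          Fin (n + 1) → MvPolynomial (Fin (n + 1)) ℤ) i)) ∪
        Set.range fun j => map (Int.castRingHom ℚ) (X 0 * rename Fin.succ (Q j))) := by
    refine Algebra.adjoin_mono ?_
    rintro _ ⟨j, rfl⟩
    left
    refine ⟨j.castSucc, ?_⟩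
    simp only [Fin.snoc_castSucc, map_X]
  have hXs : ∀ j : Fin n, (X j.succ : MvPolynomial (Fin (n + 1)) ℚ) ∈
      Algebra.adjoin ℚ ((Set.range fun i => map (Int.castRingHom ℚ)
        ((Fin.snoc (fun j : Fin n => X j.succ) 0 :
          Fin (n + 1) → MvPolynomial (Fin (n + 1)) ℤ) i)) ∪
        Set.range fun j => map (Int.castRingHom ℚ) (X 0 * rename Fin.succ (Q j))) :=
    fun j => hmono (Algebra.subset_adjoin ⟨j, rfl⟩)
  have hX0 : (X 0 : MvPolynomial (Fin (n + 1)) ℚ) ∈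
      Algebra.adjoin ℚ ((Set.range fun i => map (Int.castRingHom ℚ)
        ((Fin.snoc (fun j : Fin n => X j.succ) 0 :
          Fin (n + 1) → MvPolynomial (Fin (n + 1)) ℤ) i)) ∪
        Set.range fun j => map (Int.castRingHom ℚ) (X 0 * rename Fin.succ (Q j))) := by
    obtain ⟨A, hA⟩ := nullst Q h
    have h1 : (X 0 : MvPolynomial (Fin (n + 1)) ℚ) =
        ∑ i, rename Fin.succ (A i) *
          map (Int.castRingHom ℚ) (X 0 * rename Fin.succ (Q i)) := by
      have h2 := congrArg (rename (Fin.succ : Fin n → Fin (n + 1))) hA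
      rw [map_sum, map_one] at h2
      calc (X 0 : MvPolynomial (Fin (n + 1)) ℚ) = X 0 * 1 := (mul_one _).symm
        _ = X 0 * ∑ i, rename Fin.succ (A i * map (Int.castRingHom ℚ) (Q i)) := by rw [h2]
        _ = _ := by
          rw [Finset.mul_sum]
          refine Finset.sum_congr rfl fun i _ => ?_
          rw [map_mul (rename (Fin.succ : Fin n → Fin (n + 1))),
            map_mul (map (Int.castRingHom ℚ)), map_X, map_rename]
          ring
    rw [h1]
    refine Subalgebra.sum_mem _ fun i _ => Subalgebra.mul_mem _ ?_ ?_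
    · apply hmono
      rw [Algebra.adjoin_range_eq_range_aeval]
      refine ⟨A i, ?_⟩
      have h3 : (aeval fun j : Fin n => (X j.succ : MvPolynomial (Fin (n + 1)) ℚ)) =
          rename Fin.succ := by
        apply algHom_ext
        intro j
        rw [aeval_X, rename_X]
      show (aeval fun j : Fin n => (X j.succ : MvPolynomial (Fin (n + 1)) ℚ)) (A i) = _
      rw [h3]
    · exact Algebra.subset_adjoin (Or.inr ⟨i, rfl⟩)
  have hXint : ∀ i : Fin (n + 1), IsIntegral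
      (Algebra.adjoin ℚ (Set.range fun i => map (Int.castRingHom ℚ) (wv Q γ i)))
      (X i : MvPolynomial (Fin (n + 1)) ℚ) := by
    intro i
    refine Fin.cases ?_ (fun j => ?_) i
    · exact hint _ hX0
    · exact hint _ (hXs j)
  have hind := alg_ind _ hXint
  refine ⟨γ, hγ, ?_, ?_⟩
  · rw [algebraicIndependent_iff]
    intro p hp
    have h1 := (algebraicIndependent_iff.1 hind) (map (Int.castRingHom ℚ) p) (by
      rw [alg_main_aeval, hp, map_zero])
    apply hinj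
    rw [h1, map_zero]
  · refine clear (wv Q γ) (X 0) ?_
    rw [map_X]
    exact hXint 0

private theorem wv_deg_ren {n : ℕ} (q : MvPolynomial (Fin n) ℤ) :
    (rename Fin.succ q : MvPolynomial (Fin (n + 1)) ℤ).degreeOf 0 = 0 := by
  classical
  rw [degreeOf_def, degrees_rename_of_injective (Fin.succ_injective n), Multiset.count_eq_zero,
    Multiset.mem_map]
  rintro ⟨j, -, hj⟩
  exact Fin.succ_ne_zero j hj

theorem wv_deg {n S M : ℕ} (hS : 1 ≤ S) (Q : Fin M → MvPolynomial (Fin n) ℤ)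
    (hdeg : ∀ i, (Q i).totalDegree ≤ S) (γ : Fin (n + 1) → Fin M → ℕ) (i : Fin (n + 1)) :
    wv Q γ i ∈ VV n S := by
  classical
  unfold wv
  refine AddSubgroup.sub_mem _ ?_ (AddSubgroup.sum_mem _ fun j _ => ?_)
  · refine Fin.lastCases ?_ (fun j => ?_) i
    · rw [Fin.snoc_last]
      exact AddSubgroup.zero_mem _
    · rw [Fin.snoc_castSucc]
      refine ⟨?_, fun k => ?_⟩
      · rw [degreeOf_X, if_neg (Fin.succ_ne_zero j).symm]
        exact Nat.zero_le _
      · rw [degreeOf_X]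
        split_ifs
        · exact hS
        · exact Nat.zero_le _
  · rw [← nsmul_eq_mul]
    refine AddSubgroup.nsmul_mem _ ?_ _
    refine ⟨?_, fun k => ?_⟩
    · refine (degreeOf_mul_le _ _ _).trans ?_
      rw [wv_deg_ren, degreeOf_X, if_pos rfl]
    · refine (degreeOf_mul_le _ _ _).trans ?_
      rw [degreeOf_X, if_neg (Fin.succ_ne_zero k), zero_add,
        degreeOf_rename_of_injective (Fin.succ_injective n)]
      exact (degreeOf_le_totalDegree _ _).trans (hdeg j)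

theorem wv_len {n M : ℕ} (Q : Fin M → MvPolynomial (Fin n) ℤ) (γ : Fin (n + 1) → Fin M → ℕ)
    (g : ℕ) (hγ : ∀ i j, γ i j ≤ g) (L : ℝ) (hL : ∀ i, len (Q i) ≤ L) (i : Fin (n + 1)) :
    len (wv Q γ i) ≤ 1 + M * g * L := by
  unfold wv
  have h1 : len ((Fin.snoc (fun j : Fin n => X j.succ) 0 :
      Fin (n + 1) → MvPolynomial (Fin (n + 1)) ℤ) i) ≤ 1 := by
    refine Fin.lastCases ?_ (fun j => ?_) i
    · rw [Fin.snoc_last, isNm_len.zero]
      norm_num
    · rw [Fin.snoc_castSucc, len_X]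
  have h2 : ∀ j : Fin M, len ((γ i j : MvPolynomial (Fin (n + 1)) ℤ) *
      (X 0 * rename Fin.succ (Q j))) ≤ g * L := by
    intro j
    have h3 : len ((γ i j : ℕ) : MvPolynomial (Fin (n + 1)) ℤ) = (γ i j : ℝ) := by
      have h4 := len_C (σ := Fin (n + 1)) (γ i j : ℤ)
      rw [map_natCast] at h4
      rw [h4]
      simp
    have h5 : len (rename Fin.succ (Q j) : MvPolynomial (Fin (n + 1)) ℤ) = len (Q j) := by
      classical
      unfold len
      rw [support_rename_of_injective (Fin.succ_injective n),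
        Finset.sum_image fun a _ b _ hab =>
          Finsupp.mapDomain_injective (Fin.succ_injective n) hab]
      refine Finset.sum_congr rfl fun m _ => ?_
      rw [coeff_rename_mapDomain _ (Fin.succ_injective n)]
    calc len ((γ i j : MvPolynomial (Fin (n + 1)) ℤ) * (X 0 * rename Fin.succ (Q j)))
        ≤ len ((γ i j : ℕ) : MvPolynomial (Fin (n + 1)) ℤ) *
            len (X 0 * rename Fin.succ (Q j) : MvPolynomial (Fin (n + 1)) ℤ) :=
          isNm_len.mul _ _
      _ ≤ len ((γ i j : ℕ) : MvPolynomial (Fin (n + 1)) ℤ) *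
            (len (X 0 : MvPolynomial (Fin (n + 1)) ℤ) *
              len (rename Fin.succ (Q j) : MvPolynomial (Fin (n + 1)) ℤ)) :=
          mul_le_mul_of_nonneg_left (isNm_len.mul _ _) (len_nonneg _)
      _ = (γ i j : ℝ) * len (Q j) := by rw [h3, h5, len_X, one_mul]
      _ ≤ (g : ℝ) * L := by
          have h6 : (γ i j : ℝ) ≤ g := by exact_mod_cast hγ i j
          exact mul_le_mul h6 (hL j) (len_nonneg _) (by positivity)
  have h7 : len (∑ j, (γ i j : MvPolynomial (Fin (n + 1)) ℤ) * (X 0 * rename Fin.succ (Q j))) ≤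
      M * g * L := by
    refine (len_sum _ _).trans ((Finset.sum_le_sum fun j _ => h2 j).trans ?_)
    rw [Finset.sum_const, Finset.card_univ, Fintype.card_fin, nsmul_eq_mul, mul_assoc]
  rw [sub_eq_add_neg]
  refine (len_add _ _).trans ?_
  rw [isNm_len.neg]
  exact add_le_add h1 h7

private theorem exists_E_hom {n M : ℕ} (Q : Fin M → MvPolynomial (Fin n) ℤ)
    (γ : Fin (n + 1) → Fin M → ℕ) (E : MvPolynomial (Fin (n + 2)) ℤ) :
    aeval (Fin.cons (X 0) (wv Q γ) : Fin (n + 2) → MvPolynomial (Fin (n + 1)) ℤ) E =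
      Polynomial.eval₂RingHom (aeval (wv Q γ) :
          MvPolynomial (Fin (n + 1)) ℤ →ₐ[ℤ] MvPolynomial (Fin (n + 1)) ℤ).toRingHom
          (X 0) (finSuccEquiv ℤ (n + 1) E) := by
  have h : (aeval (Fin.cons (X 0) (wv Q γ) : Fin (n + 2) → MvPolynomial (Fin (n + 1)) ℤ) :
      MvPolynomial (Fin (n + 2)) ℤ →ₐ[ℤ] MvPolynomial (Fin (n + 1)) ℤ).toRingHom =
      (Polynomial.eval₂RingHom (aeval (wv Q γ) :
          MvPolynomial (Fin (n + 1)) ℤ →ₐ[ℤ] MvPolynomial (Fin (n + 1)) ℤ).toRingHom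
          (X 0)).comp (finSuccEquiv ℤ (n + 1)).toRingEquiv.toRingHom := by
    refine MvPolynomial.ringHom_ext (fun r => ?_) (fun i => ?_)
    · have h1 : (C r : MvPolynomial (Fin (n + 2)) ℤ) = ((r : ℤ) : MvPolynomial (Fin (n + 2)) ℤ) := by
        simp
      rw [h1, map_intCast, map_intCast]
    · refine Fin.cases ?_ (fun j => ?_) i
      · change aeval (Fin.cons (X 0) (wv Q γ) : Fin (n + 2) → MvPolynomial (Fin (n + 1)) ℤ) (X 0) =
          Polynomial.eval₂ _ (X 0) (finSuccEquiv ℤ (n + 1) (X 0))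
        rw [finSuccEquiv_X_zero, Polynomial.eval₂_X, aeval_X, Fin.cons_zero]
      · change aeval (Fin.cons (X 0) (wv Q γ) : Fin (n + 2) → MvPolynomial (Fin (n + 1)) ℤ)
            (X j.succ) = Polynomial.eval₂ _ (X 0) (finSuccEquiv ℤ (n + 1) (X j.succ))
        rw [finSuccEquiv_X_succ, Polynomial.eval₂_C, aeval_X, Fin.cons_succ]
        exact (aeval_X (wv Q γ) j).symm
  exact RingHom.congr_fun h E

/-- PROOF. `alg_main`: `γ`, `m`, `b`. `rel` for `Fin.cons (X 0) (wv Q γ)` with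
`H = 1 + M g L`, `g = (n + 2) DD`: `E0`. `A = MvPolynomial (Fin (n + 1)) ℤ`,
`φ = eval₂RingHom (aeval (wv Q γ)) (X 0)`; `common_factor` for `m` and `finSuccEquiv ℤ (n + 1) E0`:
`e`; `E = (finSuccEquiv ..).symm e`, `E0 = E * G`. The leading coefficient of `e` divides `C b`, so it
is a constant (`totalDegree_mul`-type argument). -/
theorem exists_E (n S M : ℕ) (hS : 1 ≤ S) (Q : Fin M → MvPolynomial (Fin n) ℤ)
    (hdeg : ∀ i, (Q i).totalDegree ≤ S) (L : ℝ) (hL1 : 0 ≤ L) (hL : ∀ i, len (Q i) ≤ L)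
    (h : ∀ x : Fin n → ℂ, ∃ i, aeval x (Q i) ≠ 0) :
    ∃ (γ : Fin (n + 1) → Fin M → ℕ) (E G : MvPolynomial (Fin (n + 2)) ℤ) (a : ℤ),
      (∀ i j, γ i j ≤ (n + 2) * DD n S) ∧ E * G ≠ 0 ∧
      (∀ i, (E * G).degreeOf i ≤ DD n S) ∧
      (∀ m, |(((E * G).coeff m : ℤ) : ℝ)| ≤ ((DD n S : ℝ) + 1) ^ (n + 2) *
        (1 + M * ((n + 2) * DD n S) * L) ^ ((n + 2) * DD n S)) ∧
      aeval (Fin.cons (X 0) (wv Q γ) : Fin (n + 2) → MvPolynomial (Fin (n + 1)) ℤ) E = 0 ∧
      a ≠ 0 ∧ (finSuccEquiv ℤ (n + 1) E).leadingCoeff = C a := by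
  obtain ⟨γ, hγ, hind, m, b, hb, hlead, hm0⟩ := alg_main n S M hS Q hdeg h
  have hf0 : ∀ i, ((Fin.cons (X 0) (wv Q γ) : Fin (n + 2) → MvPolynomial (Fin (n + 1)) ℤ)
      i).degreeOf 0 ≤ 1 := by
    intro i
    refine Fin.cases ?_ (fun j => ?_) i
    · rw [Fin.cons_zero, degreeOf_X_self]
    · rw [Fin.cons_succ]
      exact (wv_deg hS Q hdeg γ j).1
  have hf1 : ∀ i (j : Fin n), ((Fin.cons (X 0) (wv Q γ) :
      Fin (n + 2) → MvPolynomial (Fin (n + 1)) ℤ) i).degreeOf j.succ ≤ S := by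
    intro i j
    refine Fin.cases ?_ (fun l => ?_) i
    · rw [Fin.cons_zero, degreeOf_X_of_ne (Fin.succ_ne_zero j)]
      exact Nat.zero_le _
    · rw [Fin.cons_succ]
      exact (wv_deg hS Q hdeg γ l).2 j
  have hH : (1 : ℝ) ≤ 1 + M * ((n + 2) * DD n S) * L := by
    have : (0 : ℝ) ≤ M * ((n + 2) * DD n S) * L := by positivity
    linarith
  have hlen : ∀ i, len ((Fin.cons (X 0) (wv Q γ) :
      Fin (n + 2) → MvPolynomial (Fin (n + 1)) ℤ) i) ≤ 1 + M * ((n + 2) * DD n S) * L := by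
    intro i
    refine Fin.cases ?_ (fun j => ?_) i
    · rw [Fin.cons_zero, len_X]
      exact hH
    · rw [Fin.cons_succ]
      have h1 := wv_len Q γ _ hγ L hL j
      push_cast at h1
      exact h1
  obtain ⟨E0, hE0, hEd, hEc, hEa⟩ := rel n S hS _ hf0 hf1 _ hH hlen
  have hm : m ≠ 0 := by
    rintro rfl
    rw [Polynomial.leadingCoeff_zero] at hlead
    exact hb (C_injective _ _ (hlead.symm.trans (map_zero _).symm))
  have hq : finSuccEquiv ℤ (n + 1) E0 ≠ 0 := by
    intro h0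
    exact hE0 ((finSuccEquiv ℤ (n + 1)).injective (h0.trans (map_zero _).symm))
  obtain ⟨e, he0, ⟨m', hm'⟩, ⟨G', hG'⟩⟩ := common_factor
    (Polynomial.eval₂RingHom (aeval (wv Q γ) :
          MvPolynomial (Fin (n + 1)) ℤ →ₐ[ℤ] MvPolynomial (Fin (n + 1)) ℤ).toRingHom
          (X 0)) (by
      intro a ha
      rw [Polynomial.coe_eval₂RingHom, Polynomial.eval₂_C] at ha
      exact (injective_iff_map_eq_zero _).1 hind a ha) m (finSuccEquiv ℤ (n + 1) E0) hm hq
    hm0 (by rw [← exists_E_hom, hEa])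
  have hEG : (finSuccEquiv ℤ (n + 1)).symm e * (finSuccEquiv ℤ (n + 1)).symm G' = E0 := by
    rw [← map_mul, ← hG', AlgEquiv.symm_apply_apply]
  have hlc : e.leadingCoeff * m'.leadingCoeff = C b := by
    rw [← Polynomial.leadingCoeff_mul, ← hm', hlead]
  have hCb : (C b : MvPolynomial (Fin (n + 1)) ℤ) ≠ 0 := by
    intro h0
    exact hb (C_injective _ _ (h0.trans (map_zero _).symm))
  have hne1 : e.leadingCoeff ≠ 0 := by
    intro h0
    rw [h0, zero_mul] at hlc
    exact hCb hlc.symm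
  have hne2 : m'.leadingCoeff ≠ 0 := by
    intro h0
    rw [h0, mul_zero] at hlc
    exact hCb hlc.symm
  have htd : e.leadingCoeff.totalDegree = 0 := by
    have h1 := totalDegree_mul_of_isDomain hne1 hne2
    rw [hlc, totalDegree_C] at h1
    omega
  refine ⟨γ, (finSuccEquiv ℤ (n + 1)).symm e, (finSuccEquiv ℤ (n + 1)).symm G',
    coeff 0 e.leadingCoeff, hγ, ?_, ?_, ?_, ?_, ?_, ?_⟩
  · rw [hEG]
    exact hE0
  · rw [hEG]
    exact hEd
  · rw [hEG]
    exact hEc
  · rw [exists_E_hom, AlgEquiv.apply_symm_apply]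
    exact he0
  · intro h0
    apply hne1
    rw [totalDegree_eq_zero_iff_eq_C.1 htd, h0, map_zero]
  · rw [AlgEquiv.apply_symm_apply]
    exact totalDegree_eq_zero_iff_eq_C.1 htd

end

end Pool.Agent.Helper29.CN
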