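import Pool.Agent.Helper14.LC.Nm

/-!
# Project CN: bounds for the factors of integer polynomials, by values on a grid
-/

namespace Pool.Agent.Helper29.CN

open MvPolynomial Pool.Agent.Helper14.LC

noncomputable section

/-- PROOF. `P = ∏ s ∈ {0..D}^k, G (X + s)` (`aeval (fun i => X i + C (s i)) G`, not zero: it is an
automorphism) has degrees at most `D * (D + 1) ^ k`;
`MvPolynomial.eq_zero_of_eval_zero_at_prod_finset` with the sets `{0, .., D * (D + 1) ^ k}`. -/
theorem exists_grid {k D : ℕ} (G : MvPolynomial (Fin k) ℤ) (hG : G ≠ 0)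
    (hD : ∀ i, G.degreeOf i ≤ D) :
    ∃ a : Fin k → ℕ, (∀ i, a i ≤ D * (D + 1) ^ k) ∧
      ∀ s : Fin k → ℕ, (∀ i, s i ≤ D) → eval (fun i => ((a i + s i : ℕ) : ℤ)) G ≠ 0 := by
  classical
  obtain ⟨sh, hsh⟩ : ∃ sh : (Fin k → Fin (D + 1)) → MvPolynomial (Fin k) ℤ →ₐ[ℤ]
      MvPolynomial (Fin k) ℤ, sh = fun s => aeval fun i => X i + C ((s i : ℕ) : ℤ) := ⟨_, rfl⟩
  have hev : ∀ (s : Fin k → Fin (D + 1)) (a : Fin k → ℤ),
      eval a (sh s G) = eval (fun i => a i + ((s i : ℕ) : ℤ)) G := by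
    intro s a
    have h1 : (eval a).comp (sh s : MvPolynomial (Fin k) ℤ →ₐ[ℤ] MvPolynomial (Fin k) ℤ).toRingHom =
        eval (fun i => a i + ((s i : ℕ) : ℤ)) := by
      apply ringHom_ext
      · intro c
        simp
      · intro i
        simp [hsh]
    exact RingHom.congr_fun h1 G
  have hne : ∀ s, sh s G ≠ 0 := by
    intro s h0
    apply hG
    refine MvPolynomial.funext fun x => ?_
    have h1 := hev s (fun i => x i - ((s i : ℕ) : ℤ))
    rw [h0, map_zero] at h1
    rw [map_zero, h1]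
    congr 2
    funext i
    ring
  have hdeg : ∀ s i, (sh s G).degreeOf i ≤ D := by
    intro s i
    rw [hsh]
    show (aeval (fun i => X i + C ((s i : ℕ) : ℤ)) G).degreeOf i ≤ D
    have h1 : ∀ j, (X j + C ((s j : ℕ) : ℤ) : MvPolynomial (Fin k) ℤ).degreeOf i ≤
        if i = j then 1 else 0 := by
      intro j
      refine (degreeOf_add_le _ _ _).trans ?_
      rw [degreeOf_X, degreeOf_C]
      simp
    rw [aeval_def, eval₂_eq']
    refine (degreeOf_sum_le _ _ _).trans (Finset.sup_le fun m hm => ?_)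
    rw [MvPolynomial.algebraMap_eq]
    refine (degreeOf_C_mul_le _ _ _).trans ((degreeOf_prod_le _ _ _).trans ?_)
    calc ∑ j, ((X j + C ((s j : ℕ) : ℤ)) ^ m j : MvPolynomial (Fin k) ℤ).degreeOf i
        ≤ ∑ j, m j * (if i = j then 1 else 0) := by
          refine Finset.sum_le_sum fun j _ => (degreeOf_pow_le _ _ _).trans ?_
          exact Nat.mul_le_mul_left _ (h1 j)
      _ = m i := by simp
      _ ≤ D := (monomial_le_degreeOf i hm).trans (hD i)
  obtain ⟨P, hP⟩ : ∃ P, P = ∏ s : Fin k → Fin (D + 1), sh s G := ⟨_, rfl⟩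
  have hP0 : P ≠ 0 := by
    rw [hP]
    exact Finset.prod_ne_zero_iff.2 fun s _ => hne s
  have hPd : ∀ i, P.degreeOf i ≤ D * (D + 1) ^ k := by
    intro i
    rw [hP]
    refine (degreeOf_prod_le _ _ _).trans ?_
    refine (Finset.sum_le_sum fun s _ => hdeg s i).trans (le_of_eq ?_)
    rw [Finset.sum_const, Finset.card_univ, Fintype.card_fun, Fintype.card_fin, Fintype.card_fin,
      smul_eq_mul, mul_comm]
  by_contra hcon
  push Not at hcon
  apply hP0
  refine eq_zero_of_eval_zero_at_prod_finset P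
    (fun _ => (Finset.range (D * (D + 1) ^ k + 1)).image (Nat.cast : ℕ → ℤ)) (fun i => ?_)
    (fun x hx => ?_)
  · rw [Finset.card_image_of_injective _ Nat.cast_injective, Finset.card_range]
    exact Nat.lt_succ_of_le (hPd i)
  · have h1 : ∀ i, ∃ n : ℕ, n ≤ D * (D + 1) ^ k ∧ (n : ℤ) = x i := by
      intro i
      obtain ⟨n, hn, hnx⟩ := Finset.mem_image.1 (hx i)
      exact ⟨n, Nat.lt_succ_iff.1 (Finset.mem_range.1 hn), hnx⟩
    choose a ha hax using h1
    obtain ⟨s, hs, h0⟩ := hcon a ha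
    rw [hP, map_prod]
    refine Finset.prod_eq_zero (Finset.mem_univ fun i => ⟨s i, Nat.lt_succ_iff.2 (hs i)⟩) ?_
    rw [hev, ← h0]
    congr 2
    funext i
    rw [← hax i]
    push_cast
    rfl

/-- PROOF. Lagrange interpolation at the nodes `a + s`, `s ≤ D` (`Lagrange.sum_basis`,
`Lagrange.eq_interpolate_of_eval_eq`): the basis polynomial of `s` at `x` is a product of `D` factors
`(x - (a + t)) / (s - t)`, each of absolute value at most `R + a + D`. -/
theorem lag1 (D a : ℕ) (p : Polynomial ℂ) (hp : p.natDegree ≤ D) (B R : ℝ) (hR : 0 ≤ R)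
    (h : ∀ s : ℕ, s ≤ D → ‖p.eval ((a + s : ℕ) : ℂ)‖ ≤ B) (x : ℂ) (hx : ‖x‖ ≤ R) :
    ‖p.eval x‖ ≤ (D + 1) * (R + a + D) ^ D * B := by
  have hB : 0 ≤ B := (norm_nonneg _).trans (h 0 (Nat.zero_le D))
  obtain ⟨v, hv⟩ : ∃ v : ℕ → ℂ, v = fun s => ((a + s : ℕ) : ℂ) := ⟨_, rfl⟩
  have hinj : Set.InjOn v (Finset.range (D + 1) : Set ℕ) := by
    intro i _ j _ hij
    rw [hv] at hij
    have h1 : a + i = a + j := Nat.cast_injective hij
    omega
  have hdeg : p.degree < (Finset.range (D + 1)).card := by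
    rw [Finset.card_range]
    refine lt_of_le_of_lt p.degree_le_natDegree ?_
    exact_mod_cast Nat.lt_succ_of_le hp
  have hT : 0 ≤ R + a + D := by positivity
  have hbas : ∀ i ∈ Finset.range (D + 1),
      ‖(Lagrange.basis (Finset.range (D + 1)) v i).eval x‖ ≤ (R + a + D) ^ D := by
    intro i hi
    unfold Lagrange.basis
    rw [Polynomial.eval_prod, norm_prod]
    have h1 : ∀ j ∈ (Finset.range (D + 1)).erase i,
        ‖(Lagrange.basisDivisor (v i) (v j)).eval x‖ ≤ R + a + D := by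
      intro j hj
      rw [Finset.mem_erase, Finset.mem_range] at hj
      unfold Lagrange.basisDivisor
      rw [Polynomial.eval_mul, Polynomial.eval_C, Polynomial.eval_sub, Polynomial.eval_X,
        Polynomial.eval_C, norm_mul, norm_inv]
      have h2 : 1 ≤ ‖v i - v j‖ := by
        have h3 : v i - v j = (((i : ℤ) - (j : ℤ) : ℤ) : ℂ) := by
          rw [hv]
          push_cast
          ring
        rw [h3, Complex.norm_intCast]
        have h4 : (1 : ℤ) ≤ |(i : ℤ) - (j : ℤ)| := by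
          refine Int.one_le_abs (sub_ne_zero.2 ?_)
          exact fun h5 => hj.1 (by exact_mod_cast h5.symm)
        exact_mod_cast h4
      have h3 : ‖x - v j‖ ≤ R + a + D := by
        refine (norm_sub_le _ _).trans ?_
        have h4 : ‖v j‖ ≤ a + D := by
          rw [hv]
          change ‖((a + j : ℕ) : ℂ)‖ ≤ a + D
          rw [Complex.norm_natCast, Nat.cast_add]
          have h5 : (j : ℝ) ≤ D := by exact_mod_cast Nat.lt_succ_iff.1 hj.2
          linarith
        linarith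
      calc ‖v i - v j‖⁻¹ * ‖x - v j‖ ≤ 1 * (R + a + D) :=
            mul_le_mul (inv_le_one_of_one_le₀ h2) h3 (norm_nonneg _) zero_le_one
        _ = R + a + D := one_mul _
    refine (Finset.prod_le_prod (fun j _ => norm_nonneg _) h1).trans (le_of_eq ?_)
    rw [Finset.prod_const, Finset.card_erase_of_mem hi, Finset.card_range, Nat.add_sub_cancel]
  rw [Lagrange.eq_interpolate hinj hdeg, Lagrange.interpolate_apply, Polynomial.eval_finsetSum]
  refine (norm_sum_le _ _).trans ?_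
  have h2 : ∀ i ∈ Finset.range (D + 1), ‖(Polynomial.C (p.eval (v i)) *
      Lagrange.basis (Finset.range (D + 1)) v i).eval x‖ ≤ (R + a + D) ^ D * B := by
    intro i hi
    rw [Polynomial.eval_mul, Polynomial.eval_C, norm_mul, mul_comm]
    refine mul_le_mul (hbas i hi) ?_ (norm_nonneg _) (pow_nonneg hT D)
    rw [hv]
    exact h i (Nat.lt_succ_iff.1 (Finset.mem_range.1 hi))
  refine (Finset.sum_le_sum h2).trans (le_of_eq ?_)
  rw [Finset.sum_const, Finset.card_range, nsmul_eq_mul, Nat.cast_add, Nat.cast_one, mul_assoc]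

/-- The polynomial in one variable `j` of a polynomial in several variables. -/
private theorem lagk_var {k : ℕ} (E : MvPolynomial (Fin k) ℂ) (j : Fin k) (x : Fin k → ℂ) :
    ∃ p : Polynomial ℂ, p.natDegree ≤ E.degreeOf j ∧
      ∀ t : ℂ, p.eval t = eval (Function.update x j t) E := by
  classical
  refine ⟨∑ m ∈ E.support, Polynomial.C (E.coeff m * ∏ i ∈ Finset.univ.erase j, x i ^ m i) *
    Polynomial.X ^ (m j), ?_, ?_⟩
  · refine Polynomial.natDegree_sum_le_of_forall_le _ _ (fun m hm => ?_)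
    exact (Polynomial.natDegree_C_mul_X_pow_le _ _).trans (monomial_le_degreeOf j hm)
  · intro t
    rw [Polynomial.eval_finsetSum, eval_eq']
    refine Finset.sum_congr rfl (fun m _ => ?_)
    rw [← Finset.mul_prod_erase Finset.univ _ (Finset.mem_univ j), Function.update_self]
    have h1 : ∏ i ∈ Finset.univ.erase j, (Function.update x j t i) ^ m i =
        ∏ i ∈ Finset.univ.erase j, x i ^ m i := by
      refine Finset.prod_congr rfl (fun i hi => ?_)
      rw [Function.update_of_ne (Finset.ne_of_mem_erase hi)]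
    rw [h1]
    simp only [Polynomial.eval_mul, Polynomial.eval_C, Polynomial.eval_pow, Polynomial.eval_X]
    ring

/-- PROOF. By induction on `j ≤ k`: for all `x` such that `‖x i‖ ≤ R` for `i < j` and
`x i = a i + s i` with `s i ≤ D` for `i ≥ j`, the bound holds with exponent `j`. The step: `lag1` for
the polynomial in the variable `j` (`Polynomial` with value `eval (Function.update x j t) E` at `t`,
of degree at most `degreeOf j E`). -/
theorem lagk {k D T : ℕ} (E : MvPolynomial (Fin k) ℂ) (hE : ∀ i, E.degreeOf i ≤ D)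
    (a : Fin k → ℕ) (ha : ∀ i, a i + D ≤ T) (B R : ℝ) (hR : 1 ≤ R)
    (h : ∀ s : Fin k → ℕ, (∀ i, s i ≤ D) → ‖eval (fun i => ((a i + s i : ℕ) : ℂ)) E‖ ≤ B)
    (x : Fin k → ℂ) (hx : ∀ i, ‖x i‖ ≤ R) :
    ‖eval x E‖ ≤ ((D + 1) * (R + T) ^ D) ^ k * B := by
  have hB : 0 ≤ B := (norm_nonneg _).trans (h (fun _ => 0) (fun _ => Nat.zero_le _))
  have hC : (0 : ℝ) ≤ (D + 1) * (R + T) ^ D := by positivity
  have main : ∀ j : ℕ, j ≤ k → ∀ y : Fin k → ℂ, (∀ i : Fin k, (i : ℕ) < j → ‖y i‖ ≤ R) →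
      (∀ i : Fin k, j ≤ (i : ℕ) → ∃ s : ℕ, s ≤ D ∧ y i = ((a i + s : ℕ) : ℂ)) →
      ‖eval y E‖ ≤ ((D + 1) * (R + T) ^ D) ^ j * B := by
    intro j
    induction j with
    | zero =>
      intro _ y _ hy
      choose s hs hs' using fun i : Fin k => hy i (Nat.zero_le _)
      have h1 : y = fun i => ((a i + s i : ℕ) : ℂ) := funext hs'
      rw [h1, pow_zero, one_mul]
      exact h s hs
    | succ j ih =>
      intro hj y hy1 hy2
      obtain ⟨p, hp, hpe⟩ := lagk_var E ⟨j, hj⟩ y
      have h1 : ∀ s : ℕ, s ≤ D → ‖p.eval ((a ⟨j, hj⟩ + s : ℕ) : ℂ)‖ ≤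
          ((D + 1) * (R + T) ^ D) ^ j * B := by
        intro s hs
        rw [hpe]
        refine ih (Nat.le_of_succ_le hj) _ ?_ ?_
        · intro i hi
          have hne : i ≠ ⟨j, hj⟩ := fun h' => by
            rw [h'] at hi
            exact lt_irrefl _ hi
          rw [Function.update_of_ne hne]
          exact hy1 i (Nat.lt_succ_of_lt hi)
        · intro i hi
          by_cases hne : i = ⟨j, hj⟩
          · subst hne
            exact ⟨s, hs, by rw [Function.update_self]⟩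
          · rw [Function.update_of_ne hne]
            refine hy2 i ?_
            rcases Nat.lt_or_ge j i with h2 | h2
            · exact h2
            · exact absurd (Fin.ext (le_antisymm h2 hi)) hne
      have h2 := lag1 D (a ⟨j, hj⟩) p (hp.trans (hE _)) _ R (by linarith) h1 (y ⟨j, hj⟩)
        (hy1 ⟨j, hj⟩ (Nat.lt_succ_self j))
      rw [hpe, Function.update_eq_self] at h2
      refine h2.trans ?_
      have h3 : (R + (a ⟨j, hj⟩ : ℝ) + D) ^ D ≤ (R + T) ^ D := by
        refine pow_le_pow_left₀ (by positivity) ?_ D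
        have : ((a ⟨j, hj⟩ + D : ℕ) : ℝ) ≤ (T : ℝ) := by exact_mod_cast ha ⟨j, hj⟩
        push_cast at this
        linarith
      have h4 : ((D : ℝ) + 1) * (R + (a ⟨j, hj⟩ : ℝ) + D) ^ D ≤ (D + 1) * (R + T) ^ D :=
        mul_le_mul_of_nonneg_left h3 (by positivity)
      calc ((D : ℝ) + 1) * (R + (a ⟨j, hj⟩ : ℝ) + D) ^ D * (((D + 1) * (R + T) ^ D) ^ j * B)
          ≤ (D + 1) * (R + T) ^ D * (((D + 1) * (R + T) ^ D) ^ j * B) :=
            mul_le_mul_of_nonneg_right h4 (mul_nonneg (pow_nonneg hC _) hB)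
        _ = ((D + 1) * (R + T) ^ D) ^ (j + 1) * B := by ring
  exact main k le_rfl x (fun i _ => hx i) (fun i hi => absurd i.isLt (not_lt.2 hi))

/-- PROOF. `E0 = E * G` has at most `(D + 1) ^ k` monomials, each of size at most `T ^ (k D)` at
points with coordinates in `{0, .., T}`. -/
theorem val_grid {k D T : ℕ} (E0 : MvPolynomial (Fin k) ℤ) (hD : ∀ i, E0.degreeOf i ≤ D)
    (H : ℝ) (hH : ∀ m, |((E0.coeff m : ℤ) : ℝ)| ≤ H) (x : Fin k → ℕ) (hT : 1 ≤ T)
    (hx : ∀ i, x i ≤ T) :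
    |((eval (fun i => (x i : ℤ)) E0 : ℤ) : ℝ)| ≤ (D + 1) ^ k * H * (T : ℝ) ^ (k * D) := by
  classical
  have hH0 : 0 ≤ H := (abs_nonneg _).trans (hH 0)
  have hT1 : (1 : ℝ) ≤ T := by exact_mod_cast hT
  have hcard : (E0.support.card : ℝ) ≤ ((D : ℝ) + 1) ^ k := by
    have h1 : E0.support.card ≤ (Fintype.piFinset fun _ : Fin k => Finset.range (D + 1)).card := by
      refine Finset.card_le_card_of_injOn (fun m => (m : Fin k → ℕ)) ?_ ?_
      · intro m hm
        rw [Finset.mem_coe, Fintype.mem_piFinset]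
        intro i
        rw [Finset.mem_range]
        exact Nat.lt_succ_of_le ((monomial_le_degreeOf i hm).trans (hD i))
      · intro a _ b _ hab
        exact DFunLike.coe_injective hab
    have h2 : (Fintype.piFinset fun _ : Fin k => Finset.range (D + 1)).card = (D + 1) ^ k := by
      simp [Fintype.card_piFinset]
    rw [h2] at h1
    exact_mod_cast h1
  rw [eval_eq', Int.cast_sum]
  refine (Finset.abs_sum_le_sum_abs _ _).trans ?_
  have hterm : ∀ m ∈ E0.support,
      |((E0.coeff m * ∏ i, (x i : ℤ) ^ m i : ℤ) : ℝ)| ≤ H * (T : ℝ) ^ (k * D) := by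
    intro m hm
    push_cast
    rw [abs_mul, Finset.abs_prod]
    refine mul_le_mul (hH m) ?_ (by positivity) hH0
    calc ∏ i, |(x i : ℝ) ^ m i| ≤ ∏ _i : Fin k, (T : ℝ) ^ D := by
          refine Finset.prod_le_prod (fun i _ => abs_nonneg _) fun i _ => ?_
          rw [abs_pow, abs_of_nonneg (by positivity)]
          calc (x i : ℝ) ^ m i ≤ (T : ℝ) ^ m i :=
                pow_le_pow_left₀ (by positivity) (by exact_mod_cast hx i) _
            _ ≤ (T : ℝ) ^ D :=
                pow_le_pow_right₀ hT1 ((monomial_le_degreeOf i hm).trans (hD i))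
      _ = (T : ℝ) ^ (k * D) := by
          rw [Finset.prod_const, Finset.card_univ, Fintype.card_fin, ← pow_mul, mul_comm D k]
  refine (Finset.sum_le_sum hterm).trans ?_
  rw [Finset.sum_const, nsmul_eq_mul, ← mul_assoc]
  refine mul_le_mul_of_nonneg_right ?_ (by positivity)
  exact mul_le_mul_of_nonneg_right hcard hH0

/-- PROOF. `degreeOf` is additive for products of nonzero polynomials over a domain
(`degreeOf_mul_eq`), so `E`, `G` have degrees at most `D`. `exists_grid` for `G`, with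
`T = D * (D + 1) ^ k + D + 1`; at the grid points `|E| ≤ |E| |G| = |E * G|`, `val_grid`; `lagk`. -/
theorem sup_bound {k D : ℕ} (E G : MvPolynomial (Fin k) ℤ) (h0 : E * G ≠ 0)
    (hD : ∀ i, (E * G).degreeOf i ≤ D) (H : ℝ) (hH : ∀ m, |(((E * G).coeff m : ℤ) : ℝ)| ≤ H)
    (R : ℝ) (hR : 1 ≤ R) (x : Fin k → ℂ) (hx : ∀ i, ‖x i‖ ≤ R) :
    ‖aeval x E‖ ≤ ((D + 1) * (R + (D * (D + 1) ^ k + D + 1 : ℕ)) ^ D) ^ k *
      ((D + 1) ^ k * H * ((D * (D + 1) ^ k + D + 1 : ℕ) : ℝ) ^ (k * D)) := by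
  have hE : E ≠ 0 := left_ne_zero_of_mul h0
  have hG : G ≠ 0 := right_ne_zero_of_mul h0
  have hdeg : ∀ i, E.degreeOf i + G.degreeOf i ≤ D := fun i => by
    rw [← degreeOf_mul_eq hE hG]
    exact hD i
  obtain ⟨a, ha, hav⟩ := exists_grid G hG (fun i => (Nat.le_add_left _ _).trans (hdeg i))
  obtain ⟨T, hT⟩ : ∃ T : ℕ, T = D * (D + 1) ^ k + D + 1 := ⟨_, rfl⟩
  rw [← hT]
  have hT1 : 1 ≤ T := by omega
  have haT : ∀ i, a i + D ≤ T := fun i => by
    have := ha i
    omega
  obtain ⟨E', hE'⟩ : ∃ E' : MvPolynomial (Fin k) ℂ, E' = map (Int.castRingHom ℂ) E := ⟨_, rfl⟩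
  have hE'd : ∀ i, E'.degreeOf i ≤ D := by
    intro i
    rw [degreeOf_le_iff]
    intro m hm
    have h1 : m ∈ E.support := by
      rw [hE'] at hm
      exact support_map_subset _ _ hm
    exact (monomial_le_degreeOf i h1).trans ((Nat.le_add_right _ _).trans (hdeg i))
  have hval : ∀ y : Fin k → ℂ, eval y E' = aeval y E := by
    intro y
    rw [hE', eval_map, aeval_def]
    rfl
  rw [← hval]
  refine lagk E' hE'd a haT _ R hR ?_ x hx
  intro s hs
  have h1 : eval (fun i => ((a i + s i : ℕ) : ℂ)) E' =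
      ((eval (fun i => ((a i + s i : ℕ) : ℤ)) E : ℤ) : ℂ) := by
    have h := eval₂_comp_left (Int.castRingHom ℂ) (RingHom.id ℤ)
      (fun i => ((a i + s i : ℕ) : ℤ)) E
    rw [RingHom.comp_id] at h
    rw [hval, aeval_def]
    refine Eq.trans ?_ h.symm
    have h' : (fun i => ((a i + s i : ℕ) : ℂ)) =
        (⇑(Int.castRingHom ℂ) ∘ fun i => ((a i + s i : ℕ) : ℤ)) := by
      funext i
      simp
    rw [h']
    rfl
  rw [h1, Complex.norm_intCast]
  have h2 := val_grid (E * G) hD H hH (fun i => a i + s i) hT1 (fun i => by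
    have := haT i
    have := hs i
    omega)
  refine le_trans ?_ h2
  have h3 : eval (fun i => ((a i + s i : ℕ) : ℤ)) G ≠ 0 := hav s hs
  have h4 : (1 : ℤ) ≤ |eval (fun i => ((a i + s i : ℕ) : ℤ)) G| := Int.one_le_abs h3
  have h5 : (1 : ℝ) ≤ |((eval (fun i => ((a i + s i : ℕ) : ℤ)) G : ℤ) : ℝ)| := by
    rw [← Int.cast_abs]
    exact_mod_cast h4
  rw [map_mul, Int.cast_mul, abs_mul]
  exact le_mul_of_one_le_right (abs_nonneg _) h5

/-- PROOF. Let `d = p.natDegree`, `N = d + 1`. The average of `p (w) w ^ (-d)` over the `N`-th roots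
of unity `w` is the leading coefficient. -/
theorem lc_le (p : Polynomial ℂ) (h : 1 ≤ ‖p.leadingCoeff‖) :
    ∃ z : ℂ, ‖z‖ ≤ 1 ∧ 1 ≤ ‖p.eval z‖ := by
  obtain ⟨z, hz, hmax⟩ := Complex.exists_mem_frontier_isMaxOn_norm (U := Metric.ball (0 : ℂ) 1)
    (f := fun z => p.reverse.eval z) Metric.isBounded_ball ⟨0, Metric.mem_ball_self one_pos⟩
    (Polynomial.differentiable _).diffContOnCl
  rw [frontier_ball (0 : ℂ) one_ne_zero, mem_sphere_zero_iff_norm] at hz
  have h0 : (0 : ℂ) ∈ closure (Metric.ball (0 : ℂ) 1) :=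
    subset_closure (Metric.mem_ball_self one_pos)
  have h1 : ‖p.reverse.eval 0‖ ≤ ‖p.reverse.eval z‖ := hmax h0
  have h2 : p.reverse.eval 0 = p.leadingCoeff := by
    rw [← Polynomial.coeff_zero_eq_eval_zero, Polynomial.coeff_zero_reverse]
  rw [h2] at h1
  have hz0 : z ≠ 0 := by
    intro h3
    rw [h3, norm_zero] at hz
    exact zero_ne_one hz
  have hi : Invertible z⁻¹ := invertibleOfNonzero (inv_ne_zero hz0)
  have h3 := Polynomial.eval₂_reverse_mul_pow (RingHom.id ℂ) (z⁻¹) p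
  rw [invOf_eq_inv, inv_inv, Polynomial.eval₂_id, Polynomial.eval₂_id] at h3
  refine ⟨z⁻¹, by rw [norm_inv, hz, inv_one], ?_⟩
  rw [← h3, norm_mul, norm_pow, norm_inv, hz, inv_one, one_pow, mul_one]
  exact h.trans h1

/-- PROOF. Schwarz lemma, or the Cauchy estimate for the derivative on `‖s‖ ≤ 1/2` (for `η ≥ 1/2` use
the triangle inequality). -/
theorem schw (F : ℂ → ℂ) (hF : Differentiable ℂ F) (B : ℝ) (h : ∀ s, ‖s‖ ≤ 1 → ‖F s‖ ≤ B)
    (η : ℝ) (h0 : 0 ≤ η) (h1 : η ≤ 1) : ‖F η - F 0‖ ≤ 4 * B * η := by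
  have hB : 0 ≤ B := (norm_nonneg _).trans (h 0 (by rw [norm_zero]; exact zero_le_one))
  have hd : ∀ s : ℂ, ‖s‖ ≤ 1 → ‖F s - F 0‖ ≤ 2 * B := by
    intro s hs
    have h2 := h s hs
    have h3 := h 0 (by rw [norm_zero]; exact zero_le_one)
    have h4 := norm_sub_le (F s) (F 0)
    linarith
  have hn : ‖(η : ℂ)‖ = η := by rw [Complex.norm_real, Real.norm_of_nonneg h0]
  rcases eq_or_lt_of_le hB with hB0 | hB0
  · have h2 := hd η (by rw [hn]; exact h1)
    rw [← hB0] at h2 ⊢
    simpa using h2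
  · rcases eq_or_lt_of_le h1 with h1' | h1'
    · have h2 := hd η (by rw [hn]; exact h1)
      rw [h1'] at h2 ⊢
      linarith
    · have h2 := Complex.dist_le_div_mul_dist_of_mapsTo_ball (f := F) (c := 0) (R₁ := 1)
        (R₂ := 4 * B) (z := (η : ℂ)) hF.differentiableOn (by
          intro s hs
          rw [mem_ball_zero_iff] at hs
          rw [Metric.mem_closedBall, dist_eq_norm]
          have h3 := hd s hs.le
          linarith) (by rw [mem_ball_zero_iff, hn]; exact h1')
      rw [dist_eq_norm, dist_eq_norm, sub_zero, hn, div_one] at h2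
      exact h2

end

end Pool.Agent.Helper29.CN
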