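import Pool.Agent.Helper29.CN.B
import Pool.Agent.Helper29.CN.G

/-!
# Project CN: the criterion for polynomials without common zero
-/

namespace Pool.Agent.Helper29.CN

open MvPolynomial Pool.Agent.Helper14.LC

noncomputable section

/-- the bound of `sup_bound` for `k = n + 2`, `D = DD n S` and the heights of `exists_E` -/
def BB (n S M : ℕ) (R : ℝ) : ℝ :=
  ((DD n S + 1) * (R + (DD n S * (DD n S + 1) ^ (n + 2) + DD n S + 1 : ℕ)) ^ DD n S) ^ (n + 2) *
    ((DD n S + 1) ^ (n + 2) * (((DD n S : ℝ) + 1) ^ (n + 2) *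
        (1 + M * ((n + 2) * DD n S) * Real.exp S) ^ ((n + 2) * DD n S)) *
      ((DD n S * (DD n S + 1) ^ (n + 2) + DD n S + 1 : ℕ) : ℝ) ^ ((n + 2) * DD n S))

private def est_PB (n a : ℕ) (f : ℕ → ℕ → ℝ) : Prop :=
  ∃ K : ℝ, 0 ≤ K ∧ ∀ S M : ℕ, 1 ≤ S → M ≤ (S + 1) ^ n →
    0 ≤ f S M ∧ f S M ≤ Real.exp (K * (S : ℝ) ^ a)

private theorem est_const {n a : ℕ} (c : ℝ) (hc : 0 ≤ c) : est_PB n a fun _ _ => c := by
  refine ⟨c, hc, fun S M hS _ => ⟨hc, ?_⟩⟩
  have h1 : (1 : ℝ) ≤ (S : ℝ) ^ a := one_le_pow₀ (by exact_mod_cast hS)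
  have h2 : c ≤ c * (S : ℝ) ^ a := le_mul_of_one_le_right hc h1
  have h3 := Real.add_one_le_exp (c * (S : ℝ) ^ a)
  linarith

private theorem est_mul {n a : ℕ} {f g : ℕ → ℕ → ℝ} (hf : est_PB n a f) (hg : est_PB n a g) :
    est_PB n a fun S M => f S M * g S M := by
  obtain ⟨K, hK, h⟩ := hf
  obtain ⟨L, hL, h'⟩ := hg
  refine ⟨K + L, by positivity, fun S M hS hM => ?_⟩
  obtain ⟨h1, h2⟩ := h S M hS hM
  obtain ⟨h3, h4⟩ := h' S M hS hM
  refine ⟨mul_nonneg h1 h3, ?_⟩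
  rw [add_mul, Real.exp_add]
  exact mul_le_mul h2 h4 h3 (Real.exp_pos _).le

private theorem est_add {n a : ℕ} {f g : ℕ → ℕ → ℝ} (hf : est_PB n a f) (hg : est_PB n a g) :
    est_PB n a fun S M => f S M + g S M := by
  obtain ⟨K, hK, h⟩ := hf
  obtain ⟨L, hL, h'⟩ := hg
  refine ⟨K + L + 1, by positivity, fun S M hS hM => ?_⟩
  obtain ⟨h1, h2⟩ := h S M hS hM
  obtain ⟨h3, h4⟩ := h' S M hS hM
  refine ⟨add_nonneg h1 h3, ?_⟩
  have hp : (1 : ℝ) ≤ (S : ℝ) ^ a := one_le_pow₀ (by exact_mod_cast hS)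
  have e1 : Real.exp (K * (S : ℝ) ^ a) ≤ Real.exp ((K + L) * (S : ℝ) ^ a) :=
    Real.exp_le_exp.2 (by nlinarith)
  have e2 : Real.exp (L * (S : ℝ) ^ a) ≤ Real.exp ((K + L) * (S : ℝ) ^ a) :=
    Real.exp_le_exp.2 (by nlinarith)
  have e3 : (2 : ℝ) ≤ Real.exp (1 * (S : ℝ) ^ a) := by
    have := Real.add_one_le_exp (1 * (S : ℝ) ^ a)
    linarith
  calc f S M + g S M ≤ 2 * Real.exp ((K + L) * (S : ℝ) ^ a) := by linarith
    _ ≤ Real.exp (1 * (S : ℝ) ^ a) * Real.exp ((K + L) * (S : ℝ) ^ a) :=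
        mul_le_mul_of_nonneg_right e3 (Real.exp_pos _).le
    _ = Real.exp ((K + L + 1) * (S : ℝ) ^ a) := by rw [← Real.exp_add]; congr 1; ring

private theorem est_pow {n a : ℕ} {f : ℕ → ℕ → ℝ} (hf : est_PB n a f) (k : ℕ) :
    est_PB n a fun S M => f S M ^ k := by
  induction k with
  | zero => simpa using est_const (n := n) (a := a) 1 zero_le_one
  | succ k ih => simpa only [pow_succ] using est_mul ih hf

private theorem est_mono {n a b : ℕ} (hab : a ≤ b) {f : ℕ → ℕ → ℝ} (hf : est_PB n a f) :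
    est_PB n b f := by
  obtain ⟨K, hK, h⟩ := hf
  refine ⟨K, hK, fun S M hS hM => ⟨(h S M hS hM).1, (h S M hS hM).2.trans ?_⟩⟩
  refine Real.exp_le_exp.2 (mul_le_mul_of_nonneg_left ?_ hK)
  exact pow_le_pow_right₀ (by exact_mod_cast hS) hab

private theorem est_S (n : ℕ) : est_PB n 1 fun S _ => (S : ℝ) := by
  refine ⟨1, zero_le_one, fun S M hS _ => ⟨by positivity, ?_⟩⟩
  have := Real.add_one_le_exp (1 * (S : ℝ) ^ 1)
  rw [one_mul, pow_one] at this ⊢
  linarith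

private theorem est_M (n : ℕ) : est_PB n 1 fun _ M => (M : ℝ) := by
  obtain ⟨K, hK, h⟩ := est_pow (est_add (est_S n) (est_const 1 zero_le_one)) n
  refine ⟨K, hK, fun S M hS hM => ⟨by positivity, ?_⟩⟩
  have h1 : (M : ℝ) ≤ ((S : ℝ) + 1) ^ n := by exact_mod_cast hM
  exact h1.trans (h S M hS hM).2

private theorem est_DD (n : ℕ) : est_PB n 1 fun S _ => (DD n S : ℝ) := by
  have h := est_mul (est_const (n := n) (a := 1) (2 * ((n : ℝ) + 2) ^ (n + 1)) (by positivity))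
    (est_pow (est_S n) n)
  have h2 : (fun S _ => (DD n S : ℝ)) =
      (fun S _ : ℕ => 2 * ((n : ℝ) + 2) ^ (n + 1) * (S : ℝ) ^ n) := by
    funext S _
    simp only [DD]
    push_cast
    ring
  rw [h2]
  exact h

private theorem est_exp (n : ℕ) : est_PB n 1 fun S _ => Real.exp (S : ℝ) :=
  ⟨1, zero_le_one, fun S M _ _ => ⟨(Real.exp_pos _).le, by rw [one_mul, pow_one]⟩⟩

private theorem est_powDD (n c : ℕ) {f : ℕ → ℕ → ℝ} (hf : est_PB n 1 f) :
    est_PB n (n + 1) fun S M => f S M ^ (c * DD n S) := by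
  obtain ⟨K, hK, h⟩ := hf
  refine ⟨K * (c * (2 * ((n : ℝ) + 2) ^ (n + 1))), by positivity, fun S M hS hM => ?_⟩
  obtain ⟨h1, h2⟩ := h S M hS hM
  refine ⟨pow_nonneg h1 _, ?_⟩
  refine (pow_le_pow_left₀ h1 h2 _).trans (le_of_eq ?_)
  rw [← Real.exp_nat_mul]
  congr 1
  simp only [DD]
  push_cast
  ring

/-- PROOF. `DD n S ≤ c S ^ n`. The numbers `DD + 1`, `T = DD (DD + 1) ^ (n + 2) + DD + 1`, `R + T`,
`1 + M (n + 2) DD exp S`, `4 M (n + 2) DD` are bounded by polynomials in `S` (times `exp S`), so by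
`exp (c S)` for all `S ≥ 1` (`x ^ m ≤ m! exp x`). So the left side is at most
`exp (c S (c' + c' DD)) ≤ exp (K S ^ (n + 1))`. -/
theorem est (n : ℕ) (R : ℝ) (hR : 1 ≤ R) : ∃ K : ℝ, 0 ≤ K ∧ ∀ S M : ℕ, 1 ≤ S →
    M ≤ (S + 1) ^ n →
      4 * (M * ((n + 2) * DD n S)) * BB n S M R ≤ Real.exp (K * (S : ℝ) ^ (n + 1)) ∧
      (M : ℝ) * ((n + 2) * DD n S) ≤ Real.exp (K * (S : ℝ) ^ (n + 1)) := by
  have hc : ∀ {a : ℕ} (c : ℝ), 0 ≤ c → est_PB n a fun _ _ => c := fun c h => est_const c h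
  have hD1 : est_PB n 1 fun S _ => (DD n S : ℝ) + 1 := est_add (est_DD n) (hc 1 zero_le_one)
  have hT : est_PB n 1 fun S _ => (DD n S : ℝ) * ((DD n S : ℝ) + 1) ^ (n + 2) + DD n S + 1 :=
    est_add (est_add (est_mul (est_DD n) (est_pow hD1 _)) (est_DD n)) (hc 1 zero_le_one)
  have hX : est_PB n 1 fun S M => (M : ℝ) * (((n : ℝ) + 2) * DD n S) :=
    est_mul (est_M n) (est_mul (hc ((n : ℝ) + 2) (by positivity)) (est_DD n))
  have hY : est_PB n 1 fun S M => 1 + (M : ℝ) * (((n : ℝ) + 2) * DD n S) * Real.exp S :=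
    est_add (hc 1 zero_le_one) (est_mul hX (est_exp n))
  have hRT : est_PB n 1 fun S _ =>
      R + ((DD n S : ℝ) * ((DD n S : ℝ) + 1) ^ (n + 2) + DD n S + 1) :=
    est_add (hc R (by linarith)) hT
  have h1n : 1 ≤ n + 1 := by omega
  have hB : est_PB n (n + 1) fun S M => BB n S M R := by
    have hRD : est_PB n (n + 1) fun S _ =>
        (R + ((DD n S : ℝ) * ((DD n S : ℝ) + 1) ^ (n + 2) + DD n S + 1)) ^ (DD n S) := by
      simpa only [one_mul] using est_powDD n 1 hRT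
    have h := est_mul (est_pow (est_mul (est_mono h1n hD1) hRD) (n + 2))
      (est_mul (est_mul (est_pow (est_mono h1n hD1) (n + 2))
        (est_mul (est_pow (est_mono h1n hD1) (n + 2)) (est_powDD n (n + 2) hY)))
        (est_powDD n (n + 2) hT))
    obtain ⟨K, hK, h⟩ := h
    refine ⟨K, hK, fun S M hS hM => ?_⟩
    have h1 := h S M hS hM
    simp only [BB]
    push_cast
    exact h1
  obtain ⟨K, hK, h⟩ := est_mul (est_mul (hc 4 (by norm_num)) (est_mono h1n hX)) hB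
  obtain ⟨L, hL, h'⟩ := est_mono h1n hX
  refine ⟨K + L, by positivity, fun S M hS hM => ⟨?_, ?_⟩⟩
  · refine (h S M hS hM).2.trans (Real.exp_le_exp.2 ?_)
    exact mul_le_mul_of_nonneg_right (by linarith) (by positivity)
  · refine (h' S M hS hM).2.trans (Real.exp_le_exp.2 ?_)
    exact mul_le_mul_of_nonneg_right (by linarith) (by positivity)

private def fam_idx {n S : ℕ} (α : Fin n → Fin (S + 1)) : Fin n →₀ ℕ :=
  Finsupp.equivFunOnFinite.symm (fun i => (α i : ℕ))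

private theorem fam_eval {n S : ℕ} (x : Fin n → ℂ) (Q : MvPolynomial (Fin n) ℤ)
    (hQ : Q.totalDegree ≤ S) :
    aeval x Q = ∑ α : Fin n → Fin (S + 1), ((coeff (fam_idx α) Q : ℤ) : ℂ) *
      ∏ i, x i ^ (α i : ℕ) := by
  classical
  have hinj : Function.Injective (fam_idx : (Fin n → Fin (S + 1)) → Fin n →₀ ℕ) := by
    intro α β h
    funext i
    have h1 := DFunLike.congr_fun h i
    exact Fin.ext h1
  have h1 : ∑ α : Fin n → Fin (S + 1), ((coeff (fam_idx α) Q : ℤ) : ℂ) *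
      ∏ i, x i ^ (α i : ℕ) =
      ∑ m ∈ Finset.univ.image (fam_idx : (Fin n → Fin (S + 1)) → Fin n →₀ ℕ),
        ((coeff m Q : ℤ) : ℂ) * ∏ i, x i ^ (m i) := by
    rw [Finset.sum_image (fun a _ b _ h => hinj h)]
    rfl
  rw [h1, aeval_def, eval₂_eq']
  refine Finset.sum_subset ?_ ?_
  · intro m hm
    rw [Finset.mem_image]
    have h2 : ∀ i, m i < S + 1 := by
      intro i
      have h3 := le_totalDegree hm
      have h4 : m i ≤ m.sum fun _ e => e := by
        rw [Finsupp.sum_fintype _ _ (fun _ => rfl)]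
        exact Finset.single_le_sum (f := fun i => m i) (fun _ _ => Nat.zero_le _)
          (Finset.mem_univ i)
      omega
    refine ⟨fun i => ⟨m i, h2 i⟩, Finset.mem_univ _, ?_⟩
    ext i
    rfl
  · intro m _ hm
    rw [notMem_support_iff] at hm
    rw [hm]
    simp

/-- PROOF. Consider the images in `MvPolynomial (Fin n) ℂ` of the `Q` with `P Q`; they are in the
finite dimensional space of the polynomials of total degree at most `S`, of dimension at most
`(S + 1) ^ n`. There is a linearly independent subset with the same span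
(`exists_linearIndependent`), so with at most `(S + 1) ^ n` elements; enumerate it. If it had a
common zero `x` then all elements of the span would vanish at `x`. -/
theorem fam (n S : ℕ) (P : MvPolynomial (Fin n) ℤ → Prop) (hP : ∀ Q, P Q → Q.totalDegree ≤ S)
    (h : ∀ x : Fin n → ℂ, ∃ Q, P Q ∧ aeval x Q ≠ 0) :
    ∃ (M : ℕ) (Q : Fin M → MvPolynomial (Fin n) ℤ), M ≤ (S + 1) ^ n ∧ (∀ i, P (Q i)) ∧
      ∀ x : Fin n → ℂ, ∃ i, aeval x (Q i) ≠ 0 := by
  classical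
  let v : MvPolynomial (Fin n) ℤ → ((Fin n → Fin (S + 1)) → ℂ) :=
    fun Q α => ((coeff (fam_idx α) Q : ℤ) : ℂ)
  obtain ⟨b, hbs, hspan, hli⟩ := exists_linearIndependent ℂ (v '' {Q | P Q})
  have hfin : Finite b := hli.finite
  have hft : Fintype b := Fintype.ofFinite b
  have hcard : Fintype.card b ≤ (S + 1) ^ n := by
    have h1 := hli.fintype_card_le_finrank
    rw [Module.finrank_fintype_fun_eq_card, Fintype.card_fun, Fintype.card_fin,
      Fintype.card_fin] at h1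
    exact h1
  let e : Fin (Fintype.card b) ≃ b := (Fintype.equivFin b).symm
  have hch : ∀ i, ∃ Q, P Q ∧ v Q = (e i : (Fin n → Fin (S + 1)) → ℂ) := fun i => hbs (e i).2
  choose Q hQP hQv using hch
  refine ⟨Fintype.card b, Q, hcard, hQP, fun x => ?_⟩
  by_contra hcon
  push Not at hcon
  let L : ((Fin n → Fin (S + 1)) → ℂ) →ₗ[ℂ] ℂ :=
    ∑ α : Fin n → Fin (S + 1), (∏ i, x i ^ (α i : ℕ)) • LinearMap.proj α
  have hL : ∀ Q, P Q → L (v Q) = aeval x Q := by
    intro Q hQ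
    rw [fam_eval x Q (hP Q hQ)]
    simp only [L, LinearMap.sum_apply, LinearMap.smul_apply, LinearMap.proj_apply, smul_eq_mul]
    exact Finset.sum_congr rfl fun α _ => mul_comm _ _
  have hb0 : b ⊆ LinearMap.ker L := by
    intro y hy
    have h1 : y = v (Q (e.symm ⟨y, hy⟩)) := by
      rw [hQv, Equiv.apply_symm_apply]
    rw [SetLike.mem_coe, LinearMap.mem_ker, h1, hL _ (hQP _)]
    exact hcon _
  obtain ⟨Q0, hQ0, hne⟩ := h x
  apply hne
  rw [← hL Q0 hQ0]
  have h2 : v Q0 ∈ Submodule.span ℂ b := by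
    rw [hspan]
    exact Submodule.subset_span ⟨Q0, hQ0, rfl⟩
  exact (Submodule.span_le.mpr hb0) h2

theorem core (n : ℕ) (θ : Fin n → ℂ) : ∃ K : ℝ, 0 ≤ K ∧ ∀ S : ℕ, 1 ≤ S →
    ∀ (M : ℕ) (Q : Fin M → MvPolynomial (Fin n) ℤ), M ≤ (S + 1) ^ n →
      (∀ i, (Q i).totalDegree ≤ S) → (∀ i, len (Q i) ≤ Real.exp S) →
      (∀ x : Fin n → ℂ, ∃ i, aeval x (Q i) ≠ 0) →
      ∀ ε : ℝ, 0 ≤ ε → (∀ i, ‖aeval θ (Q i)‖ ≤ ε) →
        1 ≤ ε * Real.exp (K * (S : ℝ) ^ (n + 1)) := by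
  classical
  obtain ⟨R, hR1, hRθ⟩ : ∃ R : ℝ, 1 ≤ R ∧ ∀ i, ‖θ i‖ + 1 ≤ R := by
    have h1 : (0 : ℝ) ≤ ∑ i, ‖θ i‖ := Finset.sum_nonneg fun i _ => norm_nonneg _
    refine ⟨1 + ∑ i, ‖θ i‖, by linarith, fun i => ?_⟩
    have := Finset.single_le_sum (f := fun i => ‖θ i‖) (fun i _ => norm_nonneg _)
      (Finset.mem_univ i)
    linarith
  obtain ⟨K, hK, hest⟩ := est n R hR1
  refine ⟨K, hK, ?_⟩
  intro S hS M Q hM hdeg hlen hz ε hε hQε
  obtain ⟨γ, E, G, a, hγ, h0, hD, hH, hE, ha, hlc⟩ :=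
    exists_E n S M hS Q hdeg (Real.exp S) (Real.exp_pos _).le hlen hz
  obtain ⟨he1, he2⟩ := hest S M hS hM
  let q : Fin (n + 1) → ℂ := fun i => ∑ j, (γ i j : ℂ) * aeval θ (Q j)
  let W : Fin (n + 1) → ℂ := Fin.snoc θ 0
  obtain ⟨g, hg⟩ : ∃ g : ℝ, g = (M : ℝ) * ((n + 2) * DD n S) := ⟨_, rfl⟩
  have hg0 : 0 ≤ g := by rw [hg]; positivity
  rw [← hg] at he2
  have hq : ∀ i, ‖q i‖ ≤ g * ε := by
    intro i
    calc ‖q i‖ ≤ ∑ j : Fin M, ‖(γ i j : ℂ) * aeval θ (Q j)‖ := norm_sum_le _ _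
      _ ≤ ∑ _j : Fin M, ((n + 2) * DD n S : ℝ) * ε := by
          refine Finset.sum_le_sum fun j _ => ?_
          rw [norm_mul, Complex.norm_natCast]
          refine mul_le_mul ?_ (hQε j) (norm_nonneg _) (by positivity)
          exact_mod_cast hγ i j
      _ = g * ε := by
          rw [Finset.sum_const, Finset.card_univ, Fintype.card_fin, nsmul_eq_mul, hg]
          ring
  -- evaluation at `θ`
  have hev : ∀ z : ℂ, aeval (Fin.cons z (fun i => W i - z * q i) : Fin (n + 2) → ℂ) E = 0 := by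
    intro z
    let y : Fin (n + 1) → ℂ := Fin.cons z θ
    have h1 := congrArg (aeval y) hE
    rw [map_zero] at h1
    have h2 : (aeval y : MvPolynomial (Fin (n + 1)) ℤ →ₐ[ℤ] ℂ).comp
        (aeval (Fin.cons (X 0) (wv Q γ) : Fin (n + 2) → MvPolynomial (Fin (n + 1)) ℤ)) =
        aeval (Fin.cons z (fun i => W i - z * q i) : Fin (n + 2) → ℂ) := by
      apply algHom_ext
      intro k
      rw [AlgHom.comp_apply, aeval_X, aeval_X]
      refine Fin.cases ?_ (fun i => ?_) k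
      · rw [Fin.cons_zero, Fin.cons_zero, aeval_X]
        rfl
      · rw [Fin.cons_succ, Fin.cons_succ]
        unfold wv
        rw [map_sub, map_sum]
        congr 1
        · refine Fin.lastCases ?_ (fun j => ?_) i
          · rw [Fin.snoc_last, map_zero]
            show (0 : ℂ) = (Fin.snoc θ 0 : Fin (n + 1) → ℂ) (Fin.last n)
            rw [Fin.snoc_last]
          · rw [Fin.snoc_castSucc, aeval_X]
            show y j.succ = (Fin.snoc θ 0 : Fin (n + 1) → ℂ) j.castSucc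
            rw [Fin.snoc_castSucc]
            rfl
        · show _ = z * ∑ j, (γ i j : ℂ) * aeval θ (Q j)
          rw [Finset.mul_sum]
          refine Finset.sum_congr rfl fun j _ => ?_
          rw [map_mul, map_mul, map_natCast, aeval_X, aeval_rename]
          show (γ i j : ℂ) * (z * aeval θ (Q j)) = _
          ring
    have h3 := AlgHom.congr_fun h2 E
    rw [AlgHom.comp_apply] at h3
    rw [← h3]
    exact h1
  -- the polynomial at `ε = 0`
  let p : Polynomial ℂ := (finSuccEquiv ℤ (n + 1) E).map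
    (aeval W : MvPolynomial (Fin (n + 1)) ℤ →ₐ[ℤ] ℂ).toRingHom
  have hpa : (aeval W : MvPolynomial (Fin (n + 1)) ℤ →ₐ[ℤ] ℂ).toRingHom
      (finSuccEquiv ℤ (n + 1) E).leadingCoeff = (a : ℂ) := by
    rw [hlc]
    show aeval W (C a) = (a : ℂ)
    rw [aeval_C]
    simp
  have ha' : (a : ℂ) ≠ 0 := by exact_mod_cast ha
  have hp : p.leadingCoeff = (a : ℂ) := by
    rw [Polynomial.leadingCoeff_map_of_leadingCoeff_ne_zero _ (by rw [hpa]; exact ha'), hpa]
  have hpe : ∀ z, p.eval z = aeval (Fin.cons z W : Fin (n + 2) → ℂ) E := by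
    intro z
    have h2 : ((Polynomial.evalRingHom z).comp (Polynomial.mapRingHom
        (aeval W : MvPolynomial (Fin (n + 1)) ℤ →ₐ[ℤ] ℂ).toRingHom)).comp
          (finSuccEquiv ℤ (n + 1) : MvPolynomial (Fin (n + 2)) ℤ →+* _) =
        (aeval (Fin.cons z W : Fin (n + 2) → ℂ) : MvPolynomial (Fin (n + 2)) ℤ →ₐ[ℤ] ℂ).toRingHom := by
      apply ringHom_ext
      · intro c
        simp
      · intro k
        refine Fin.cases ?_ (fun i => ?_) k
        · simp [finSuccEquiv_X_zero]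
        · simp [finSuccEquiv_X_succ]
    exact RingHom.congr_fun h2 E
  have hp1 : 1 ≤ ‖p.leadingCoeff‖ := by
    rw [hp, Complex.norm_intCast]
    have : 1 ≤ |a| := Int.one_le_abs ha
    exact_mod_cast this
  obtain ⟨z0, hz0, hz1⟩ := lc_le p hp1
  rw [hpe] at hz1
  rcases le_or_gt 1 (g * ε) with hcase | hcase
  · calc (1 : ℝ) ≤ g * ε := hcase
      _ ≤ Real.exp (K * (S : ℝ) ^ (n + 1)) * ε := mul_le_mul_of_nonneg_right he2 hε
      _ = _ := mul_comm _ _
  rcases (mul_nonneg hg0 hε).eq_or_lt with hη | hη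
  · exfalso
    have h1 : ∀ i, q i = 0 := by
      intro i
      have := hq i
      rw [← hη] at this
      exact norm_le_zero_iff.1 this
    have h2 := hev z0
    have h3 : (fun i => W i - z0 * q i) = W := by
      funext i
      rw [h1, mul_zero, sub_zero]
    rw [h3] at h2
    rw [h2, norm_zero] at hz1
    linarith
  -- the function `F`
  set η : ℝ := g * ε with hηd
  let P : Polynomial ℂ := aeval (Fin.cons (Polynomial.C z0)
    (fun i => Polynomial.C (W i) - Polynomial.X * Polynomial.C (z0 * q i / η)) :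
      Fin (n + 2) → Polynomial ℂ) E
  have hP : ∀ s : ℂ, P.eval s = aeval (Fin.cons z0 (fun i => W i - s * (z0 * q i / η)) :
      Fin (n + 2) → ℂ) E := by
    intro s
    have h2 : (Polynomial.evalRingHom s).comp (aeval (Fin.cons (Polynomial.C z0)
        (fun i => Polynomial.C (W i) - Polynomial.X * Polynomial.C (z0 * q i / η)) :
        Fin (n + 2) → Polynomial ℂ) : MvPolynomial (Fin (n + 2)) ℤ →ₐ[ℤ] _).toRingHom =
        (aeval (Fin.cons z0 (fun i => W i - s * (z0 * q i / η)) : Fin (n + 2) → ℂ) :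
          MvPolynomial (Fin (n + 2)) ℤ →ₐ[ℤ] ℂ).toRingHom := by
      apply ringHom_ext
      · intro c
        simp
      · intro k
        refine Fin.cases ?_ (fun i => ?_) k
        · simp
        · simp
          ring
    exact RingHom.congr_fun h2 E
  have hBB : ∀ s : ℂ, ‖s‖ ≤ 1 → ‖P.eval s‖ ≤ BB n S M R := by
    intro s hs
    rw [hP]
    refine sup_bound E G h0 hD _ hH R hR1 _ ?_
    intro k
    refine Fin.cases ?_ (fun i => ?_) k
    · rw [Fin.cons_zero]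
      exact hz0.trans hR1
    · rw [Fin.cons_succ]
      have h1 : ‖s * (z0 * q i / η)‖ ≤ 1 := by
        rw [norm_mul, norm_div, norm_mul, Complex.norm_real, Real.norm_of_nonneg hη.le]
        have h2 : ‖z0‖ * ‖q i‖ / η ≤ 1 := by
          rw [div_le_one hη]
          calc ‖z0‖ * ‖q i‖ ≤ 1 * (g * ε) := mul_le_mul hz0 (hq i) (norm_nonneg _) zero_le_one
            _ = η := by rw [one_mul]
        calc ‖s‖ * (‖z0‖ * ‖q i‖ / η) ≤ 1 * 1 := mul_le_mul hs h2 (by positivity) zero_le_one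
          _ = 1 := one_mul 1
      have h3 : ‖W i‖ + 1 ≤ R := by
        refine Fin.lastCases ?_ (fun j => ?_) i
        · show ‖(Fin.snoc θ 0 : Fin (n + 1) → ℂ) (Fin.last n)‖ + 1 ≤ R
          rw [Fin.snoc_last, norm_zero, zero_add]
          exact hR1
        · show ‖(Fin.snoc θ 0 : Fin (n + 1) → ℂ) j.castSucc‖ + 1 ≤ R
          rw [Fin.snoc_castSucc]
          exact hRθ j
      calc ‖W i - s * (z0 * q i / η)‖ ≤ ‖W i‖ + ‖s * (z0 * q i / η)‖ := norm_sub_le _ _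
        _ ≤ ‖W i‖ + 1 := by linarith
        _ ≤ R := h3
  have hs := schw (fun s => P.eval s) P.differentiable (BB n S M R) hBB η hη.le hcase.le
  have hF1 : P.eval (η : ℂ) = 0 := by
    rw [hP, ← hev z0]
    congr 2
    congr 1
    funext i
    have : (η : ℂ) ≠ 0 := by exact_mod_cast hη.ne'
    field_simp
  have hF0 : P.eval 0 = aeval (Fin.cons z0 W : Fin (n + 2) → ℂ) E := by
    rw [hP]
    congr 2
    congr 1
    funext i
    ring
  simp only [hF1, hF0, zero_sub, norm_neg] at hs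
  calc (1 : ℝ) ≤ ‖aeval (Fin.cons z0 W : Fin (n + 2) → ℂ) E‖ := hz1
    _ ≤ 4 * BB n S M R * η := hs
    _ = ε * (4 * (M * ((n + 2) * DD n S)) * BB n S M R) := by rw [hηd, hg]; ring
    _ ≤ ε * Real.exp (K * (S : ℝ) ^ (n + 1)) := mul_le_mul_of_nonneg_left he1 hε

theorem crit (n : ℕ) (θ : Fin n → ℂ) (κ A : ℝ) (hκ : (n : ℝ) + 1 < κ) (hA : 0 < A) :
    ∃ S0 : ℝ, ∀ S : ℝ, S0 ≤ S →
      ¬ (∀ x : Fin n → ℂ, ∃ Q : MvPolynomial (Fin n) ℤ, (Q.totalDegree : ℝ) ≤ A * S ∧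
        len Q ≤ Real.exp (A * S) ∧ ‖aeval θ Q‖ ≤ Real.exp (A * S - S ^ κ) ∧ aeval x Q ≠ 0) := by
  obtain ⟨K, hK, hcore⟩ := core n θ
  obtain ⟨S1, hS1⟩ := Filter.eventually_atTop.1
    ((tendsto_rpow_atTop (show (0 : ℝ) < κ - (n + 1) by linarith)).eventually_gt_atTop
      (A + K * (A + 1) ^ (n + 1)))
  refine ⟨max 1 S1, fun S hS h => ?_⟩
  have hS0 : 1 ≤ S := (le_max_left _ _).trans hS
  have hlt := hS1 S ((le_max_right _ _).trans hS)
  have hAS : 0 < A * S := by positivity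
  set T : ℕ := ⌈A * S⌉₊ with hT
  have hT1 : 1 ≤ T := Nat.one_le_ceil_iff.2 hAS
  have hTle : A * S ≤ T := Nat.le_ceil _
  have hTlt : (T : ℝ) ≤ (A + 1) * S := by
    have := Nat.ceil_lt_add_one hAS.le
    nlinarith
  obtain ⟨M, Q, hM, hQ, hz⟩ := fam n T (fun Q => (Q.totalDegree : ℝ) ≤ A * S ∧
    len Q ≤ Real.exp (A * S) ∧ ‖aeval θ Q‖ ≤ Real.exp (A * S - S ^ κ))
    (fun Q hQ => by
      have := hQ.1.trans hTle
      exact_mod_cast this)
    (fun x => by
      obtain ⟨Q, h1, h2, h3, h4⟩ := h x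
      exact ⟨Q, ⟨h1, h2, h3⟩, h4⟩)
  have h1 := hcore T hT1 M Q hM
    (fun i => by
      have := (hQ i).1.trans hTle
      exact_mod_cast this)
    (fun i => (hQ i).2.1.trans (Real.exp_le_exp.2 hTle)) hz
    (Real.exp (A * S - S ^ κ)) (Real.exp_pos _).le (fun i => (hQ i).2.2)
  rw [← Real.exp_add, ← Real.exp_zero, Real.exp_le_exp] at h1
  have h2 : K * (T : ℝ) ^ (n + 1) ≤ K * ((A + 1) ^ (n + 1) * S ^ (n + 1)) := by
    rw [← mul_pow]
    gcongr
  have h3 : A * S ≤ A * S ^ (n + 1) := by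
    have : S ≤ S ^ (n + 1) := le_self_pow₀ hS0 (Nat.succ_ne_zero n)
    gcongr
  have h4 : S ^ κ = S ^ (κ - (n + 1)) * S ^ (n + 1) := by
    rw [← Real.rpow_natCast S (n + 1), ← Real.rpow_add (by linarith)]
    congr 1
    push_cast
    ring
  have h5 : 0 < S ^ (n + 1) := by positivity
  have h6 : (A + K * (A + 1) ^ (n + 1)) * S ^ (n + 1) < S ^ κ := by
    rw [h4]
    exact mul_lt_mul_of_pos_right hlt h5
  nlinarith

end

end Pool.Agent.Helper29.CN
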