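import Pool.Agent.Helper29.CN.M1
import Pool.Agent.Helper14.LC.Nm

/-!
# Project CN, matrix criterion: the ring `ℤ[ρ]` in small dimension
-/

namespace Pool.Agent.Helper29.CN

open MvPolynomial Pool.Agent.Helper14.LC

noncomputable section

/-- `ρ` and `ρ⁻¹` -/
def pm {σ : Type} (ρ : σ → ℂ) : σ ⊕ σ → ℂ := Sum.elim ρ fun i => (ρ i)⁻¹

/-- The polynomials of degree at most `N` in `ρ` have coordinates in `ℤ ^ Q` with `Q ≤ C (N+1)^s`. -/
def Emb {τ : Type} (ρ : τ → ℂ) (s C : ℕ) : Prop :=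
  ∀ N : ℕ, ∃ (Q : ℕ) (Φ : MvPolynomial τ ℤ →+ (Fin Q → ℤ)), 1 ≤ Q ∧ Q ≤ C * (N + 1) ^ s ∧
    ∀ P : MvPolynomial τ ℤ, P.totalDegree ≤ N → (Φ P = 0 → aeval ρ P = 0) ∧
      ∀ q, |((Φ P q : ℤ) : ℝ)| ≤ len P * (C : ℝ) ^ N

/-- The reduced powers of `pow_red`, for `d = k + 1`. -/
private def pow_red_r {s k : ℕ} (a : ℤ) (μ : Fin (k + 1) → MvPolynomial (Fin s) ℤ) :
    ℕ → Fin (k + 1) → MvPolynomial (Fin s) ℤ
  | 0 => fun j => if j = 0 then 1 else 0
  | e + 1 => fun j => Fin.cases (motive := fun _ => MvPolynomial (Fin s) ℤ) 0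
      (fun i : Fin k => C a * pow_red_r a μ e i.castSucc) j - pow_red_r a μ e (Fin.last k) * μ j

private theorem pow_red_zero {s k : ℕ} (a : ℤ) (μ : Fin (k + 1) → MvPolynomial (Fin s) ℤ)
    (j : Fin (k + 1)) : pow_red_r a μ 0 j = if j = 0 then 1 else 0 := rfl

private theorem pow_red_succ {s k : ℕ} (a : ℤ) (μ : Fin (k + 1) → MvPolynomial (Fin s) ℤ)
    (e : ℕ) (j : Fin (k + 1)) : pow_red_r a μ (e + 1) j =
      Fin.cases (motive := fun _ => MvPolynomial (Fin s) ℤ) 0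
        (fun i : Fin k => C a * pow_red_r a μ e i.castSucc) j -
          pow_red_r a μ e (Fin.last k) * μ j := rfl

/-- PROOF. `r 0 = (1, 0, .., 0)`, `r (e + 1) j = a * r e (j - 1) - r e (d - 1) * μ j` (the first term
is absent for `j = 0`). `∑ j, len (r (e + 1) j) ≤ (|a| + ∑ j, len (μ j)) * ∑ j, len (r e j)`. -/
theorem pow_red {s d : ℕ} (hd : 0 < d) (a : ℤ) (μ : Fin d → MvPolynomial (Fin s) ℤ) (b : ℕ)
    (hb : ∀ j, (μ j).totalDegree ≤ b) (c : ℝ) (hc : |(a : ℝ)| + ∑ j, len (μ j) ≤ c) (hc1 : 1 ≤ c) :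
    ∃ r : ℕ → Fin d → MvPolynomial (Fin s) ℤ,
      (∀ e j, (r e j).totalDegree ≤ b * e) ∧ (∀ e, ∑ j, len (r e j) ≤ c ^ e) ∧
      ∀ (θ : Fin s → ℂ) (x : ℂ),
        (a : ℂ) * x ^ d + ∑ j : Fin d, aeval θ (μ j) * x ^ (j : ℕ) = 0 →
        ∀ e : ℕ, (a : ℂ) ^ e * x ^ e = ∑ j : Fin d, aeval θ (r e j) * x ^ (j : ℕ) := by
  obtain ⟨k, rfl⟩ : ∃ k, d = k + 1 := ⟨d - 1, by omega⟩
  refine ⟨pow_red_r a μ, ?_, ?_, ?_⟩
  · intro e
    induction e with
    | zero =>
      intro j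
      rw [pow_red_zero]
      split_ifs <;> simp
    | succ e ih =>
      intro j
      rw [pow_red_succ]
      refine (totalDegree_sub _ _).trans (max_le ?_ ?_)
      · refine Fin.cases ?_ (fun i => ?_) j
        · rw [Fin.cases_zero, totalDegree_zero]
          exact Nat.zero_le _
        · rw [Fin.cases_succ]
          refine (totalDegree_mul _ _).trans ?_
          rw [totalDegree_C, zero_add, mul_add]
          exact (ih _).trans (Nat.le_add_right _ _)
      · refine (totalDegree_mul _ _).trans ?_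
        rw [mul_add, mul_one]
        exact Nat.add_le_add (ih _) (hb j)
  · intro e
    induction e with
    | zero =>
      have h1 : ∀ j : Fin (k + 1), len (pow_red_r a μ 0 j) ≤ if j = 0 then 1 else 0 := by
        intro j
        rw [pow_red_zero]
        split_ifs
        · exact isNm_len.one
        · exact isNm_len.zero.le
      refine (Finset.sum_le_sum fun j _ => h1 j).trans ?_
      simp only [pow_zero, Finset.sum_ite_eq', Finset.mem_univ, if_true, le_refl]
    | succ e ih =>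
      have h1 : ∑ j, len (pow_red_r a μ (e + 1) j) ≤
          (|(a : ℝ)| + ∑ j, len (μ j)) * ∑ j, len (pow_red_r a μ e j) := by
        have h2 : ∀ j : Fin (k + 1), len (pow_red_r a μ (e + 1) j) ≤
            len (Fin.cases (motive := fun _ => MvPolynomial (Fin s) ℤ) 0
              (fun i : Fin k => C a * pow_red_r a μ e i.castSucc) j) +
              len (pow_red_r a μ e (Fin.last k)) * len (μ j) := by
          intro j
          rw [pow_red_succ, sub_eq_add_neg]
          refine (len_add _ _).trans (add_le_add le_rfl ?_)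
          rw [isNm_len.neg]
          exact isNm_len.mul _ _
        have h3 : ∑ j, len (Fin.cases (motive := fun _ => MvPolynomial (Fin s) ℤ) 0
              (fun i : Fin k => C a * pow_red_r a μ e i.castSucc) j) ≤
            |(a : ℝ)| * ∑ i : Fin k, len (pow_red_r a μ e i.castSucc) := by
          rw [Fin.sum_univ_succ, Fin.cases_zero, isNm_len.zero, zero_add, Finset.mul_sum]
          refine Finset.sum_le_sum fun i _ => ?_
          rw [Fin.cases_succ]
          refine (isNm_len.mul _ _).trans ?_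
          rw [len_C]
        have h4 : (0 : ℝ) ≤ ∑ i : Fin k, len (pow_red_r a μ e i.castSucc) :=
          Finset.sum_nonneg fun _ _ => len_nonneg _
        have h5 : (0 : ℝ) ≤ ∑ j, len (μ j) := Finset.sum_nonneg fun _ _ => len_nonneg _
        have h6 := len_nonneg (pow_red_r a μ e (Fin.last k))
        have h7 := abs_nonneg (a : ℝ)
        refine (Finset.sum_le_sum fun j _ => h2 j).trans ?_
        have h8 : ∑ j, len (pow_red_r a μ e j) =
            ∑ i : Fin k, len (pow_red_r a μ e i.castSucc) + len (pow_red_r a μ e (Fin.last k)) :=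
          Fin.sum_univ_castSucc _
        rw [Finset.sum_add_distrib, ← Finset.mul_sum, h8]
        nlinarith [mul_nonneg h7 h6, mul_nonneg h5 h4]
      refine h1.trans ?_
      rw [pow_succ']
      exact mul_le_mul hc ih (Finset.sum_nonneg fun _ _ => len_nonneg _) (by linarith)
  · intro θ x hx e
    induction e with
    | zero =>
      have h1 : ∀ j : Fin (k + 1), aeval θ (pow_red_r a μ 0 j) * x ^ (j : ℕ) =
          if j = 0 then 1 else 0 := by
        intro j
        rw [pow_red_zero]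
        split_ifs with h
        · rw [h]
          simp
        · simp
      simp only [h1, pow_zero, one_mul, Finset.sum_ite_eq', Finset.mem_univ, if_true]
    | succ e ih =>
      have h1 : ∑ j, aeval θ (pow_red_r a μ (e + 1) j) * x ^ (j : ℕ) =
          (a : ℂ) * x * ∑ i : Fin k, aeval θ (pow_red_r a μ e i.castSucc) * x ^ (i : ℕ) -
            aeval θ (pow_red_r a μ e (Fin.last k)) * ∑ j, aeval θ (μ j) * x ^ (j : ℕ) := by
        have h2 : ∀ j : Fin (k + 1), aeval θ (pow_red_r a μ (e + 1) j) * x ^ (j : ℕ) =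
            aeval θ (Fin.cases (motive := fun _ => MvPolynomial (Fin s) ℤ) 0
              (fun i : Fin k => C a * pow_red_r a μ e i.castSucc) j) * x ^ (j : ℕ) -
              aeval θ (pow_red_r a μ e (Fin.last k)) * (aeval θ (μ j) * x ^ (j : ℕ)) := by
          intro j
          rw [pow_red_succ, map_sub, map_mul]
          ring
        rw [Finset.sum_congr rfl fun j _ => h2 j, Finset.sum_sub_distrib, ← Finset.mul_sum,
          Fin.sum_univ_succ, Fin.cases_zero, map_zero, zero_mul, zero_add]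
        congr 1
        rw [Finset.mul_sum]
        refine Finset.sum_congr rfl fun i _ => ?_
        rw [Fin.cases_succ, map_mul, Fin.val_succ, pow_succ, algHom_C]
        simp only [algebraMap_int_eq, eq_intCast]
        ring
      rw [h1]
      have h3 := ih
      rw [Fin.sum_univ_castSucc] at h3
      simp only [Fin.val_castSucc, Fin.val_last] at h3
      have h4 : (a : ℂ) ^ (e + 1) * x ^ (e + 1) = (a : ℂ) * x * ((a : ℂ) ^ e * x ^ e) := by ring
      rw [h4, h3]
      linear_combination (aeval θ (pow_red_r a μ e (Fin.last k))) * hx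

private theorem emb_lin {τ : Type} [Fintype τ] {s d : ℕ} (N : ℕ) (a : ℤ)
    (r : τ → ℕ → Fin d → MvPolynomial (Fin s) ℤ) :
    ∃ L : (τ → Fin d) → (MvPolynomial τ ℤ →ₗ[ℤ] MvPolynomial (Fin s) ℤ), ∀ j P,
      L j P = ∑ m ∈ P.support, C (P.coeff m) *
        (C (a ^ (N - ∑ i, m i)) * ∏ i, r i (m i) (j i)) := by
  refine ⟨fun j => (basisMonomials τ ℤ).constr ℤ
    (fun m => C (a ^ (N - ∑ i, m i)) * ∏ i, r i (m i) (j i)), fun j P => ?_⟩
  rw [Module.Basis.constr_apply, Finsupp.sum]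
  refine Finset.sum_congr rfl fun m _ => ?_
  rw [← C_mul']
  rfl

private theorem emb_deg {τ : Type} [Fintype τ] {s d : ℕ} {N b : ℕ} {a : ℤ}
    {r : τ → ℕ → Fin d → MvPolynomial (Fin s) ℤ} (hr : ∀ i e j, (r i e j).totalDegree ≤ b * e)
    {P : MvPolynomial τ ℤ} (hP : P.totalDegree ≤ N) (j : τ → Fin d) (m : τ →₀ ℕ)
    (hm : m ∈ P.support) :
    (C (P.coeff m) * (C (a ^ (N - ∑ i, m i)) * ∏ i, r i (m i) (j i)) :
      MvPolynomial (Fin s) ℤ).totalDegree ≤ b * N := by
  have h1 : ∑ i, m i ≤ N := by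
    have h2 := (le_totalDegree hm).trans hP
    rwa [Finsupp.sum_fintype _ _ (fun _ => rfl)] at h2
  refine (totalDegree_mul _ _).trans ?_
  rw [totalDegree_C, zero_add]
  refine (totalDegree_mul _ _).trans ?_
  rw [totalDegree_C, zero_add]
  refine (totalDegree_finsetProd _ _).trans ?_
  refine (Finset.sum_le_sum fun i _ => hr i (m i) (j i)).trans ?_
  rw [← Finset.mul_sum]
  exact Nat.mul_le_mul_left _ h1

private theorem emb_len {τ : Type} [Fintype τ] {s d : ℕ} {N : ℕ} {a : ℤ} {c : ℝ} (hc1 : 1 ≤ c)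
    (hca : |(a : ℝ)| ≤ c)
    {r : τ → ℕ → Fin d → MvPolynomial (Fin s) ℤ} (hr : ∀ i e j, len (r i e j) ≤ c ^ e)
    {P : MvPolynomial τ ℤ} (hP : P.totalDegree ≤ N) (j : τ → Fin d) :
    len (∑ m ∈ P.support, C (P.coeff m) * (C (a ^ (N - ∑ i, m i)) * ∏ i, r i (m i) (j i)) :
      MvPolynomial (Fin s) ℤ) ≤ len P * c ^ N := by
  refine (len_sum _ _).trans ?_
  rw [len, Finset.sum_mul]
  refine Finset.sum_le_sum fun m hm => ?_
  have h1 : ∑ i, m i ≤ N := by
    have h2 := (le_totalDegree hm).trans hP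
    rwa [Finsupp.sum_fintype _ _ (fun _ => rfl)] at h2
  refine (isNm_len.mul _ _).trans ?_
  rw [len_C]
  refine mul_le_mul_of_nonneg_left ?_ (abs_nonneg _)
  refine (isNm_len.mul _ _).trans ?_
  rw [len_C]
  have h3 : |((a ^ (N - ∑ i, m i) : ℤ) : ℝ)| ≤ c ^ (N - ∑ i, m i) := by
    push_cast
    rw [abs_pow]
    exact pow_le_pow_left₀ (abs_nonneg _) hca _
  have h4 : len (∏ i, r i (m i) (j i)) ≤ c ^ (∑ i, m i) := by
    refine (isNm_len.prod_le _ _).trans ?_
    rw [← Finset.prod_pow_eq_pow_sum]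
    exact Finset.prod_le_prod (fun i _ => len_nonneg _) fun i _ => hr _ _ _
  refine (mul_le_mul h3 h4 (len_nonneg _) (by positivity)).trans ?_
  rw [← pow_add, Nat.sub_add_cancel h1]

private theorem emb_eval {τ : Type} [Fintype τ] [DecidableEq τ] {s d : ℕ} {N : ℕ} {a : ℤ}
    {r : τ → ℕ → Fin d → MvPolynomial (Fin s) ℤ} {ρ : τ → ℂ} {θ : Fin s → ℂ}
    (hr : ∀ i (e : ℕ), (a : ℂ) ^ e * ρ i ^ e = ∑ j : Fin d, aeval θ (r i e j) * ρ i ^ (j : ℕ))
    {P : MvPolynomial τ ℤ} (hP : P.totalDegree ≤ N) :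
    (a : ℂ) ^ N * aeval ρ P = ∑ j : τ → Fin d, aeval θ
      (∑ m ∈ P.support, C (P.coeff m) * (C (a ^ (N - ∑ i, m i)) * ∏ i, r i (m i) (j i)) :
        MvPolynomial (Fin s) ℤ) * ∏ i, ρ i ^ (j i : ℕ) := by
  classical
  have h0 : aeval ρ P = ∑ m ∈ P.support, ((P.coeff m : ℤ) : ℂ) * ∏ i, ρ i ^ m i := by
    rw [aeval_eq_eval₂Hom, coe_eval₂Hom, eval₂_eq']
    rfl
  have h1 : ∀ j : τ → Fin d, aeval θ
      (∑ m ∈ P.support, C (P.coeff m) * (C (a ^ (N - ∑ i, m i)) * ∏ i, r i (m i) (j i)) :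
        MvPolynomial (Fin s) ℤ) * ∏ i, ρ i ^ (j i : ℕ) =
      ∑ m ∈ P.support, ((P.coeff m : ℤ) : ℂ) * ((a : ℂ) ^ (N - ∑ i, m i) *
        ∏ i, (aeval θ (r i (m i) (j i)) * ρ i ^ (j i : ℕ))) := by
    intro j
    rw [map_sum, Finset.sum_mul]
    refine Finset.sum_congr rfl fun m _ => ?_
    rw [map_mul, map_mul, map_prod, algHom_C, algHom_C, Finset.prod_mul_distrib]
    simp only [algebraMap_int_eq, eq_intCast, Int.cast_pow]
    ring
  rw [h0, Finset.sum_congr rfl fun j _ => h1 j, Finset.sum_comm, Finset.mul_sum]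
  refine Finset.sum_congr rfl fun m hm => ?_
  have h2 : ∑ i, m i ≤ N := by
    have h2 := (le_totalDegree hm).trans hP
    rwa [Finsupp.sum_fintype _ _ (fun _ => rfl)] at h2
  rw [← Finset.mul_sum, ← Finset.mul_sum]
  have h3 : ∑ j : τ → Fin d, ∏ i, (aeval θ (r i (m i) (j i)) * ρ i ^ (j i : ℕ)) =
      ∏ i, ∑ j : Fin d, aeval θ (r i (m i) j) * ρ i ^ (j : ℕ) := by
    rw [Finset.prod_univ_sum, Fintype.piFinset_univ]
  rw [h3, Finset.prod_congr rfl fun i _ => (hr i (m i)).symm, Finset.prod_mul_distrib,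
    Finset.prod_pow_eq_pow_sum]
  have h4 : (a : ℂ) ^ N = (a : ℂ) ^ (N - ∑ i, m i) * (a : ℂ) ^ (∑ i, m i) := by
    rw [← pow_add, Nat.sub_add_cancel h2]
  rw [h4]
  ring

/-- PROOF. `b` bounds all degrees of the `μ i j`, `c ≥ 1` all `|a| + ∑ j, len (μ i j)`; `r i` from
`pow_red`. For `m : τ →₀ ℕ`, `j : τ → Fin d` let
`R m j = C (a ^ (N - ∑ m)) * ∏ i, r i (m i) (j i)`, of total degree at most `b N` and length at most
`c ^ N` if `∑ m ≤ N`. `Φ (monomial m x) (j, e) = x * coeff e (R m j)` for `e ∈ {0, .., b N}^s`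
(`Basis.constr` for `basisMonomials`, or a finite sum over the support with `Finsupp.sum_add_index`);
`Q = d ^ card τ * (b N + 1) ^ s`, reindex by `Fintype.equivFin`.
If `Φ P = 0` then `a ^ N * aeval ρ P = ∑ m, P_m a ^ (N - ∑ m) ∏ i, a ^ (m i) ρ i ^ (m i) =
∑ m, P_m ∑ j, aeval θ (R m j) ∏ i, ρ i ^ (j i) = ∑ j, ∑ e, Φ P (j, e) θ ^ e ∏ i, ρ i ^ (j i) = 0`
(`Finset.prod_univ_sum`). -/
theorem emb {τ : Type} [Fintype τ] {s d : ℕ} (ρ : τ → ℂ) (θ : Fin s → ℂ) (hd : 0 < d) (a : ℤ)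
    (ha : a ≠ 0) (μ : τ → Fin d → MvPolynomial (Fin s) ℤ)
    (hμ : ∀ i, (a : ℂ) * ρ i ^ d + ∑ j : Fin d, aeval θ (μ i j) * ρ i ^ (j : ℕ) = 0) :
    ∃ C : ℕ, 1 ≤ C ∧ Emb ρ s C := by
  classical
  obtain ⟨b, hb⟩ : ∃ b : ℕ, ∀ i j, (μ i j).totalDegree ≤ b := by
    refine ⟨∑ i, ∑ j, (μ i j).totalDegree, fun i j => ?_⟩
    refine le_trans ?_ (Finset.single_le_sum (f := fun i => ∑ j, (μ i j).totalDegree)
      (fun _ _ => Nat.zero_le _) (Finset.mem_univ i))
    exact Finset.single_le_sum (f := fun j => (μ i j).totalDegree)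
      (fun _ _ => Nat.zero_le _) (Finset.mem_univ j)
  obtain ⟨c, hc⟩ : ∃ c : ℕ, 1 + |(a : ℝ)| + ∑ i, ∑ j, len (μ i j) ≤ c := exists_nat_ge _
  have hS : ∀ i, ∑ j, len (μ i j) ≤ ∑ i, ∑ j, len (μ i j) := fun i =>
    Finset.single_le_sum (f := fun i => ∑ j, len (μ i j))
      (fun _ _ => Finset.sum_nonneg fun _ _ => len_nonneg _) (Finset.mem_univ i)
  have hS0 : 0 ≤ ∑ i, ∑ j, len (μ i j) :=
    Finset.sum_nonneg fun _ _ => Finset.sum_nonneg fun _ _ => len_nonneg _
  have hc1 : (1 : ℝ) ≤ c := by linarith [abs_nonneg (a : ℝ)]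
  have hca : |(a : ℝ)| ≤ c := by linarith
  choose r hrd hrl hre using fun i => pow_red hd a (μ i) b (hb i) c
    (by linarith [hS i, abs_nonneg (a : ℝ)]) hc1
  refine ⟨d ^ Fintype.card τ * (b + 1) ^ s + c, ?_, fun N => ?_⟩
  · have : (1 : ℕ) ≤ c := by exact_mod_cast hc1
    omega
  obtain ⟨L, hL⟩ := emb_lin N a r
  let I := (τ → Fin d) × (Fin s → Fin (b * N + 1))
  let ev : (Fin s → Fin (b * N + 1)) → (Fin s →₀ ℕ) := fun e =>
    Finsupp.equivFunOnFinite.symm fun k => (e k : ℕ)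
  let E := Fintype.equivFin I
  have hcard : Fintype.card I = d ^ Fintype.card τ * (b * N + 1) ^ s := by
    simp [I, Fintype.card_prod]
  let Φ : MvPolynomial τ ℤ →+ (Fin (Fintype.card I) → ℤ) :=
    { toFun := fun P q => coeff (ev (E.symm q).2) (L (E.symm q).1 P)
      map_zero' := by
        funext q
        rw [map_zero, coeff_zero]
        rfl
      map_add' := by
        intro P P'
        funext q
        rw [map_add, coeff_add]
        rfl }
  have hΦ : ∀ P q, Φ P q = coeff (ev (E.symm q).2) (L (E.symm q).1 P) := fun _ _ => rfl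
  refine ⟨Fintype.card I, Φ, ?_, ?_, fun P hP => ⟨fun h0 => ?_, fun q => ?_⟩⟩
  · rw [hcard]
    exact Nat.succ_le_of_lt (by positivity)
  · rw [hcard]
    have h1 : (b * N + 1) ^ s ≤ (b + 1) ^ s * (N + 1) ^ s := by
      rw [← mul_pow]
      refine Nat.pow_le_pow_left ?_ _
      ring_nf
      omega
    calc d ^ Fintype.card τ * (b * N + 1) ^ s
        ≤ d ^ Fintype.card τ * ((b + 1) ^ s * (N + 1) ^ s) := Nat.mul_le_mul_left _ h1
      _ = (d ^ Fintype.card τ * (b + 1) ^ s) * (N + 1) ^ s := by ring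
      _ ≤ _ := Nat.mul_le_mul_right _ (Nat.le_add_right _ _)
  · have h1 : ∀ j, L j P = 0 := by
      intro j
      ext e
      rw [coeff_zero]
      by_cases he : ∀ k, e k < b * N + 1
      · have h2 := congrFun h0 (E (j, fun k => ⟨e k, he k⟩))
        rw [hΦ, E.symm_apply_apply] at h2
        have h3 : ev (fun k => ⟨e k, he k⟩) = e := by
          ext k
          rfl
        rw [h3] at h2
        exact h2
      · rw [not_forall] at he
        obtain ⟨k, hk⟩ := he
        by_contra h2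
        have h3 : e ∈ (L j P).support := mem_support_iff.2 h2
        have h4 : (L j P).totalDegree ≤ b * N := by
          rw [hL]
          refine (totalDegree_finsetSum _ _).trans ?_
          refine Finset.sup_le fun m hm => ?_
          exact emb_deg hrd hP j m hm
        have h5 := (le_totalDegree h3).trans h4
        have h6 : e k ≤ e.sum fun _ x => x := by
          rw [Finsupp.sum_fintype _ _ (fun _ => rfl)]
          exact Finset.single_le_sum (f := fun k => e k) (fun _ _ => Nat.zero_le _)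
            (Finset.mem_univ k)
        omega
    have h2 := emb_eval (θ := θ) (ρ := ρ) (r := r) (a := a)
      (fun i e => hre i θ (ρ i) (hμ i) e) hP
    have h3 : (a : ℂ) ^ N * aeval ρ P = 0 := by
      rw [h2]
      refine Finset.sum_eq_zero fun j _ => ?_
      rw [← hL, h1, map_zero, zero_mul]
    have h4 : (a : ℂ) ^ N ≠ 0 := pow_ne_zero _ (Int.cast_ne_zero.2 ha)
    exact (mul_eq_zero.1 h3).resolve_left h4
  · rw [hΦ]
    refine (coeff_le_len _ _).trans ?_
    rw [hL]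
    refine (emb_len hc1 hca (fun i e j => ?_) hP _).trans ?_
    · exact (Finset.single_le_sum (f := fun j => len (r i e j)) (fun _ _ => len_nonneg _)
        (Finset.mem_univ j)).trans (hrl i e)
    · refine mul_le_mul_of_nonneg_left ?_ (len_nonneg _)
      refine pow_le_pow_left₀ (by linarith) ?_ _
      push_cast
      have : (0 : ℝ) ≤ (d : ℝ) ^ Fintype.card τ * ((b : ℝ) + 1) ^ s := by positivity
      linarith

/-- PROOF. As `noether_n`, easier: `noeA ρ` gives `θ` and monic equations `p i` for the `pm ρ i` over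
`MvPolynomial (Fin s) ℚ`; `s ≤ n` by `noeBn`; multiply the `p i` by powers of `X` to get a common
degree `d ≥ 1`; multiply by a common denominator `a` of all coefficients. -/
theorem noe_x {n : ℕ} {σ : Type} [Fintype σ] (ρ : σ → ℂ) (h0 : ∀ i, ρ i ≠ 0)
    (htr : ∀ f : Fin (n + 1) → σ, ¬ AlgebraicIndependent ℚ (fun i => ρ (f i))) :
    ∃ (s : ℕ) (θ : Fin s → ℂ) (d : ℕ) (a : ℤ) (μ : σ ⊕ σ → Fin d → MvPolynomial (Fin s) ℤ),
      s ≤ n ∧ AlgebraicIndependent ℚ θ ∧ (∀ j, θ j ∈ Algebra.adjoin ℚ (Set.range (pm ρ))) ∧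
      0 < d ∧ a ≠ 0 ∧
      ∀ i, (a : ℂ) * pm ρ i ^ d + ∑ j : Fin d, aeval θ (μ i j) * pm ρ i ^ (j : ℕ) = 0 := by
  classical
  obtain ⟨s, t, ht, hm, hint⟩ := Pool.Agent.Helper29.LC.noeA ρ
  have hs := noeBn ρ h0 htr t ht hm
  have hrange : Set.range (pm ρ) = Set.range ρ ∪ Set.range fun i => (ρ i)⁻¹ := by
    unfold pm
    exact Set.Sum.elim_range _ _
  let φ : MvPolynomial (Fin s) ℚ →+* ℂ :=
    (MvPolynomial.aeval t : MvPolynomial (Fin s) ℚ →ₐ[ℚ] ℂ).toRingHom
  have hI : ∀ i : σ ⊕ σ, ∃ q : Polynomial (MvPolynomial (Fin s) ℚ), q.Monic ∧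
      q.eval₂ φ (pm ρ i) = 0 := by
    intro i
    refine hint _ (Algebra.subset_adjoin ?_)
    rw [← hrange]
    exact ⟨i, rfl⟩
  choose p0 hp0 hpe0 using hI
  obtain ⟨d, hd1, hd2⟩ : ∃ d : ℕ, 0 < d ∧ ∀ i, (p0 i).natDegree ≤ d := by
    refine ⟨Finset.univ.sup (fun i => (p0 i).natDegree) + 1, by omega, fun i => ?_⟩
    have := Finset.le_sup (f := fun i => (p0 i).natDegree) (Finset.mem_univ i)
    omega
  obtain ⟨p, hpdef⟩ : ∃ p : σ ⊕ σ → Polynomial (MvPolynomial (Fin s) ℚ), ∀ i,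
      p i = p0 i * Polynomial.X ^ (d - (p0 i).natDegree) := ⟨_, fun i => rfl⟩
  have hp : ∀ i, (p i).Monic := fun i => by
    rw [hpdef]
    exact (hp0 i).mul (Polynomial.monic_X_pow _)
  have hpd : ∀ i, (p i).natDegree = d := fun i => by
    rw [hpdef, (hp0 i).natDegree_mul (Polynomial.monic_X_pow _), Polynomial.natDegree_X_pow]
    have := hd2 i
    omega
  have hpe : ∀ i, (p i).eval₂ φ (pm ρ i) = 0 := fun i => by
    rw [hpdef, Polynomial.eval₂_mul, hpe0, zero_mul]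
  obtain ⟨b, hb⟩ := IsLocalization.exist_integer_multiples_of_finset (nonZeroDivisors ℤ)
    ((Finset.univ : Finset ((σ ⊕ σ) × Fin d)).biUnion fun z => ((p z.1).coeff z.2).coeffs)
  have hb0 : (b : ℤ) ≠ 0 := nonZeroDivisors.coe_ne_zero b
  have key : ∀ i (j : Fin d), ∃ q : MvPolynomial (Fin s) ℤ,
      MvPolynomial.map (Int.castRingHom ℚ) q =
        MvPolynomial.C (((b : ℤ)) : ℚ) * (p i).coeff j := by
    intro i j
    have h1 : MvPolynomial.C (((b : ℤ)) : ℚ) * (p i).coeff j ∈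
        Set.range (MvPolynomial.map (Int.castRingHom ℚ)) := by
      rw [MvPolynomial.mem_range_map_iff_coeffs_subset]
      intro c hc
      rw [Finset.mem_coe, MvPolynomial.mem_coeffs_iff] at hc
      obtain ⟨m, hm1, hm2⟩ := hc
      rw [MvPolynomial.coeff_C_mul] at hm2
      by_cases hz : ((p i).coeff j).coeff m = 0
      · rw [hz, mul_zero] at hm2
        exact ⟨0, by rw [hm2, map_zero]⟩
      · have h2 := hb (((p i).coeff j).coeff m) (by
          rw [Finset.mem_biUnion]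
          refine ⟨(i, j), Finset.mem_univ _, ?_⟩
          exact MvPolynomial.coeff_mem_coeffs _ hz)
        obtain ⟨l, hn⟩ := h2
        refine ⟨l, ?_⟩
        rw [hm2]
        rw [zsmul_eq_mul] at hn
        exact hn
    exact h1
  choose μ hμ using key
  refine ⟨s, t, d, b, μ, hs, ht, fun j => by rw [hrange]; exact hm j, hd1, hb0, fun i => ?_⟩
  have h1 := hpe i
  rw [Polynomial.eval₂_eq_sum_range, hpd, Finset.sum_range_succ] at h1
  have h2 : (p i).coeff d = 1 := by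
    have := hp i
    rw [Polynomial.Monic, Polynomial.leadingCoeff, hpd] at this
    exact this
  rw [h2, map_one, one_mul] at h1
  have h3 : ∀ j : Fin d, MvPolynomial.aeval t (μ i j) = ((b : ℤ) : ℂ) * φ ((p i).coeff j) := by
    intro j
    have h4 : MvPolynomial.aeval t (MvPolynomial.map (algebraMap ℤ ℚ) (μ i j)) =
        MvPolynomial.aeval t (μ i j) := MvPolynomial.aeval_map_algebraMap ℚ t (μ i j)
    rw [← h4]
    have h5 : MvPolynomial.map (algebraMap ℤ ℚ) (μ i j) =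
        MvPolynomial.C (((b : ℤ)) : ℚ) * (p i).coeff j := hμ i j
    rw [h5, map_mul, MvPolynomial.aeval_C]
    show (algebraMap ℚ ℂ) ((b : ℤ) : ℚ) * φ ((p i).coeff j) = _
    rw [map_intCast]
  rw [Finset.sum_congr rfl fun j _ => by rw [h3 j, mul_assoc], ← Finset.mul_sum, ← mul_add]
  rw [Fin.sum_univ_eq_sum_range (fun j => φ ((p i).coeff j) * pm ρ i ^ j) d, add_comm, h1, mul_zero]

theorem emb_x {n : ℕ} {σ : Type} [Fintype σ] (ρ : σ → ℂ) (h0 : ∀ i, ρ i ≠ 0)
    (htr : ∀ f : Fin (n + 1) → σ, ¬ AlgebraicIndependent ℚ (fun i => ρ (f i))) :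
    ∃ (s : ℕ) (θ : Fin s → ℂ) (C : ℕ), s ≤ n ∧ AlgebraicIndependent ℚ θ ∧
      (∀ j, θ j ∈ Algebra.adjoin ℚ (Set.range (pm ρ))) ∧ 1 ≤ C ∧ Emb (pm ρ) s C := by
  obtain ⟨s, θ, d, a, μ, hs, hθ, hm, hd, ha, hμ⟩ := noe_x ρ h0 htr
  obtain ⟨C, hC, hE⟩ := emb (pm ρ) θ hd a ha μ hμ
  exact ⟨s, θ, C, hs, hθ, hm, hC, hE⟩

end

end Pool.Agent.Helper29.CN
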