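import Pool.Agent.Helper29.CN.B
import Pool.Agent.Helper29.CN.X1

/-!
# Project CN, matrix criterion: relations between linear polynomials in `z` over `ℚ(ρ)`
-/

namespace Pool.Agent.Helper29.CN

open MvPolynomial Pool.Agent.Helper14.LC

noncomputable section

/-- all coefficients have total degree at most `N` -/
def cd {τ : Type} (P : Polynomial (MvPolynomial τ ℤ)) (N : ℕ) : Prop :=
  ∀ e, (P.coeff e).totalDegree ≤ N

section cdsec

variable {τ : Type}

/-- PROOF. `Polynomial.coeff_mul`, `totalDegree_finset_sum`, `totalDegree_mul`. -/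
theorem cd_mul {P Q : Polynomial (MvPolynomial τ ℤ)} {N M : ℕ} (hP : cd P N) (hQ : cd Q M) :
    cd (P * Q) (N + M) := by
  intro e
  rw [Polynomial.coeff_mul]
  refine (totalDegree_finsetSum _ _).trans (Finset.sup_le fun x _ => ?_)
  exact (totalDegree_mul _ _).trans (add_le_add (hP x.1) (hQ x.2))

private theorem cd_one (N : ℕ) : cd (1 : Polynomial (MvPolynomial τ ℤ)) N := by
  intro e
  rw [Polynomial.coeff_one]
  split_ifs
  · rw [totalDegree_one]
    exact Nat.zero_le _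
  · rw [totalDegree_zero]
    exact Nat.zero_le _

theorem cd_pow {P : Polynomial (MvPolynomial τ ℤ)} {N : ℕ} (hP : cd P N) (k : ℕ) :
    cd (P ^ k) (k * N) := by
  induction k with
  | zero =>
    rw [pow_zero]
    exact cd_one _
  | succ k ih =>
    rw [pow_succ, Nat.succ_mul]
    exact cd_mul ih hP

theorem cd_prod {ι : Type} (s : Finset ι) (P : ι → Polynomial (MvPolynomial τ ℤ)) (N : ι → ℕ)
    (hP : ∀ i ∈ s, cd (P i) (N i)) : cd (∏ i ∈ s, P i) (∑ i ∈ s, N i) := by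
  classical
  induction s using Finset.induction_on with
  | empty =>
    rw [Finset.prod_empty, Finset.sum_empty]
    exact cd_one _
  | insert a s ha ih =>
    rw [Finset.prod_insert ha, Finset.sum_insert ha]
    exact cd_mul (hP a (Finset.mem_insert_self a s))
      (ih fun i hi => hP i (Finset.mem_insert_of_mem hi))

theorem cd_C {p : MvPolynomial τ ℤ} {N : ℕ} (h : p.totalDegree ≤ N) : cd (Polynomial.C p) N := by
  intro e
  rw [Polynomial.coeff_C]
  split_ifs
  · exact h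
  · rw [totalDegree_zero]
    exact Nat.zero_le _

theorem cd_XC {p : MvPolynomial τ ℤ} {N : ℕ} (h : p.totalDegree ≤ N) :
    cd (Polynomial.X * Polynomial.C p) N := by
  intro e
  rw [Polynomial.coeff_mul_C, Polynomial.coeff_X]
  split_ifs
  · rw [one_mul]
    exact h
  · rw [zero_mul, totalDegree_zero]
    exact Nat.zero_le _

end cdsec

/-- evaluation of the coefficients at `ρ` -/
def ep {τ : Type} (ρ : τ → ℂ) : Polynomial (MvPolynomial τ ℤ) →+* Polynomial ℂ :=
  Polynomial.mapRingHom (aeval ρ : MvPolynomial τ ℤ →ₐ[ℤ] ℂ).toRingHom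

/-- the bound for the degrees of the relations -/
def DX (s C S : ℕ) : ℕ := 2 * C * (s + 2) ^ (s + 1) * S ^ s

/-- `f = (g_0 (ρ) + z g_1 (ρ)) / p (ρ)` with `g_0`, `g_1` of degree at most `S` -/
def Rp {τ : Type} (ρ : τ → ℂ) (p : MvPolynomial τ ℤ) (S : ℕ) (f : Polynomial ℂ)
    (G : Polynomial (MvPolynomial τ ℤ)) : Prop :=
  G.natDegree ≤ 1 ∧ cd G S ∧ f * Polynomial.C (aeval ρ p) = ep ρ G

/-- The group of these `f`. -/
def VX {τ : Type} (ρ : τ → ℂ) (p : MvPolynomial τ ℤ) (S : ℕ) : AddSubgroup (Polynomial ℂ) where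
  carrier := {f | ∃ G, Rp ρ p S f G}
  add_mem' := by
    rintro f g ⟨F, hF1, hF2, hF3⟩ ⟨G, hG1, hG2, hG3⟩
    refine ⟨F + G, Polynomial.natDegree_add_le_of_degree_le hF1 hG1, fun e => ?_, ?_⟩
    · rw [Polynomial.coeff_add]
      exact (totalDegree_add _ _).trans (max_le (hF2 e) (hG2 e))
    · rw [add_mul, hF3, hG3, map_add]
  zero_mem' := by
    refine ⟨0, ?_, fun e => ?_, ?_⟩
    · rw [Polynomial.natDegree_zero]
      exact Nat.zero_le _
    · rw [Polynomial.coeff_zero, totalDegree_zero]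
      exact Nat.zero_le _
    · rw [zero_mul, map_zero]
  neg_mem' := by
    rintro f ⟨F, hF1, hF2, hF3⟩
    refine ⟨-F, ?_, fun e => ?_, ?_⟩
    · rw [Polynomial.natDegree_neg]
      exact hF1
    · rw [Polynomial.coeff_neg, totalDegree_neg]
      exact hF2 e
    · rw [neg_mul, hF3, map_neg]

/-- PROOF. As `rel_count` in `B.lean`. -/
theorem relx_count (s C S : ℕ) (hC : 1 ≤ C) (hS : 1 ≤ S) :
    2 * (((s + 2) * DX s C S + 1) * (C * ((s + 2) * DX s C S * S + 1) ^ s)) ≤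
      (DX s C S + 1) ^ (s + 2) := by
  have h1 : (s + 2) * DX s C S + 1 ≤ (s + 2) * (DX s C S + 1) := by
    rw [mul_add, mul_one]
    omega
  have h2 : (s + 2) * DX s C S * S + 1 ≤ (s + 2) * S * (DX s C S + 1) := by
    have h3 : 1 ≤ (s + 2) * S := Nat.mul_pos (by omega) hS
    calc (s + 2) * DX s C S * S + 1 ≤ (s + 2) * DX s C S * S + (s + 2) * S :=
          Nat.add_le_add_left h3 _
      _ = (s + 2) * S * (DX s C S + 1) := by ring
  calc 2 * (((s + 2) * DX s C S + 1) * (C * ((s + 2) * DX s C S * S + 1) ^ s))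
      ≤ 2 * (((s + 2) * (DX s C S + 1)) * (C * ((s + 2) * S * (DX s C S + 1)) ^ s)) := by
        gcongr
    _ = (2 * C * (s + 2) ^ (s + 1) * S ^ s) * (DX s C S + 1) ^ (s + 1) := by
        rw [mul_pow, mul_pow]
        ring
    _ = DX s C S * (DX s C S + 1) ^ (s + 1) := rfl
    _ ≤ (DX s C S + 1) * (DX s C S + 1) ^ (s + 1) := Nat.mul_le_mul_right _ (Nat.le_succ _)
    _ = (DX s C S + 1) ^ (s + 2) := by ring

private def rel_x_M {τ : Type} {k : ℕ} (p : MvPolynomial τ ℤ)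
    (G : Fin k → Polynomial (MvPolynomial τ ℤ)) (K : ℕ) (c : Fin k → ℕ) :
    Polynomial (MvPolynomial τ ℤ) :=
  (∏ i, G i ^ c i) * Polynomial.C p ^ (K - ∑ i, c i)

private theorem rel_x_deg {τ : Type} {k : ℕ} (p : MvPolynomial τ ℤ)
    (G : Fin k → Polynomial (MvPolynomial τ ℤ)) (hG : ∀ i, (G i).natDegree ≤ 1) (K : ℕ)
    (c : Fin k → ℕ) (hc : ∑ i, c i ≤ K) : (rel_x_M p G K c).natDegree ≤ K := by
  unfold rel_x_M
  refine Polynomial.natDegree_mul_le.trans ?_
  have h1 : (Polynomial.C p ^ (K - ∑ i, c i)).natDegree = 0 := by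
    rw [← Polynomial.C_pow, Polynomial.natDegree_C]
  have h2 : (∏ i, G i ^ c i).natDegree ≤ ∑ i, c i := by
    refine (Polynomial.natDegree_prod_le _ _).trans (Finset.sum_le_sum fun i _ => ?_)
    refine Polynomial.natDegree_pow_le.trans ?_
    calc c i * (G i).natDegree ≤ c i * 1 := Nat.mul_le_mul_left _ (hG i)
      _ = c i := mul_one _
  rw [h1, add_zero]
  exact h2.trans hc

private theorem rel_x_cd {τ : Type} {k : ℕ} (p : MvPolynomial τ ℤ)
    (G : Fin k → Polynomial (MvPolynomial τ ℤ)) (S : ℕ) (hG : ∀ i, cd (G i) S)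
    (hp : p.totalDegree ≤ S) (K : ℕ) (c : Fin k → ℕ) (hc : ∑ i, c i ≤ K) :
    cd (rel_x_M p G K c) (K * S) := by
  unfold rel_x_M
  have h1 : cd (∏ i, G i ^ c i) (∑ i, c i * S) :=
    cd_prod _ _ _ fun i _ => cd_pow (hG i) (c i)
  have h2 : cd (Polynomial.C p ^ (K - ∑ i, c i)) ((K - ∑ i, c i) * S) :=
    cd_pow (cd_C hp) _
  have h3 := cd_mul h1 h2
  have h4 : ∑ i, c i * S + (K - ∑ i, c i) * S = K * S := by
    rw [← Finset.sum_mul, ← add_mul, Nat.add_sub_of_le hc]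
  rw [h4] at h3
  exact h3

private theorem rel_x_len {τ : Type} {k : ℕ} (p : MvPolynomial τ ℤ)
    (G : Fin k → Polynomial (MvPolynomial τ ℤ)) (H : ℝ) (hH : 1 ≤ H) (hp : len p ≤ H)
    (hL : ∀ i, pN len (G i) ≤ H) (K : ℕ) (c : Fin k → ℕ) (hc : ∑ i, c i ≤ K) :
    pN len (rel_x_M p G K c) ≤ H ^ K := by
  have hN := isNm_pN (isNm_len (σ := τ))
  unfold rel_x_M
  have h1 : pN len (∏ i, G i ^ c i) ≤ H ^ ∑ i, c i := by
    calc pN len (∏ i, G i ^ c i) ≤ ∏ i, pN len (G i ^ c i) := hN.prod_le _ _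
      _ ≤ ∏ i, H ^ c i := by
        refine Finset.prod_le_prod (fun i _ => hN.nn _) fun i _ => ?_
        exact (hN.pow_le _ _).trans (pow_le_pow_left₀ (hN.nn _) (hL i) _)
      _ = H ^ ∑ i, c i := by rw [Finset.prod_pow_eq_pow_sum]
  have h2 : pN len (Polynomial.C p ^ (K - ∑ i, c i)) ≤ H ^ (K - ∑ i, c i) := by
    refine (hN.pow_le _ _).trans (pow_le_pow_left₀ (hN.nn _) ?_ _)
    rw [pN_C isNm_len]
    exact hp
  refine (hN.mul _ _).trans ?_
  calc pN len (∏ i, G i ^ c i) * pN len (Polynomial.C p ^ (K - ∑ i, c i))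
      ≤ H ^ (∑ i, c i) * H ^ (K - ∑ i, c i) := mul_le_mul h1 h2 (hN.nn _) (by positivity)
    _ = H ^ K := by rw [← pow_add, Nat.add_sub_of_le hc]

private theorem rel_x_ep {τ : Type} {k : ℕ} (ρ : τ → ℂ) (p : MvPolynomial τ ℤ)
    (f : Fin k → Polynomial ℂ) (G : Fin k → Polynomial (MvPolynomial τ ℤ))
    (hG : ∀ i, f i * Polynomial.C (aeval ρ p) = ep ρ (G i)) (K : ℕ) (c : Fin k → ℕ)
    (hc : ∑ i, c i ≤ K) :
    ep ρ (rel_x_M p G K c) = (∏ i, f i ^ c i) * Polynomial.C (aeval ρ p) ^ K := by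
  unfold rel_x_M
  rw [map_mul, map_prod, map_pow]
  have h1 : ep ρ (Polynomial.C p) = Polynomial.C (aeval ρ p) := by
    unfold ep
    rw [Polynomial.coe_mapRingHom, Polynomial.map_C]
    rfl
  have h2 : ∏ i, ep ρ (G i ^ c i) = (∏ i, f i ^ c i) * Polynomial.C (aeval ρ p) ^ ∑ i, c i := by
    rw [← Finset.prod_pow_eq_pow_sum, ← Finset.prod_mul_distrib]
    refine Finset.prod_congr rfl fun i _ => ?_
    rw [map_pow, ← hG, mul_pow]
  rw [h1, h2, mul_assoc, ← pow_add, Nat.add_sub_of_le hc]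

private theorem rel_x_aeval {k D : ℕ} (t : (Fin k → Fin (D + 1)) → ℤ)
    (f : Fin k → Polynomial ℂ) :
    aeval f (rel_E t) = ∑ c, ((t c : ℤ) : Polynomial ℂ) * ∏ i, f i ^ (c i : ℕ) := by
  unfold rel_E
  rw [map_sum]
  refine Finset.sum_congr rfl fun c _ => ?_
  rw [aeval_monomial, Finsupp.prod_fintype _ _ (fun i => pow_zero _)]
  simp only [rel_mon_apply]
  rw [eq_intCast]

private theorem rel_x_zero {τ : Type} (ρ : τ → ℂ) (W : Polynomial (MvPolynomial τ ℤ))
    (h : ∀ e, aeval ρ (W.coeff e) = 0) : ep ρ W = 0 := by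
  unfold ep
  rw [Polynomial.coe_mapRingHom]
  ext e
  rw [Polynomial.coeff_map, Polynomial.coeff_zero]
  exact h e

/-- PROOF. Siegel's lemma `rel_siegel` in `B.lean`. `D = DX s C S`, `N = (s + 2) D S`, `Q`, `Φ` from
`hE N`. Unknowns `t c`, `c : Fin (s + 2) → Fin (D + 1)`, `M c = (∏ i, G i ^ c i) * C p ^ ((s + 2) D -
∑ c)`, of degree at most `(s + 2) D`, `cd (M c) N`, length `pN len (M c) ≤ H ^ ((s + 2) D)`
(`isNm_pN isNm_len`). Equations: `∑ c, t c * Φ ((M c).coeff e) q = 0` for `e ≤ (s + 2) D`, `q`;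
`relx_count`. Then `Φ ((∑ c, t c • M c).coeff e) = 0`, so `ep ρ (∑ c, t c • M c) = 0`, which is
`(aeval f (rel_E t)) * C (aeval ρ p) ^ ((s + 2) D)`. `E = rel_E t`. -/
theorem rel_x {τ : Type} (ρ : τ → ℂ) (s C S : ℕ) (hC : 1 ≤ C) (hE : Emb ρ s C)
    (hS : 1 ≤ S) (p : MvPolynomial τ ℤ) (hp : aeval ρ p ≠ 0) (hpd : p.totalDegree ≤ S) (H : ℝ)
    (hH : 1 ≤ H) (hpl : len p ≤ H) (f : Fin (s + 2) → Polynomial ℂ)
    (G : Fin (s + 2) → Polynomial (MvPolynomial τ ℤ)) (hG : ∀ i, Rp ρ p S (f i) (G i))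
    (hL : ∀ i, pN len (G i) ≤ H) :
    ∃ E : MvPolynomial (Fin (s + 2)) ℤ, E ≠ 0 ∧ (∀ i, E.degreeOf i ≤ DX s C S) ∧
      (∀ m, |((E.coeff m : ℤ) : ℝ)| ≤ ((DX s C S : ℝ) + 1) ^ (s + 2) *
        (H ^ ((s + 2) * DX s C S) * (C : ℝ) ^ ((s + 2) * DX s C S * S))) ∧ aeval f E = 0 := by
  classical
  have hcount := relx_count s C S hC hS
  obtain ⟨D, hD⟩ : ∃ D, D = DX s C S := ⟨_, rfl⟩
  rw [← hD] at hcount ⊢
  obtain ⟨K, hK⟩ : ∃ K, K = (s + 2) * D := ⟨_, rfl⟩
  rw [← hK] at hcount ⊢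
  obtain ⟨Q, Φ, hQ1, hQ2, hΦ⟩ := hE (K * S)
  have hC1 : (1 : ℝ) ≤ C := by exact_mod_cast hC
  have hck : ∀ c : Fin (s + 2) → Fin (D + 1), ∑ i, (c i : ℕ) ≤ K := by
    intro c
    calc ∑ i, (c i : ℕ) ≤ ∑ _i : Fin (s + 2), D :=
          Finset.sum_le_sum fun i _ => Nat.lt_succ_iff.1 (c i).2
      _ = K := by rw [Finset.sum_const, Finset.card_univ, Fintype.card_fin, smul_eq_mul, hK]
  obtain ⟨M, hM⟩ : ∃ M : (Fin (s + 2) → Fin (D + 1)) → Polynomial (MvPolynomial τ ℤ),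
      M = fun c => rel_x_M p G K (fun i => (c i : ℕ)) := ⟨_, rfl⟩
  have hMdeg : ∀ c, (M c).natDegree ≤ K := by
    intro c
    rw [hM]
    exact rel_x_deg p G (fun i => (hG i).1) K _ (hck c)
  have hMcd : ∀ c, cd (M c) (K * S) := by
    intro c
    rw [hM]
    exact rel_x_cd p G S (fun i => (hG i).2.1) hpd K _ (hck c)
  have hMlen : ∀ c, pN len (M c) ≤ H ^ K := by
    intro c
    rw [hM]
    exact rel_x_len p G H hH hpl hL K _ (hck c)
  have hMep : ∀ c, ep ρ (M c) = (∏ i, f i ^ (c i : ℕ)) * Polynomial.C (aeval ρ p) ^ K := by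
    intro c
    rw [hM]
    exact rel_x_ep ρ p f G (fun i => (hG i).2.2) K _ (hck c)
  obtain ⟨t, ht0, ht1, ht2⟩ := rel_siegel
    (α := Fin (K + 1) × Fin Q) (β := Fin (s + 2) → Fin (D + 1))
    (fun a c => Φ ((M c).coeff (a.1 : ℕ)) a.2) (H ^ K * (C : ℝ) ^ (K * S))
    (one_le_mul_of_one_le_of_one_le (one_le_pow₀ hH) (one_le_pow₀ hC1))
    (fun a c => by
      refine ((hΦ _ (hMcd c _)).2 a.2).trans ?_
      refine mul_le_mul_of_nonneg_right ?_ (by positivity)
      exact (coeff_le_pN isNm_len (M c) _).trans (hMlen c))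
    (by
      rw [Fintype.card_prod, Fintype.card_fun, Fintype.card_fin, Fintype.card_fin,
        Fintype.card_fin, Fintype.card_fin]
      refine le_trans ?_ hcount
      exact Nat.mul_le_mul_left _ (Nat.mul_le_mul_left _ hQ2))
    (by
      rw [Fintype.card_prod, Fintype.card_fin, Fintype.card_fin]
      exact Nat.mul_pos (Nat.succ_pos _) hQ1)
  have hcard : (Fintype.card (Fin (s + 2) → Fin (D + 1)) : ℝ) = ((D : ℝ) + 1) ^ (s + 2) := by
    rw [Fintype.card_fun, Fintype.card_fin, Fintype.card_fin]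
    push_cast
    rfl
  rw [hcard] at ht2
  refine ⟨rel_E t, ?_, ?_, ?_, ?_⟩
  · intro h
    apply ht0
    funext c
    rw [← rel_E_coeff t c, h, coeff_zero]
    rfl
  · intro i
    rw [degreeOf_le_iff]
    intro m hm
    obtain ⟨c, rfl, -⟩ := rel_E_coeff' t m (mem_support_iff.1 hm)
    exact Nat.lt_succ_iff.1 (c i).2
  · intro m
    by_cases hm : (rel_E t).coeff m = 0
    · rw [hm, Int.cast_zero, abs_zero]
      positivity
    · obtain ⟨c, -, h⟩ := rel_E_coeff' t m hm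
      rw [h]
      exact ht2 c
  · obtain ⟨W, hW⟩ : ∃ W : Polynomial (MvPolynomial τ ℤ), W = ∑ c, t c • M c := ⟨_, rfl⟩
    have hWc : ∀ e, W.coeff e = ∑ c, t c • (M c).coeff e := by
      intro e
      rw [hW, Polynomial.finsetSum_coeff]
      refine Finset.sum_congr rfl fun c _ => ?_
      rw [Polynomial.coeff_smul]
    have hW0 : ep ρ W = 0 := by
      refine rel_x_zero ρ W fun e => ?_
      by_cases he : e ≤ K
      · refine (hΦ (W.coeff e) ?_).1 ?_
        · rw [hWc]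
          refine totalDegree_finsetSum_le fun c _ => ?_
          exact (totalDegree_smul_le _ _).trans (hMcd c e)
        · funext q
          have h1 := ht1 (⟨e, Nat.lt_succ_iff.2 he⟩, q)
          dsimp only at h1
          rw [hWc, map_sum, Finset.sum_apply, Pi.zero_apply, ← h1]
          refine Finset.sum_congr rfl fun c _ => ?_
          rw [map_zsmul, Pi.smul_apply, smul_eq_mul, mul_comm]
      · rw [hWc]
        have : ∑ c, t c • (M c).coeff e = 0 := by
          refine Finset.sum_eq_zero fun c _ => ?_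
          rw [Polynomial.coeff_eq_zero_of_natDegree_lt (lt_of_le_of_lt (hMdeg c) (by omega)),
            smul_zero]
        rw [this, map_zero]
    have hmul : aeval f (rel_E t) * Polynomial.C (aeval ρ p) ^ K = 0 := by
      rw [← hW0, hW, map_sum, rel_x_aeval, Finset.sum_mul]
      refine Finset.sum_congr rfl fun c _ => ?_
      rw [map_zsmul, hMep, zsmul_eq_mul, mul_assoc]
    rcases mul_eq_zero.1 hmul with h | h
    · exact h
    · exfalso
      exact pow_ne_zero K (Polynomial.C_ne_zero.2 hp) h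

private theorem relx_Q_totalDegree {σ : Type} [Fintype σ] {k : ℕ} (E : MvPolynomial σ ℤ)
    (h : ∀ i, E.degreeOf i ≤ k) :
    (map (Int.castRingHom ℚ) E).totalDegree ≤ Fintype.card σ * k := by
  refine Finset.sup_le fun m hm => ?_
  have hm' : m ∈ E.support := by
    rw [mem_support_iff] at hm ⊢
    intro h0
    apply hm
    rw [coeff_map, h0, map_zero]
  rw [Finsupp.sum_fintype _ _ fun _ => rfl]
  calc ∑ i, m i ≤ ∑ _i : σ, k :=
        Finset.sum_le_sum fun i _ => (monomial_le_degreeOf i hm').trans (h i)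
    _ = Fintype.card σ * k := by rw [Finset.sum_const, Finset.card_univ, smul_eq_mul]

private theorem relx_Q_aeval {σ : Type} (f : σ → Polynomial ℂ) (E : MvPolynomial σ ℤ) :
    aeval f (map (Int.castRingHom ℚ) E) = aeval f E := by
  induction E using MvPolynomial.induction_on with
  | C a => simp
  | add p q hp hq => rw [map_add, map_add, map_add, hp, hq]
  | mul_X p i hp => rw [map_mul, map_mul, map_mul, hp, map_X, aeval_X, aeval_X]

/-- PROOF. `rel_x` with large `H`; `E.totalDegree ≤ ∑ degreeOf ≤ (s + 2) DX`; see the proof of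
`alg_main` in `B.lean`. -/
theorem relx_Q {τ : Type} (ρ : τ → ℂ) (s C S : ℕ) (hC : 1 ≤ C) (hE : Emb ρ s C)
    (hS : 1 ≤ S) (p : MvPolynomial τ ℤ) (hp : aeval ρ p ≠ 0) (hpd : p.totalDegree ≤ S)
    (f : Fin (s + 2) → Polynomial ℂ) (hf : ∀ i, f i ∈ VX ρ p S) :
    ∃ E : MvPolynomial (Fin (s + 2)) ℚ, E ≠ 0 ∧ E.totalDegree ≤ (s + 2) * DX s C S ∧
      aeval f E = 0 := by
  choose G hG using hf
  have hnn : ∀ i, 0 ≤ pN len (G i) := fun i => pN_nonneg isNm_len (G i)
  have hsum : 0 ≤ ∑ i, pN len (G i) := Finset.sum_nonneg fun i _ => hnn i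
  have hp0 : 0 ≤ len p := len_nonneg p
  obtain ⟨E, h1, h2, -, h4⟩ := rel_x ρ s C S hC hE hS p hp hpd (1 + len p + ∑ i, pN len (G i))
    (by linarith) (by linarith) f G hG (fun i => by
      have := Finset.single_le_sum (fun i _ => hnn i) (Finset.mem_univ i)
      linarith)
  refine ⟨map (Int.castRingHom ℚ) E, ?_, ?_, ?_⟩
  · intro h0
    apply h1
    apply map_injective (Int.castRingHom ℚ) Int.cast_injective
    rw [h0, map_zero]
  · have h5 := relx_Q_totalDegree E h2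
    rwa [Fintype.card_fin] at h5
  · rw [relx_Q_aeval, h4]

end

end Pool.Agent.Helper29.CN
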