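import Pool.Agent.Helper29.CN.A
import Pool.Agent.Helper29.CN.X1

/-!
# Project CN, matrix criterion: algebra
-/

namespace Pool.Agent.Helper29.CN

open MvPolynomial Pool.Agent.Helper14.LC

noncomputable section

/-- PROOF. As `nullst` in `A.lean`. `B = Algebra.adjoin ℚ (Set.range (pm ρ) ∪ Set.range x)` is a
`ℚ`-algebra of finite type, `W j = ∑ k, aeval ρ (A j k) * x k` in `B`. If the ideal of `B` generated
by the `W j` is not `⊤`, let `m` be a maximal ideal above it, `φ : B ⧸ m → ℂ`, `X i` and `y k` the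
images of `ρ i` (a unit of `B`) and `x k`. -/
theorem nullst_x {σ : Type} [Fintype σ] {K M : ℕ} (ρ : σ → ℂ) (h0 : ∀ i, ρ i ≠ 0)
    (x : Fin K → ℂ) (k0 : Fin K) (hx : x k0 = 1) (A : Fin M → Fin K → MvPolynomial σ ℤ)
    (h : ∀ (X : σ → ℂ) (y : Fin K → ℂ), (∀ i, X i ≠ 0) → y k0 = 1 →
      ∃ j, ∑ k, aeval X (A j k) * y k ≠ 0) :
    ∃ b : Fin M → ℂ, (∀ j, b j ∈ Algebra.adjoin ℚ (Set.range (pm ρ) ∪ Set.range x)) ∧
      ∑ j, b j * ∑ k, aeval ρ (A j k) * x k = 1 := by
  classical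
  set B := Algebra.adjoin ℚ (Set.range (pm ρ) ∪ Set.range x) with hB
  have hmρ : ∀ i, ρ i ∈ B := fun i => Algebra.subset_adjoin (Or.inl ⟨Sum.inl i, rfl⟩)
  have hmρ' : ∀ i, (ρ i)⁻¹ ∈ B := fun i => Algebra.subset_adjoin (Or.inl ⟨Sum.inr i, rfl⟩)
  have hmx : ∀ k, x k ∈ B := fun k => Algebra.subset_adjoin (Or.inr ⟨k, rfl⟩)
  let ρB : σ → B := fun i => ⟨ρ i, hmρ i⟩
  let xB : Fin K → B := fun k => ⟨x k, hmx k⟩
  let W : Fin M → B := fun j => ∑ k, aeval ρB (A j k) * xB k
  have hco : ∀ p : MvPolynomial σ ℤ, ((aeval ρB p : B) : ℂ) = aeval ρ p := by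
    intro p
    have h1 := MvPolynomial.map_aeval (R := ℤ) ρB (B.val : B →ₐ[ℚ] ℂ).toRingHom p
    rw [aeval_def, ← MvPolynomial.coe_eval₂Hom]
    change (B.val : B →ₐ[ℚ] ℂ).toRingHom (aeval ρB p) = _
    rw [h1]
    congr 1
  have hW : ∀ j, ((W j : B) : ℂ) = ∑ k, aeval ρ (A j k) * x k := by
    intro j
    simp only [W]
    rw [AddSubmonoidClass.coe_finsetSum]
    refine Finset.sum_congr rfl fun k _ => ?_
    rw [MulMemClass.coe_mul, hco]
  by_cases htop : Ideal.span (Set.range W) = ⊤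
  · rw [Ideal.eq_top_iff_one, Ideal.mem_span_range_iff_exists_fun] at htop
    obtain ⟨b, hb⟩ := htop
    refine ⟨fun j => (b j : ℂ), fun j => (b j).2, ?_⟩
    have h2 := congrArg (Subtype.val) hb
    rw [AddSubmonoidClass.coe_finsetSum] at h2
    simp only [MulMemClass.coe_mul, hW] at h2
    exact h2
  · exfalso
    obtain ⟨m, hm, hle⟩ := Ideal.exists_le_maximal _ htop
    let _ := Ideal.Quotient.field m
    have hfg : B.FG := Subalgebra.fg_def.2
      ⟨_, (Set.finite_range (pm ρ)).union (Set.finite_range x), rfl⟩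
    have hft0 : Algebra.FiniteType ℚ B := B.fg_iff_finiteType.1 hfg
    have hft : Algebra.FiniteType ℚ (B ⧸ m) := inferInstance
    have hfin : Module.Finite ℚ (B ⧸ m) :=
      finite_of_finite_type_of_isJacobsonRing ℚ _
    have halg : Algebra.IsAlgebraic ℚ (B ⧸ m) := inferInstance
    let φ : (B ⧸ m) →ₐ[ℚ] ℂ := IsAlgClosed.lift
    let ψ : B →+* ℂ := φ.toRingHom.comp (Ideal.Quotient.mk m)
    obtain ⟨j, hj⟩ := h (fun i => ψ (ρB i)) (fun k => ψ (xB k)) (fun i h3 => by
      have h4 : ρB i * ⟨(ρ i)⁻¹, hmρ' i⟩ = 1 := by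
        apply Subtype.ext
        change ρ i * (ρ i)⁻¹ = 1
        exact mul_inv_cancel₀ (h0 i)
      have h5 := congrArg ψ h4
      rw [map_mul, h3, zero_mul, map_one] at h5
      exact zero_ne_one h5) (by
      have h4 : xB k0 = 1 := Subtype.ext hx
      change ψ (xB k0) = 1
      rw [h4, map_one])
    apply hj
    have h6 : ∀ p : MvPolynomial σ ℤ, aeval (fun i => ψ (ρB i)) p = ψ (aeval ρB p) := by
      intro p
      rw [MvPolynomial.map_aeval (R := ℤ) ρB ψ p, aeval_def, ← MvPolynomial.coe_eval₂Hom]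
      congr 1
      refine MvPolynomial.ringHom_ext (fun r => ?_) (fun i => ?_)
      · simp
      · simp
    have h7 : ∑ k, aeval (fun i => ψ (ρB i)) (A j k) * ψ (xB k) = ψ (W j) := by
      simp only [W]
      rw [map_sum]
      refine Finset.sum_congr rfl fun k _ => ?_
      rw [map_mul, h6]
    rw [h7]
    have h8 : W j ∈ m := hle (Ideal.subset_span ⟨j, rfl⟩)
    change φ (Ideal.Quotient.mk m (W j)) = 0
    rw [Ideal.Quotient.eq_zero_iff_mem.2 h8, map_zero]

/-- PROOF. `finSuccEquiv` and `Polynomial.map_injective` for the injective `aeval θ`. -/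
theorem cons_ind {s : ℕ} (θ : Fin s → ℂ) (hθ : AlgebraicIndependent ℚ θ) :
    AlgebraicIndependent ℚ (Fin.cons Polynomial.X fun j => Polynomial.C (θ j) :
      Fin (s + 1) → Polynomial ℂ) := by
  have h1 : (aeval (Fin.cons Polynomial.X fun j => Polynomial.C (θ j) :
      Fin (s + 1) → Polynomial ℂ) : MvPolynomial (Fin (s + 1)) ℚ →ₐ[ℚ] Polynomial ℂ) =
      (Polynomial.mapAlgHom (aeval θ : MvPolynomial (Fin s) ℚ →ₐ[ℚ] ℂ)).comp
        (finSuccEquiv ℚ s : MvPolynomial (Fin (s + 1)) ℚ →ₐ[ℚ]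
          Polynomial (MvPolynomial (Fin s) ℚ)) := by
    refine MvPolynomial.algHom_ext fun i => ?_
    rw [aeval_X]
    change _ = (Polynomial.mapAlgHom (aeval θ : MvPolynomial (Fin s) ℚ →ₐ[ℚ] ℂ))
      (finSuccEquiv ℚ s (X i))
    refine Fin.cases ?_ (fun j => ?_) i
    · rw [finSuccEquiv_X_zero, Fin.cons_zero]
      simp
    · rw [finSuccEquiv_X_succ, Fin.cons_succ]
      simp
  change Function.Injective (aeval (Fin.cons Polynomial.X fun j => Polynomial.C (θ j) :
      Fin (s + 1) → Polynomial ℂ) : MvPolynomial (Fin (s + 1)) ℚ →ₐ[ℚ] Polynomial ℂ)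
  rw [h1]
  have h2 : Function.Injective (Polynomial.mapAlgHom (aeval θ : MvPolynomial (Fin s) ℚ →ₐ[ℚ] ℂ)) :=
    Polynomial.map_injective _ hθ
  exact h2.comp (finSuccEquiv ℚ s).injective

/-- PROOF. As `alg_ind` in `A.lean`. Let `B` be the integral closure of `adjoin ℚ (range w)` in `R`
(as a `ℚ`-algebra); it contains the `t i`, so its transcendence degree is at least `k`
(`AlgebraicIndependent.lift_cardinalMk_le_trdeg`, `AlgebraicIndependent.of_comp`), and it is algebraic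
over `adjoin ℚ (range w)`: `isTranscendenceBasis_of_lift_le_trdeg_of_finite`. -/
theorem alg_ind_x {R : Type} [CommRing R] [IsDomain R] [Algebra ℚ R] {k : ℕ} (w t : Fin k → R)
    (ht : AlgebraicIndependent ℚ t)
    (h : ∀ i, IsIntegral (Algebra.adjoin ℚ (Set.range w)) (t i)) :
    AlgebraicIndependent ℚ w := by
  have hwB : ∀ x ∈ Algebra.adjoin ℚ (Set.range w),
      x ∈ (integralClosure (Algebra.adjoin ℚ (Set.range w)) R).restrictScalars ℚ := fun x hx =>
    isIntegral_algebraMap (R := Algebra.adjoin ℚ (Set.range w)) (x := ⟨x, hx⟩)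
  let B : Subalgebra ℚ R :=
    (integralClosure (Algebra.adjoin ℚ (Set.range w)) R).restrictScalars ℚ
  let w' : Fin k → B := fun i => ⟨w i, hwB _ (Algebra.subset_adjoin (Set.mem_range_self i))⟩
  let t' : Fin k → B := fun i => ⟨t i, h i⟩
  have ht' : AlgebraicIndependent ℚ t' := AlgebraicIndependent.of_comp B.val ht
  have hle : Algebra.adjoin ℚ (Set.range w) ≤ (Algebra.adjoin ℚ (Set.range w')).map B.val := by
    rw [Algebra.adjoin_le_iff]
    rintro _ ⟨i, rfl⟩
    exact ⟨w' i, Algebra.subset_adjoin (Set.mem_range_self i), rfl⟩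
  have hmem : ∀ a : Algebra.adjoin ℚ (Set.range w),
      (⟨a.1, hwB _ a.2⟩ : B) ∈ Algebra.adjoin ℚ (Set.range w') := by
    intro a
    obtain ⟨b, hb, hba⟩ := hle a.2
    have h1 : b = ⟨a.1, hwB _ a.2⟩ := Subtype.ext hba
    rw [← h1]
    exact hb
  let φ : Algebra.adjoin ℚ (Set.range w) →+* Algebra.adjoin ℚ (Set.range w') :=
    { toFun := fun a => ⟨⟨a.1, hwB _ a.2⟩, hmem a⟩
      map_one' := rfl
      map_mul' := fun _ _ => rfl
      map_zero' := rfl
      map_add' := fun _ _ => rfl }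
  have hint : ∀ x : B, IsIntegral (Algebra.adjoin ℚ (Set.range w')) x := by
    intro x
    have h1 : IsIntegral (Algebra.adjoin ℚ (Set.range w)) x.1 := x.2
    have h2 : IsIntegral (Algebra.adjoin ℚ (Set.range w')) (RingHom.id R x.1) :=
      IsIntegral.map_of_comp_eq φ (RingHom.id R) rfl h1
    have h3 : Function.Injective (algebraMap B R) := Subtype.val_injective
    exact (isIntegral_algebraMap_iff h3).1 h2
  have hI : Algebra.IsIntegral (Algebra.adjoin ℚ (Set.range w')) B := ⟨hint⟩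
  have halg : Algebra.IsAlgebraic (Algebra.adjoin ℚ (Set.range w')) B := inferInstance
  have hw' : AlgebraicIndependent ℚ w' :=
    (Algebra.IsAlgebraic.isTranscendenceBasis_of_lift_le_trdeg_of_finite ℚ w'
      ht'.lift_cardinalMk_le_trdeg).1
  exact hw'.map' (f := B.val) Subtype.val_injective

private theorem clear_x_mv {k : ℕ} (f : MvPolynomial (Fin k) ℚ) :
    ∃ (b : ℤ) (g : MvPolynomial (Fin k) ℤ), b ≠ 0 ∧
      map (Int.castRingHom ℚ) g = C (b : ℚ) * f := by
  induction f using MvPolynomial.induction_on with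
  | C a =>
    refine ⟨a.den, C a.num, by exact_mod_cast a.den_nz, ?_⟩
    rw [map_C, ← C_mul]
    congr 1
    rw [eq_intCast]
    push_cast
    rw [mul_comm]
    exact (Rat.mul_den_eq_num a).symm
  | add p q hp hq =>
    obtain ⟨b, g, hb, hg⟩ := hp
    obtain ⟨b', g', hb', hg'⟩ := hq
    refine ⟨b * b', C b' * g + C b * g', mul_ne_zero hb hb', ?_⟩
    rw [map_add, map_mul, map_mul, hg, hg', map_C, map_C, eq_intCast, eq_intCast]
    push_cast
    rw [C_mul]
    ring
  | mul_X p i hp =>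
    obtain ⟨b, g, hb, hg⟩ := hp
    refine ⟨b, g * X i, hb, ?_⟩
    rw [map_mul, hg, map_X, mul_assoc]

private theorem clear_x_poly {k : ℕ} (P : Polynomial (MvPolynomial (Fin k) ℚ)) :
    ∃ (b : ℤ) (m : Polynomial (MvPolynomial (Fin k) ℤ)), b ≠ 0 ∧
      m.map (map (Int.castRingHom ℚ)) = Polynomial.C (C (b : ℚ)) * P := by
  induction P using Polynomial.induction_on' with
  | add p q hp hq =>
    obtain ⟨b, g, hb, hg⟩ := hp
    obtain ⟨b', g', hb', hg'⟩ := hq
    refine ⟨b * b', Polynomial.C (C b') * g + Polynomial.C (C b) * g', mul_ne_zero hb hb', ?_⟩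
    rw [Polynomial.map_add, Polynomial.map_mul, Polynomial.map_mul, hg, hg', Polynomial.map_C,
      Polynomial.map_C, map_C, map_C, eq_intCast, eq_intCast]
    push_cast
    rw [C_mul, Polynomial.C_mul]
    ring
  | monomial n a =>
    obtain ⟨b, g, hb, hg⟩ := clear_x_mv a
    refine ⟨b, Polynomial.monomial n g, hb, ?_⟩
    rw [Polynomial.map_monomial, hg, Polynomial.C_mul_monomial]

/-- PROOF. As `clear` in `A.lean`. -/
theorem clear_x {R : Type} [CommRing R] [Algebra ℚ R] {k : ℕ} (w : Fin k → R) (x : R)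
    (h : IsIntegral (Algebra.adjoin ℚ (Set.range w)) x) :
    ∃ (m : Polynomial (MvPolynomial (Fin k) ℤ)) (b : ℤ), b ≠ 0 ∧ m.leadingCoeff = C b ∧
      Polynomial.eval₂ (aeval w : MvPolynomial (Fin k) ℤ →ₐ[ℤ] R).toRingHom x m = 0 := by
  have hinj : Function.Injective (map (σ := Fin k) (Int.castRingHom ℚ)) :=
    MvPolynomial.map_injective _ Int.cast_injective
  rw [Algebra.adjoin_range_eq_range_aeval] at h
  obtain ⟨p, hp, hpx⟩ := h
  obtain ⟨φ, hφ⟩ : ∃ φ : MvPolynomial (Fin k) ℚ →ₐ[ℚ] (aeval (R := ℚ) w).range,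
      φ = (aeval (R := ℚ) w).rangeRestrict := ⟨_, rfl⟩
  have hsurj : Function.Surjective (φ : MvPolynomial (Fin k) ℚ →+* (aeval (R := ℚ) w).range) := by
    rw [hφ]
    exact AlgHom.rangeRestrict_surjective _
  obtain ⟨q, hq⟩ := Polynomial.map_surjective _ hsurj p
  obtain ⟨P, hP, -, hPm⟩ := Polynomial.lifts_and_natDegree_eq_and_monic
    ((Polynomial.mem_lifts p).2 ⟨q, hq⟩) hp
  obtain ⟨b, m, hb, hm⟩ := clear_x_poly P
  refine ⟨m, b, hb, ?_, ?_⟩
  · apply hinj
    rw [← Polynomial.leadingCoeff_map_of_injective hinj, hm, Polynomial.leadingCoeff_mul,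
      Polynomial.leadingCoeff_C, hPm.leadingCoeff, mul_one, map_C, eq_intCast]
  · have h1 : (aeval w : MvPolynomial (Fin k) ℤ →ₐ[ℤ] R).toRingHom =
        (aeval (R := ℚ) w).toRingHom.comp (map (Int.castRingHom ℚ)) := by
      refine MvPolynomial.ringHom_ext (fun r => ?_) (fun i => ?_)
      · simp
      · simp
    rw [h1, ← Polynomial.eval₂_map, hm, Polynomial.eval₂_mul]
    have h2 : Polynomial.eval₂ (aeval (R := ℚ) w).toRingHom x P = 0 := by
      rw [← hpx, ← hP, Polynomial.eval₂_map, hφ]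
      rfl
    rw [h2, mul_zero]

/-- PROOF. `noether_linear` for `R = Polynomial ℂ`, `k = s + 1`, `u = 0` and `v` (reindexed by
`Fintype.equivFin`). `alg_ind_x` with `t = Fin.cons X (C ∘ θ)`, `cons_ind`; independence over `ℤ`
follows from the one over `ℚ` (`AlgebraicIndependent.restrictScalars` or directly). `clear_x` for
`x = X`. -/
theorem alg_x {ι : Type} [Fintype ι] {s D : ℕ} (V : AddSubgroup (Polynomial ℂ))
    (hrel : ∀ f : Fin (s + 2) → Polynomial ℂ, (∀ i, f i ∈ V) →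
      ∃ E : MvPolynomial (Fin (s + 2)) ℚ, E ≠ 0 ∧ E.totalDegree ≤ D ∧ aeval f E = 0)
    (v : ι → Polynomial ℂ) (hv : ∀ i, v i ∈ V) (θ : Fin s → ℂ) (hθ : AlgebraicIndependent ℚ θ)
    (hθv : ∀ j, Polynomial.C (θ j) ∈ Algebra.adjoin ℚ (Set.range v))
    (hX : Polynomial.X ∈ Algebra.adjoin ℚ (Set.range v)) :
    ∃ γ : Fin (s + 1) → ι → ℕ, (∀ i j, γ i j ≤ D) ∧
      AlgebraicIndependent ℤ (fun i => -∑ j, (γ i j : Polynomial ℂ) * v j) ∧
      ∃ (m : Polynomial (MvPolynomial (Fin (s + 1)) ℤ)) (b : ℤ), b ≠ 0 ∧ m.leadingCoeff = C b ∧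
        Polynomial.eval₂ (aeval (fun i => -∑ j, (γ i j : Polynomial ℂ) * v j) :
          MvPolynomial (Fin (s + 1)) ℤ →ₐ[ℤ] Polynomial ℂ).toRingHom Polynomial.X m = 0 := by
  classical
  obtain ⟨e⟩ : Nonempty (Fin (Fintype.card ι) ≃ ι) := ⟨(Fintype.equivFin ι).symm⟩
  obtain ⟨γ, hγ, hint⟩ := noether_linear V hrel (Fintype.card ι) (fun _ => 0) (fun j => v (e j))
    (fun _ => V.zero_mem) (fun j => hv _)
  have hw : (fun i : Fin (s + 1) => (0 : Polynomial ℂ) -
      ∑ j, (γ i j : Polynomial ℂ) * v (e j)) =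
      fun i => -∑ j, ((γ i (e.symm j) : ℕ) : Polynomial ℂ) * v j := by
    funext i
    rw [zero_sub]
    congr 1
    exact Fintype.sum_equiv e _ _ fun j => by rw [Equiv.symm_apply_apply]
  have hadj : Algebra.adjoin ℚ (Set.range v) ≤
      Algebra.adjoin ℚ ((Set.range fun _ : Fin (s + 1) => (0 : Polynomial ℂ)) ∪
        Set.range fun j => v (e j)) := by
    refine Algebra.adjoin_mono ?_
    rintro _ ⟨i, rfl⟩
    exact Or.inr ⟨e.symm i, by simp only [Equiv.apply_symm_apply]⟩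
  have hint' : ∀ x ∈ Algebra.adjoin ℚ (Set.range v),
      IsIntegral (Algebra.adjoin ℚ (Set.range fun i : Fin (s + 1) =>
        -∑ j, ((γ i (e.symm j) : ℕ) : Polynomial ℂ) * v j)) x := by
    intro x hx
    have h1 := hint x (hadj hx)
    rw [hw] at h1
    exact h1
  have hind : AlgebraicIndependent ℚ (fun i : Fin (s + 1) =>
      -∑ j, ((γ i (e.symm j) : ℕ) : Polynomial ℂ) * v j) := by
    refine alg_ind_x _ (Fin.cons Polynomial.X fun j => Polynomial.C (θ j)) (cons_ind θ hθ)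
      fun i => ?_
    refine Fin.cases ?_ (fun j => ?_) i
    · rw [Fin.cons_zero]
      exact hint' _ hX
    · rw [Fin.cons_succ]
      exact hint' _ (hθv j)
  exact ⟨fun i j => γ i (e.symm j), fun i j => hγ _ _,
    hind.restrictScalars (by exact Int.cast_injective), clear_x _ _ (hint' _ hX)⟩

private theorem exists_E_x_hom {s : ℕ} (w : Fin (s + 1) → Polynomial ℂ)
    (E : MvPolynomial (Fin (s + 2)) ℤ) :
    aeval (Fin.cons Polynomial.X w : Fin (s + 2) → Polynomial ℂ) E =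
      Polynomial.eval₂RingHom (aeval w :
          MvPolynomial (Fin (s + 1)) ℤ →ₐ[ℤ] Polynomial ℂ).toRingHom
          Polynomial.X (finSuccEquiv ℤ (s + 1) E) := by
  have h : (aeval (Fin.cons Polynomial.X w : Fin (s + 2) → Polynomial ℂ) :
      MvPolynomial (Fin (s + 2)) ℤ →ₐ[ℤ] Polynomial ℂ).toRingHom =
      (Polynomial.eval₂RingHom (aeval w :
          MvPolynomial (Fin (s + 1)) ℤ →ₐ[ℤ] Polynomial ℂ).toRingHom
          Polynomial.X).comp (finSuccEquiv ℤ (s + 1)).toRingEquiv.toRingHom := by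
    refine MvPolynomial.ringHom_ext (fun r => ?_) (fun i => ?_)
    · have h1 : (C r : MvPolynomial (Fin (s + 2)) ℤ) = ((r : ℤ) : MvPolynomial (Fin (s + 2)) ℤ) := by
        simp
      rw [h1, map_intCast, map_intCast]
    · refine Fin.cases ?_ (fun j => ?_) i
      · change aeval (Fin.cons Polynomial.X w : Fin (s + 2) → Polynomial ℂ) (X 0) =
          Polynomial.eval₂ _ Polynomial.X (finSuccEquiv ℤ (s + 1) (X 0))
        rw [finSuccEquiv_X_zero, Polynomial.eval₂_X, aeval_X, Fin.cons_zero]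
      · change aeval (Fin.cons Polynomial.X w : Fin (s + 2) → Polynomial ℂ)
            (X j.succ) = Polynomial.eval₂ _ Polynomial.X (finSuccEquiv ℤ (s + 1) (X j.succ))
        rw [finSuccEquiv_X_succ, Polynomial.eval₂_C, aeval_X, Fin.cons_succ]
        exact (aeval_X w j).symm
  exact RingHom.congr_fun h E

/-- PROOF. The last part of the proof of `exists_E` in `B.lean`: `common_factor` with
`φ = eval₂RingHom (aeval w) X` for `m` and `finSuccEquiv ℤ (s + 1) E0`. -/
theorem exists_E_x {s : ℕ} (w : Fin (s + 1) → Polynomial ℂ) (hw : AlgebraicIndependent ℤ w)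
    (m : Polynomial (MvPolynomial (Fin (s + 1)) ℤ)) (b : ℤ) (hb : b ≠ 0)
    (hlead : m.leadingCoeff = C b)
    (hm0 : Polynomial.eval₂ (aeval w : MvPolynomial (Fin (s + 1)) ℤ →ₐ[ℤ] Polynomial ℂ).toRingHom
      Polynomial.X m = 0) (E0 : MvPolynomial (Fin (s + 2)) ℤ) (hE0 : E0 ≠ 0)
    (hEa : aeval (Fin.cons Polynomial.X w : Fin (s + 2) → Polynomial ℂ) E0 = 0) :
    ∃ (E G : MvPolynomial (Fin (s + 2)) ℤ) (a : ℤ), E * G = E0 ∧
      aeval (Fin.cons Polynomial.X w : Fin (s + 2) → Polynomial ℂ) E = 0 ∧ a ≠ 0 ∧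
      (finSuccEquiv ℤ (s + 1) E).leadingCoeff = C a := by
  have hm : m ≠ 0 := by
    rintro rfl
    rw [Polynomial.leadingCoeff_zero] at hlead
    exact hb (C_injective _ _ (hlead.symm.trans (map_zero _).symm))
  have hq : finSuccEquiv ℤ (s + 1) E0 ≠ 0 := by
    intro h0
    exact hE0 ((finSuccEquiv ℤ (s + 1)).injective (h0.trans (map_zero _).symm))
  obtain ⟨e, he0, ⟨m', hm'⟩, ⟨G', hG'⟩⟩ := common_factor
    (Polynomial.eval₂RingHom (aeval w :
          MvPolynomial (Fin (s + 1)) ℤ →ₐ[ℤ] Polynomial ℂ).toRingHom Polynomial.X) (by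
      intro a ha
      rw [Polynomial.coe_eval₂RingHom, Polynomial.eval₂_C] at ha
      exact (injective_iff_map_eq_zero _).1 hw a ha) m (finSuccEquiv ℤ (s + 1) E0) hm hq
    hm0 (by rw [← exists_E_x_hom, hEa])
  have hEG : (finSuccEquiv ℤ (s + 1)).symm e * (finSuccEquiv ℤ (s + 1)).symm G' = E0 := by
    rw [← map_mul, ← hG', AlgEquiv.symm_apply_apply]
  have hlc : e.leadingCoeff * m'.leadingCoeff = C b := by
    rw [← Polynomial.leadingCoeff_mul, ← hm', hlead]
  have hCb : (C b : MvPolynomial (Fin (s + 1)) ℤ) ≠ 0 := by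
    intro h0
    exact hb (C_injective _ _ (h0.trans (map_zero _).symm))
  have hne1 : e.leadingCoeff ≠ 0 := by
    intro h0
    rw [h0, zero_mul] at hlc
    exact hCb hlc.symm
  have hne2 : m'.leadingCoeff ≠ 0 := by
    intro h0
    rw [h0, mul_zero] at hlc
    exact hCb hlc.symm
  have htd : e.leadingCoeff.totalDegree = 0 := by
    have h1 := totalDegree_mul_of_isDomain hne1 hne2
    rw [hlc, totalDegree_C] at h1
    omega
  refine ⟨(finSuccEquiv ℤ (s + 1)).symm e, (finSuccEquiv ℤ (s + 1)).symm G',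
    coeff 0 e.leadingCoeff, hEG, ?_, ?_, ?_⟩
  · rw [exists_E_x_hom, AlgEquiv.apply_symm_apply]
    exact he0
  · intro h0
    apply hne1
    rw [totalDegree_eq_zero_iff_eq_C.1 htd, h0, map_zero]
  · rw [AlgEquiv.apply_symm_apply]
    exact totalDegree_eq_zero_iff_eq_C.1 htd

end

end Pool.Agent.Helper29.CN
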