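import Pool.Agent.Helper29.CN.F
import Pool.Agent.Helper29.CN.X2
import Pool.Agent.Helper29.CN.X3

/-!
# Project CN, matrix criterion: estimates
-/

namespace Pool.Agent.Helper29.CN

open MvPolynomial Pool.Agent.Helper14.LC

noncomputable section

/-- the bound of `sup_bound` -/
def BS (k D : ℕ) (H R : ℝ) : ℝ :=
  ((D + 1) * (R + (D * (D + 1) ^ k + D + 1 : ℕ)) ^ D) ^ k *
    ((D + 1) ^ k * H * ((D * (D + 1) ^ k + D + 1 : ℕ) : ℝ) ^ (k * D))

/-- PROOF. The second half of the proof of `core` in `F.lean` (from the comment on the polynomial at ε = 0 on),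
with `W = c`, `- q` for `q`: the polynomial `p` with `p.eval z = aeval (Fin.cons z c) E` has leading
coefficient `a`; `lc_le`; `sup_bound`, `schw` for `s ↦ aeval (Fin.cons z0 (c + s (z0 q / η))) E`
(if `η = 0` then `q = 0`: contradiction). -/
theorem fin_est {k D : ℕ} (E G : MvPolynomial (Fin (k + 1)) ℤ) (a : ℤ) (ha : a ≠ 0)
    (hlc : (finSuccEquiv ℤ k E).leadingCoeff = C a) (h0 : E * G ≠ 0)
    (hD : ∀ i, (E * G).degreeOf i ≤ D) (H : ℝ) (hH : ∀ m, |(((E * G).coeff m : ℤ) : ℝ)| ≤ H)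
    (c q : Fin k → ℂ)
    (hev : ∀ z : ℂ, aeval (Fin.cons z (fun i => c i + z * q i) : Fin (k + 1) → ℂ) E = 0)
    (R : ℝ) (hR1 : 1 ≤ R) (hR : ∀ i, ‖c i‖ + 1 ≤ R) (η : ℝ) (hη0 : 0 ≤ η) (hη1 : η ≤ 1)
    (hq : ∀ i, ‖q i‖ ≤ η) : 1 ≤ 4 * BS (k + 1) D H R * η := by
  classical
  -- the polynomial at `η = 0`
  let p : Polynomial ℂ := (finSuccEquiv ℤ k E).map
    (aeval c : MvPolynomial (Fin k) ℤ →ₐ[ℤ] ℂ).toRingHom
  have hpa : (aeval c : MvPolynomial (Fin k) ℤ →ₐ[ℤ] ℂ).toRingHom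
      (finSuccEquiv ℤ k E).leadingCoeff = (a : ℂ) := by
    rw [hlc]
    show aeval c (C a) = (a : ℂ)
    rw [aeval_C]
    simp
  have ha' : (a : ℂ) ≠ 0 := by exact_mod_cast ha
  have hp : p.leadingCoeff = (a : ℂ) := by
    rw [Polynomial.leadingCoeff_map_of_leadingCoeff_ne_zero _ (by rw [hpa]; exact ha'), hpa]
  have hpe : ∀ z, p.eval z = aeval (Fin.cons z c : Fin (k + 1) → ℂ) E := by
    intro z
    have h2 : ((Polynomial.evalRingHom z).comp (Polynomial.mapRingHom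
        (aeval c : MvPolynomial (Fin k) ℤ →ₐ[ℤ] ℂ).toRingHom)).comp
          (finSuccEquiv ℤ k : MvPolynomial (Fin (k + 1)) ℤ →+* _) =
        (aeval (Fin.cons z c : Fin (k + 1) → ℂ) : MvPolynomial (Fin (k + 1)) ℤ →ₐ[ℤ] ℂ).toRingHom := by
      apply ringHom_ext
      · intro c
        simp
      · intro j
        refine Fin.cases ?_ (fun i => ?_) j
        · simp [finSuccEquiv_X_zero]
        · simp [finSuccEquiv_X_succ]
    exact RingHom.congr_fun h2 E
  have hp1 : 1 ≤ ‖p.leadingCoeff‖ := by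
    rw [hp, Complex.norm_intCast]
    have : 1 ≤ |a| := Int.one_le_abs ha
    exact_mod_cast this
  obtain ⟨z0, hz0, hz1⟩ := lc_le p hp1
  rw [hpe] at hz1
  rcases hη0.eq_or_lt with hη | hη
  · exfalso
    have h1 : ∀ i, q i = 0 := by
      intro i
      have := hq i
      rw [← hη] at this
      exact norm_le_zero_iff.1 this
    have h2 := hev z0
    have h3 : (fun i => c i + z0 * q i) = c := by
      funext i
      rw [h1, mul_zero, add_zero]
    rw [h3] at h2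
    rw [h2, norm_zero] at hz1
    linarith
  -- the function of `s`
  let P : Polynomial ℂ := aeval (Fin.cons (Polynomial.C z0)
    (fun i => Polynomial.C (c i) + Polynomial.X * Polynomial.C (z0 * q i / η)) :
      Fin (k + 1) → Polynomial ℂ) E
  have hP : ∀ s : ℂ, P.eval s = aeval (Fin.cons z0 (fun i => c i + s * (z0 * q i / η)) :
      Fin (k + 1) → ℂ) E := by
    intro s
    have h2 : (Polynomial.evalRingHom s).comp (aeval (Fin.cons (Polynomial.C z0)
        (fun i => Polynomial.C (c i) + Polynomial.X * Polynomial.C (z0 * q i / η)) :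
        Fin (k + 1) → Polynomial ℂ) : MvPolynomial (Fin (k + 1)) ℤ →ₐ[ℤ] _).toRingHom =
        (aeval (Fin.cons z0 (fun i => c i + s * (z0 * q i / η)) : Fin (k + 1) → ℂ) :
          MvPolynomial (Fin (k + 1)) ℤ →ₐ[ℤ] ℂ).toRingHom := by
      apply ringHom_ext
      · intro c
        simp
      · intro j
        refine Fin.cases ?_ (fun i => ?_) j
        · simp
        · simp
          ring
    exact RingHom.congr_fun h2 E
  have hBB : ∀ s : ℂ, ‖s‖ ≤ 1 → ‖P.eval s‖ ≤ BS (k + 1) D H R := by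
    intro s hs
    rw [hP]
    refine sup_bound E G h0 hD H hH R hR1 _ ?_
    intro j
    refine Fin.cases ?_ (fun i => ?_) j
    · rw [Fin.cons_zero]
      exact hz0.trans hR1
    · rw [Fin.cons_succ]
      have h1 : ‖s * (z0 * q i / η)‖ ≤ 1 := by
        rw [norm_mul, norm_div, norm_mul, Complex.norm_real, Real.norm_of_nonneg hη.le]
        have h2 : ‖z0‖ * ‖q i‖ / η ≤ 1 := by
          rw [div_le_one hη]
          calc ‖z0‖ * ‖q i‖ ≤ 1 * η := mul_le_mul hz0 (hq i) (norm_nonneg _) zero_le_one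
            _ = η := by rw [one_mul]
        calc ‖s‖ * (‖z0‖ * ‖q i‖ / η) ≤ 1 * 1 := mul_le_mul hs h2 (by positivity) zero_le_one
          _ = 1 := one_mul 1
      calc ‖c i + s * (z0 * q i / η)‖ ≤ ‖c i‖ + ‖s * (z0 * q i / η)‖ := norm_add_le _ _
        _ ≤ ‖c i‖ + 1 := by linarith
        _ ≤ R := hR i
  have hs := schw (fun s => P.eval s) P.differentiable (BS (k + 1) D H R) hBB η hη.le hη1
  have hF1 : P.eval (η : ℂ) = 0 := by
    rw [hP, ← hev z0]
    congr 2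
    congr 1
    funext i
    have : (η : ℂ) ≠ 0 := by exact_mod_cast hη.ne'
    field_simp
  have hF0 : P.eval 0 = aeval (Fin.cons z0 c : Fin (k + 1) → ℂ) E := by
    rw [hP]
    congr 2
    congr 1
    funext i
    ring
  simp only [hF1, hF0, zero_sub, norm_neg] at hs
  exact hz1.trans hs

/-- bound for the coefficients in `w` -/
def gX (s C N : ℕ) : ℕ := (s + 2) * DX s C (2 * N + 1)

/-- bound for the lengths of `w` -/
def hX (s C t N : ℕ) (L : ℝ) : ℝ := 1 + (t + 2 * L) * gX s C N * L ^ 3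

/-- bound for the coefficients of the relation -/
def HX (s C t N : ℕ) (L : ℝ) : ℝ :=
  ((DX s C (2 * N + 1) : ℝ) + 1) ^ (s + 2) * (hX s C t N L ^ ((s + 2) * DX s C (2 * N + 1)) *
    (C : ℝ) ^ ((s + 2) * DX s C (2 * N + 1) * (2 * N + 1)))

/-- bound for the constants in `w` -/
def RX (s C t N : ℕ) (L r0 : ℝ) : ℝ := 1 + (t + 2 * L) * gX s C N * r0

private def est_x_P (a : ℕ) (f : ℝ → ℕ → ℝ) : Prop :=
  ∃ K : ℝ, 0 ≤ K ∧ ∀ S : ℝ, 1 ≤ S → ∀ N : ℕ, (N : ℝ) ≤ S →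
    0 ≤ f S N ∧ f S N ≤ Real.exp (K * S ^ a)

private theorem est_x_const {a : ℕ} (c : ℝ) (hc : 0 ≤ c) : est_x_P a fun _ _ => c := by
  refine ⟨c, hc, fun S hS N _ => ⟨hc, ?_⟩⟩
  have h1 : (1 : ℝ) ≤ S ^ a := one_le_pow₀ hS
  have h2 : c ≤ c * S ^ a := le_mul_of_one_le_right hc h1
  have h3 := Real.add_one_le_exp (c * S ^ a)
  linarith

private theorem est_x_mul {a : ℕ} {f g : ℝ → ℕ → ℝ} (hf : est_x_P a f) (hg : est_x_P a g) :
    est_x_P a fun S N => f S N * g S N := by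
  obtain ⟨K, hK, h⟩ := hf
  obtain ⟨L, hL, h'⟩ := hg
  refine ⟨K + L, by positivity, fun S hS N hN => ?_⟩
  obtain ⟨h1, h2⟩ := h S hS N hN
  obtain ⟨h3, h4⟩ := h' S hS N hN
  refine ⟨mul_nonneg h1 h3, ?_⟩
  rw [add_mul, Real.exp_add]
  exact mul_le_mul h2 h4 h3 (Real.exp_pos _).le

private theorem est_x_add {a : ℕ} {f g : ℝ → ℕ → ℝ} (hf : est_x_P a f) (hg : est_x_P a g) :
    est_x_P a fun S N => f S N + g S N := by
  obtain ⟨K, hK, h⟩ := hf
  obtain ⟨L, hL, h'⟩ := hg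
  refine ⟨K + L + 1, by positivity, fun S hS N hN => ?_⟩
  obtain ⟨h1, h2⟩ := h S hS N hN
  obtain ⟨h3, h4⟩ := h' S hS N hN
  refine ⟨add_nonneg h1 h3, ?_⟩
  have hp : (1 : ℝ) ≤ S ^ a := one_le_pow₀ hS
  have e1 : Real.exp (K * S ^ a) ≤ Real.exp ((K + L) * S ^ a) :=
    Real.exp_le_exp.2 (by nlinarith)
  have e2 : Real.exp (L * S ^ a) ≤ Real.exp ((K + L) * S ^ a) :=
    Real.exp_le_exp.2 (by nlinarith)
  have e3 : (2 : ℝ) ≤ Real.exp (1 * S ^ a) := by
    have := Real.add_one_le_exp (1 * S ^ a)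
    linarith
  calc f S N + g S N ≤ 2 * Real.exp ((K + L) * S ^ a) := by linarith
    _ ≤ Real.exp (1 * S ^ a) * Real.exp ((K + L) * S ^ a) :=
        mul_le_mul_of_nonneg_right e3 (Real.exp_pos _).le
    _ = Real.exp ((K + L + 1) * S ^ a) := by rw [← Real.exp_add]; congr 1; ring

private theorem est_x_pow {a : ℕ} {f : ℝ → ℕ → ℝ} (hf : est_x_P a f) (k : ℕ) :
    est_x_P a fun S N => f S N ^ k := by
  induction k with
  | zero => simpa using est_x_const (a := a) 1 zero_le_one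
  | succ k ih => simpa only [pow_succ] using est_x_mul ih hf

private theorem est_x_mono {a b : ℕ} (hab : a ≤ b) {f : ℝ → ℕ → ℝ} (hf : est_x_P a f) :
    est_x_P b f := by
  obtain ⟨K, hK, h⟩ := hf
  refine ⟨K, hK, fun S hS N hN => ⟨(h S hS N hN).1, (h S hS N hN).2.trans ?_⟩⟩
  refine Real.exp_le_exp.2 (mul_le_mul_of_nonneg_left ?_ hK)
  exact pow_le_pow_right₀ hS hab

private theorem est_x_S : est_x_P 1 fun S _ => S := by
  refine ⟨1, zero_le_one, fun S hS N _ => ⟨by linarith, ?_⟩⟩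
  have := Real.add_one_le_exp (1 * S ^ 1)
  rw [one_mul, pow_one] at this ⊢
  linarith

private theorem est_x_le {a : ℕ} {f g : ℝ → ℕ → ℝ} (hg : est_x_P a g)
    (h : ∀ S : ℝ, 1 ≤ S → ∀ N : ℕ, (N : ℝ) ≤ S → 0 ≤ f S N ∧ f S N ≤ g S N) : est_x_P a f := by
  obtain ⟨K, hK, h'⟩ := hg
  exact ⟨K, hK, fun S hS N hN => ⟨(h S hS N hN).1, (h S hS N hN).2.trans (h' S hS N hN).2⟩⟩

private theorem est_x_DX_le (s C : ℕ) (S : ℝ) (N : ℕ) (hN : (N : ℝ) ≤ S) (hS : 1 ≤ S) :
    (DX s C (2 * N + 1) : ℝ) ≤ 2 * C * ((s : ℝ) + 2) ^ (s + 1) * 3 ^ s * S ^ s := by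
  simp only [DX]
  push_cast
  rw [mul_assoc _ ((3 : ℝ) ^ s), ← mul_pow]
  refine mul_le_mul_of_nonneg_left ?_ (by positivity)
  exact pow_le_pow_left₀ (by positivity) (by linarith) s

private theorem est_x_D (s C : ℕ) : est_x_P 1 fun _ N => (DX s C (2 * N + 1) : ℝ) := by
  refine est_x_le (est_x_mul (est_x_const (2 * C * ((s : ℝ) + 2) ^ (s + 1) * 3 ^ s)
    (by positivity)) (est_x_pow est_x_S s)) fun S hS N hN => ⟨by positivity, ?_⟩
  exact est_x_DX_le s C S N hN hS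

private theorem est_x_exp (c0 : ℝ) (hc0 : 0 ≤ c0) : est_x_P 1 fun S _ => Real.exp (c0 * S) :=
  ⟨c0, hc0, fun S _ N _ => ⟨(Real.exp_pos _).le, by rw [pow_one]⟩⟩

private theorem est_x_powD (s C c : ℕ) {f : ℝ → ℕ → ℝ} (hf : est_x_P 1 f) :
    est_x_P (s + 1) fun S N => f S N ^ (c * DX s C (2 * N + 1)) := by
  obtain ⟨K, hK, h⟩ := hf
  refine ⟨K * (c * (2 * C * ((s : ℝ) + 2) ^ (s + 1) * 3 ^ s)), by positivity,
    fun S hS N hN => ?_⟩
  obtain ⟨h1, h2⟩ := h S hS N hN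
  refine ⟨pow_nonneg h1 _, ?_⟩
  refine (pow_le_pow_left₀ h1 h2 _).trans ?_
  rw [← Real.exp_nat_mul]
  refine Real.exp_le_exp.2 ?_
  have h3 := est_x_DX_le s C S N hN hS
  have h4 : 0 ≤ c * (K * S) := by positivity
  calc ((c * DX s C (2 * N + 1) : ℕ) : ℝ) * (K * S ^ 1)
      = c * (K * S) * (DX s C (2 * N + 1) : ℝ) := by push_cast; ring
    _ ≤ c * (K * S) * (2 * C * ((s : ℝ) + 2) ^ (s + 1) * 3 ^ s * S ^ s) :=
        mul_le_mul_of_nonneg_left h3 h4
    _ = _ := by ring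

private theorem est_x_powDN (s C c : ℕ) :
    est_x_P (s + 1) fun _ N => (C : ℝ) ^ (c * DX s C (2 * N + 1) * (2 * N + 1)) := by
  refine ⟨C * (c * (2 * C * ((s : ℝ) + 2) ^ (s + 1) * 3 ^ s) * 3), by positivity,
    fun S hS N hN => ?_⟩
  refine ⟨by positivity, ?_⟩
  have h0 : (C : ℝ) ≤ Real.exp C := by
    have := Real.add_one_le_exp (C : ℝ)
    linarith
  refine (pow_le_pow_left₀ (Nat.cast_nonneg C) h0 _).trans ?_
  rw [← Real.exp_nat_mul]
  refine Real.exp_le_exp.2 ?_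
  have h3 := est_x_DX_le s C S N hN hS
  have h4 : (2 * N + 1 : ℝ) ≤ 3 * S := by linarith
  calc ((c * DX s C (2 * N + 1) * (2 * N + 1) : ℕ) : ℝ) * C
      = C * (c * (DX s C (2 * N + 1) : ℝ) * (2 * N + 1)) := by push_cast; ring
    _ ≤ C * (c * (2 * C * ((s : ℝ) + 2) ^ (s + 1) * 3 ^ s * S ^ s) * (3 * S)) := by
        gcongr
    _ = _ := by ring

/-- PROOF. As `est` in `F.lean` (the same kind of calculus for functions of `S` and `N ≤ S`, `S ≥ 1`
real): `DX s C (2 N + 1) ≤ c S ^ s`, `L = exp (c0 S)`; all the factors are at most `exp (c S)` or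
powers of such numbers with exponents at most `c S ^ s`. -/
theorem est_x (s C t : ℕ) (c0 r0 : ℝ) (hc0 : 0 ≤ c0) (hr0 : 1 ≤ r0) :
    ∃ K0 : ℝ, 0 ≤ K0 ∧ ∀ S : ℝ, 1 ≤ S → ∀ N : ℕ, (N : ℝ) ≤ S →
      4 * BS (s + 2) (DX s C (2 * N + 1)) (HX s C t N (Real.exp (c0 * S)))
        (RX s C t N (Real.exp (c0 * S)) r0) * (Real.exp (c0 * S) * gX s C N) ≤
          Real.exp (K0 * S ^ (s + 1)) ∧
      Real.exp (c0 * S) * gX s C N ≤ Real.exp (K0 * S ^ (s + 1)) := by
  have h1s : 1 ≤ s + 1 := by omega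
  have hc : ∀ {a : ℕ} (c : ℝ), 0 ≤ c → est_x_P a fun _ _ => c := fun c h => est_x_const c h
  have hL := est_x_exp c0 hc0
  have hD := est_x_D s C
  have hD1 : est_x_P 1 fun _ N => (DX s C (2 * N + 1) : ℝ) + 1 :=
    est_x_add hD (hc 1 zero_le_one)
  have hT : est_x_P 1 fun _ N => (DX s C (2 * N + 1) : ℝ) *
      ((DX s C (2 * N + 1) : ℝ) + 1) ^ (s + 2) + DX s C (2 * N + 1) + 1 :=
    est_x_add (est_x_add (est_x_mul hD (est_x_pow hD1 _)) hD) (hc 1 zero_le_one)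
  have hg : est_x_P 1 fun _ N => (gX s C N : ℝ) := by
    have h := est_x_mul (hc ((s : ℝ) + 2) (by positivity)) hD
    have h2 : (fun (_ : ℝ) N => (gX s C N : ℝ)) =
        fun (_ : ℝ) N => ((s : ℝ) + 2) * (DX s C (2 * N + 1) : ℝ) := by
      funext _ N
      simp only [gX]
      push_cast
      ring
    rw [h2]
    exact h
  have htL : est_x_P 1 fun S _ => (t : ℝ) + 2 * Real.exp (c0 * S) :=
    est_x_add (hc t (Nat.cast_nonneg t)) (est_x_mul (hc 2 (by norm_num)) hL)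
  have hh : est_x_P 1 fun S N => hX s C t N (Real.exp (c0 * S)) :=
    est_x_add (hc 1 zero_le_one) (est_x_mul (est_x_mul htL hg) (est_x_pow hL 3))
  have hR : est_x_P 1 fun S N => RX s C t N (Real.exp (c0 * S)) r0 :=
    est_x_add (hc 1 zero_le_one) (est_x_mul (est_x_mul htL hg) (hc r0 (by linarith)))
  have hH : est_x_P (s + 1) fun S N => HX s C t N (Real.exp (c0 * S)) :=
    est_x_mul (est_x_pow (est_x_mono h1s hD1) (s + 2))
      (est_x_mul (est_x_powD s C (s + 2) hh) (est_x_powDN s C (s + 2)))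
  have hRT : est_x_P 1 fun S N => RX s C t N (Real.exp (c0 * S)) r0 +
      ((DX s C (2 * N + 1) : ℝ) * ((DX s C (2 * N + 1) : ℝ) + 1) ^ (s + 2) +
        DX s C (2 * N + 1) + 1) := est_x_add hR hT
  have hRD : est_x_P (s + 1) fun S N => (RX s C t N (Real.exp (c0 * S)) r0 +
      ((DX s C (2 * N + 1) : ℝ) * ((DX s C (2 * N + 1) : ℝ) + 1) ^ (s + 2) +
        DX s C (2 * N + 1) + 1)) ^ (DX s C (2 * N + 1)) := by
    simpa only [one_mul] using est_x_powD s C 1 hRT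
  have hB : est_x_P (s + 1) fun S N => BS (s + 2) (DX s C (2 * N + 1))
      (HX s C t N (Real.exp (c0 * S))) (RX s C t N (Real.exp (c0 * S)) r0) := by
    have h := est_x_mul (est_x_pow (est_x_mul (est_x_mono h1s hD1) hRD) (s + 2))
      (est_x_mul (est_x_mul (est_x_pow (est_x_mono h1s hD1) (s + 2)) hH)
        (est_x_powD s C (s + 2) hT))
    obtain ⟨K, hK, h⟩ := h
    refine ⟨K, hK, fun S hS N hN => ?_⟩
    have h1 := h S hS N hN
    simp only [BS]
    push_cast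
    exact h1
  have hLg : est_x_P (s + 1) fun S N => Real.exp (c0 * S) * gX s C N :=
    est_x_mono h1s (est_x_mul hL hg)
  obtain ⟨K, hK, h⟩ := est_x_mul (est_x_mul (hc 4 (by norm_num)) hB) hLg
  obtain ⟨L, hL, h'⟩ := hLg
  refine ⟨K + L, by positivity, fun S hS N hN => ⟨?_, ?_⟩⟩
  · refine (h S hS N hN).2.trans (Real.exp_le_exp.2 ?_)
    exact mul_le_mul_of_nonneg_right (by linarith) (by positivity)
  · refine (h' S hS N hN).2.trans (Real.exp_le_exp.2 ?_)
    exact mul_le_mul_of_nonneg_right (by linarith) (by positivity)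

private def fam_x_idx {σ : Type} [Fintype σ] {N : ℕ} (α : σ → Fin (N + 1)) : σ →₀ ℕ :=
  Finsupp.equivFunOnFinite.symm (fun i => (α i : ℕ))

open Classical in
private theorem fam_x_eval {σ : Type} [Fintype σ] {N : ℕ} (x : σ → ℂ) (Q : MvPolynomial σ ℤ)
    (hQ : Q.totalDegree ≤ N) :
    aeval x Q = ∑ α : σ → Fin (N + 1), ((coeff (fam_x_idx α) Q : ℤ) : ℂ) *
      ∏ i, x i ^ (α i : ℕ) := by
  have hinj : Function.Injective (fam_x_idx : (σ → Fin (N + 1)) → σ →₀ ℕ) := by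
    intro α β h
    funext i
    have h1 := DFunLike.congr_fun h i
    exact Fin.ext h1
  have h1 : ∑ α : σ → Fin (N + 1), ((coeff (fam_x_idx α) Q : ℤ) : ℂ) *
      ∏ i, x i ^ (α i : ℕ) =
      ∑ m ∈ Finset.univ.image (fam_x_idx : (σ → Fin (N + 1)) → σ →₀ ℕ),
        ((coeff m Q : ℤ) : ℂ) * ∏ i, x i ^ (m i) := by
    rw [Finset.sum_image (fun a _ b _ h => hinj h)]
    rfl
  rw [h1, aeval_def, eval₂_eq']
  refine Finset.sum_subset ?_ ?_
  · intro m hm
    rw [Finset.mem_image]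
    have h2 : ∀ i, m i < N + 1 := by
      intro i
      have h3 := le_totalDegree hm
      have h4 : m i ≤ m.sum fun _ e => e := by
        rw [Finsupp.sum_fintype _ _ (fun _ => rfl)]
        exact Finset.single_le_sum (f := fun i => m i) (fun _ _ => Nat.zero_le _)
          (Finset.mem_univ i)
      omega
    refine ⟨fun i => ⟨m i, h2 i⟩, Finset.mem_univ _, ?_⟩
    ext i
    rfl
  · intro m _ hm
    rw [notMem_support_iff] at hm
    rw [hm]
    simp

/-- PROOF. As `fam` in `F.lean`: consider the coefficient vectors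
`Fin K × (σ → Fin (N + 1)) → ℂ` of the rows `A` with `P A`, and a linearly independent subset with the
same span; for `t` in `T` the map `A ↦ ∑ k, aeval t.1 (A k) * t.2 k` is linear in the vector. -/
theorem fam_x {σ : Type} [Fintype σ] (N K : ℕ) (P : (Fin K → MvPolynomial σ ℤ) → Prop)
    (hP : ∀ A, P A → ∀ k, (A k).totalDegree ≤ N) (T : Set ((σ → ℂ) × (Fin K → ℂ)))
    (h : ∀ t ∈ T, ∃ A, P A ∧ ∑ k, aeval t.1 (A k) * t.2 k ≠ 0) :
    ∃ (M : ℕ) (A : Fin M → Fin K → MvPolynomial σ ℤ), M ≤ K * (N + 1) ^ Fintype.card σ ∧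
      (∀ i, P (A i)) ∧ ∀ t ∈ T, ∃ i, ∑ k, aeval t.1 (A i k) * t.2 k ≠ 0 := by
  classical
  let v : (Fin K → MvPolynomial σ ℤ) → (Fin K × (σ → Fin (N + 1)) → ℂ) :=
    fun A p => ((coeff (fam_x_idx p.2) (A p.1) : ℤ) : ℂ)
  obtain ⟨b, hbs, hspan, hli⟩ := exists_linearIndependent ℂ (v '' {A | P A})
  have hfin : Finite b := hli.finite
  have hft : Fintype b := Fintype.ofFinite b
  have hcard : Fintype.card b ≤ K * (N + 1) ^ Fintype.card σ := by
    have h1 := hli.fintype_card_le_finrank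
    rw [Module.finrank_fintype_fun_eq_card, Fintype.card_prod, Fintype.card_fun, Fintype.card_fin,
      Fintype.card_fin] at h1
    exact h1
  let e : Fin (Fintype.card b) ≃ b := (Fintype.equivFin b).symm
  have hch : ∀ i, ∃ A, P A ∧ v A = (e i : Fin K × (σ → Fin (N + 1)) → ℂ) := fun i => hbs (e i).2
  choose A hAP hAv using hch
  refine ⟨Fintype.card b, A, hcard, hAP, fun t ht => ?_⟩
  by_contra hcon
  push Not at hcon
  let L : (Fin K × (σ → Fin (N + 1)) → ℂ) →ₗ[ℂ] ℂ :=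
    ∑ p : Fin K × (σ → Fin (N + 1)), ((∏ i, t.1 i ^ (p.2 i : ℕ)) * t.2 p.1) • LinearMap.proj p
  have hL : ∀ B, P B → L (v B) = ∑ k, aeval t.1 (B k) * t.2 k := by
    intro B hB
    simp only [L, LinearMap.sum_apply, LinearMap.smul_apply, LinearMap.proj_apply, smul_eq_mul]
    rw [Fintype.sum_prod_type]
    refine Finset.sum_congr rfl fun k _ => ?_
    rw [fam_x_eval t.1 (B k) (hP B hB k), Finset.sum_mul]
    refine Finset.sum_congr rfl fun α _ => ?_
    simp only [v]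
    ring
  have hb0 : b ⊆ LinearMap.ker L := by
    intro y hy
    have h1 : y = v (A (e.symm ⟨y, hy⟩)) := by
      rw [hAv, Equiv.apply_symm_apply]
    rw [SetLike.mem_coe, LinearMap.mem_ker, h1, hL _ (hAP _)]
    exact hcon _
  obtain ⟨A0, hA0, hne⟩ := h t ht
  apply hne
  rw [← hL A0 hA0]
  have h2 : v A0 ∈ Submodule.span ℂ b := by
    rw [hspan]
    exact Submodule.subset_span ⟨A0, hA0, rfl⟩
  exact (Submodule.span_le.mpr hb0) h2

end

end Pool.Agent.Helper29.CN
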