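import Pool.Agent.Helper29.CN.X4

/-!
# Project CN, matrix criterion
-/

namespace Pool.Agent.Helper29.CN

open MvPolynomial Pool.Agent.Helper14.LC

noncomputable section

section Rpsec

variable {τ : Type} {ρ : τ → ℂ} {p : MvPolynomial τ ℤ} {S : ℕ}

private theorem Rp_zero : Rp ρ p S 0 0 := by
  refine ⟨by simp, fun e => by simp, by simp⟩

private theorem Rp_add {f g : Polynomial ℂ} {F G : Polynomial (MvPolynomial τ ℤ)}
    (h : Rp ρ p S f F) (h' : Rp ρ p S g G) : Rp ρ p S (f + g) (F + G) := by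
  refine ⟨?_, fun e => ?_, ?_⟩
  · exact (Polynomial.natDegree_add_le _ _).trans (max_le h.1 h'.1)
  · rw [Polynomial.coeff_add]
    exact (totalDegree_add _ _).trans (max_le (h.2.1 e) (h'.2.1 e))
  · rw [add_mul, h.2.2, h'.2.2, map_add]

private theorem Rp_neg {f : Polynomial ℂ} {F : Polynomial (MvPolynomial τ ℤ)}
    (h : Rp ρ p S f F) : Rp ρ p S (-f) (-F) := by
  refine ⟨?_, fun e => ?_, ?_⟩
  · rw [Polynomial.natDegree_neg]
    exact h.1
  · rw [Polynomial.coeff_neg, totalDegree_neg]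
    exact h.2.1 e
  · rw [neg_mul, h.2.2, map_neg]

private theorem Rp_nat {f : Polynomial ℂ} {F : Polynomial (MvPolynomial τ ℤ)}
    (h : Rp ρ p S f F) (k : ℕ) : Rp ρ p S ((k : Polynomial ℂ) * f)
      ((k : Polynomial (MvPolynomial τ ℤ)) * F) := by
  induction k with
  | zero => simpa using Rp_zero
  | succ k ih =>
    rw [Nat.cast_succ, Nat.cast_succ, add_mul, add_mul, one_mul, one_mul]
    exact Rp_add ih h

private theorem Rp_sum {ι : Type} (s : Finset ι) {f : ι → Polynomial ℂ}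
    {F : ι → Polynomial (MvPolynomial τ ℤ)} (h : ∀ i, Rp ρ p S (f i) (F i)) :
    Rp ρ p S (∑ i ∈ s, f i) (∑ i ∈ s, F i) := by
  classical
  induction s using Finset.induction_on with
  | empty => simpa using Rp_zero
  | insert a s ha ih =>
    rw [Finset.sum_insert ha, Finset.sum_insert ha]
    exact Rp_add (h a) ih

private theorem ep_C (q : MvPolynomial τ ℤ) :
    ep ρ (Polynomial.C q) = Polynomial.C (aeval ρ q) := by
  unfold ep
  rw [Polynomial.coe_mapRingHom, Polynomial.map_C]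
  rfl

private theorem ep_X : ep ρ (Polynomial.X : Polynomial (MvPolynomial τ ℤ)) = Polynomial.X := by
  unfold ep
  rw [Polynomial.coe_mapRingHom, Polynomial.map_X]

private theorem Rp_C {q : MvPolynomial τ ℤ} {y : ℂ} (hq : q.totalDegree ≤ S)
    (hy : y * aeval ρ p = aeval ρ q) : Rp ρ p S (Polynomial.C y) (Polynomial.C q) := by
  refine ⟨by simp, cd_C hq, ?_⟩
  rw [← Polynomial.C_mul, hy, ep_C]

private theorem Rp_XC {q : MvPolynomial τ ℤ} {y : ℂ} (hq : q.totalDegree ≤ S)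
    (hy : y * aeval ρ p = aeval ρ q) :
    Rp ρ p S (Polynomial.X * Polynomial.C y) (Polynomial.X * Polynomial.C q) := by
  refine ⟨?_, cd_XC hq, ?_⟩
  · rw [mul_comm, ← pow_one Polynomial.X]
    exact Polynomial.natDegree_C_mul_X_pow_le _ _
  · rw [mul_assoc, ← Polynomial.C_mul, hy, map_mul, ep_C, ep_X]

end Rpsec

private theorem sum3 {α β γ B : Type} [Fintype α] [Fintype β] [Fintype γ] [AddCommMonoid B]
    (f : α ⊕ (β ⊕ γ) → B) :
    ∑ j, f j = ∑ j, f (Sum.inl j) +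
      (∑ j, f (Sum.inr (Sum.inl j)) + ∑ j, f (Sum.inr (Sum.inr j))) := by
  rw [Fintype.sum_sum_type, Fintype.sum_sum_type]

private theorem len_ren {σ : Type} (q : MvPolynomial σ ℤ) :
    len (rename Sum.inl q : MvPolynomial (σ ⊕ σ) ℤ) = len q := by
  classical
  unfold len
  rw [support_rename_of_injective Sum.inl_injective,
    Finset.sum_image fun a _ b _ hab => Finsupp.mapDomain_injective Sum.inl_injective hab]
  refine Finset.sum_congr rfl fun m _ => ?_
  rw [coeff_rename_mapDomain _ Sum.inl_injective]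

private theorem aeval_ren {σ : Type} (ρ : σ → ℂ) (q : MvPolynomial σ ℤ) :
    aeval (pm ρ) (rename Sum.inl q : MvPolynomial (σ ⊕ σ) ℤ) = aeval ρ q := by
  rw [aeval_rename]
  rfl

theorem core_x {σ : Type} [Fintype σ] (n : ℕ) (ρ : σ → ℂ) (h0 : ∀ i, ρ i ≠ 0)
    (htr : ∀ f : Fin (n + 1) → σ, ¬ AlgebraicIndependent ℚ (fun i => ρ (f i))) :
    ∃ s : ℕ, s ≤ n ∧ ∀ c0 : ℝ, 0 ≤ c0 → ∃ K0 : ℝ, 0 ≤ K0 ∧ ∀ S : ℝ, 1 ≤ S → ∀ N : ℕ,
      1 ≤ N → (N : ℝ) ≤ S → ∀ (K M : ℕ), (K : ℝ) ≤ Real.exp (c0 * S) →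
      (M : ℝ) ≤ Real.exp (c0 * S) →
      ∀ (p : Fin K → MvPolynomial σ ℤ) (A : Fin M → Fin K → MvPolynomial σ ℤ),
      (∀ k, (p k).totalDegree ≤ N) → (∀ k, len (p k) ≤ Real.exp (c0 * S)) →
      (∀ j k, (A j k).totalDegree ≤ N) → (∀ j k, len (A j k) ≤ Real.exp (c0 * S)) →
      ∀ k0, aeval ρ (p k0) ≠ 0 → (∀ k, ‖aeval ρ (p k)‖ ≤ ‖aeval ρ (p k0)‖) →
      (∀ (X : σ → ℂ) (x : Fin K → ℂ), (∀ i, X i ≠ 0) → x k0 = 1 →
        ∃ j, ∑ k, aeval X (A j k) * x k ≠ 0) →
      ∀ ε : ℝ, 0 ≤ ε →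
        (∀ j, ‖∑ k, aeval ρ (A j k) * aeval ρ (p k)‖ ≤ ε * ‖aeval ρ (p k0)‖) →
        1 ≤ ε * Real.exp (K0 * S ^ (s + 1)) := by
  classical
  obtain ⟨s, θ, C, hs, hθ, hθm, hC, hE⟩ := emb_x ρ h0 htr
  refine ⟨s, hs, fun c0 hc0 => ?_⟩
  obtain ⟨r0, hr0, hrρ⟩ : ∃ r0 : ℝ, 1 ≤ r0 ∧ ∀ i, ‖pm ρ i‖ ≤ r0 := by
    have h1 : (0 : ℝ) ≤ ∑ i, ‖pm ρ i‖ := Finset.sum_nonneg fun i _ => norm_nonneg _
    refine ⟨1 + ∑ i, ‖pm ρ i‖, by linarith, fun i => ?_⟩
    have := Finset.single_le_sum (f := fun i => ‖pm ρ i‖) (fun i _ => norm_nonneg _)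
      (Finset.mem_univ i)
    linarith
  obtain ⟨K0, hK0, hest⟩ := est_x s C (Fintype.card (σ ⊕ σ)) c0 r0 hc0 hr0
  refine ⟨K0, hK0, ?_⟩
  intro S hS N hN hNS K M hK hM p A hpd hpl hAd hAl k0 hp0 hpm hno ε hε hsmall
  obtain ⟨he1, he2⟩ := hest S hS N hNS
  obtain ⟨L, hL⟩ : ∃ L, L = Real.exp (c0 * S) := ⟨_, rfl⟩
  rw [← hL] at hK hM hpl hAl he1 he2
  have hL1 : 1 ≤ L := by
    rw [hL]
    exact Real.one_le_exp (by positivity)
  have hL0 : 0 ≤ L := by linarith
  obtain ⟨P0, hP0⟩ : ∃ P0, P0 = aeval ρ (p k0) := ⟨_, rfl⟩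
  have hP0' : P0 ≠ 0 := by rw [hP0]; exact hp0
  let x : Fin K → ℂ := fun k => aeval ρ (p k) / P0
  have hx0 : x k0 = 1 := by
    simp only [x]
    rw [← hP0]
    exact div_self hP0'
  have hx1 : ∀ k, ‖x k‖ ≤ 1 := by
    intro k
    simp only [x]
    rw [norm_div, hP0]
    exact div_le_one_of_le₀ (hpm k) (norm_nonneg _)
  let W : Fin M → ℂ := fun j => ∑ k, aeval ρ (A j k) * x k
  have hWmul : ∀ j, W j * P0 = ∑ k, aeval ρ (A j k) * aeval ρ (p k) := by
    intro j
    simp only [W, x]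
    rw [Finset.sum_mul]
    refine Finset.sum_congr rfl fun k _ => ?_
    field_simp
  have hW : ∀ j, ‖W j‖ ≤ ε := by
    intro j
    have h1 := hsmall j
    rw [← hWmul, norm_mul, ← hP0] at h1
    exact le_of_mul_le_mul_right h1 (norm_pos_iff.2 hP0')
  obtain ⟨b, hb, hb1⟩ := nullst_x ρ h0 x k0 hx0 A hno
  let p' : MvPolynomial (σ ⊕ σ) ℤ := rename Sum.inl (p k0)
  have hp' : aeval (pm ρ) p' = P0 := by
    rw [hP0]
    exact aeval_ren ρ _
  have hp'd : p'.totalDegree ≤ N := (totalDegree_rename_le _ _).trans (hpd k0)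
  have hp'l : len p' ≤ L := by
    simp only [p']
    rw [len_ren]
    exact hpl k0
  let ι := (σ ⊕ σ) ⊕ (Fin K ⊕ Fin M)
  let v : ι → Polynomial ℂ := Sum.elim (fun i => Polynomial.C (pm ρ i))
    (Sum.elim (fun k => Polynomial.C (x k)) (fun j => Polynomial.X * Polynomial.C (W j)))
  let g : ι → Polynomial (MvPolynomial (σ ⊕ σ) ℤ) := Sum.elim
    (fun i => Polynomial.C (X i * p'))
    (Sum.elim (fun k => Polynomial.C (rename Sum.inl (p k)))
      (fun j => Polynomial.X * Polynomial.C (∑ k, rename Sum.inl (A j k) * rename Sum.inl (p k))))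
  have hvg : ∀ i, Rp (pm ρ) p' (2 * N + 1) (v i) (g i) := by
    rintro (i | k | j)
    · refine Rp_C ?_ ?_
      · refine (totalDegree_mul _ _).trans ?_
        rw [totalDegree_X]
        omega
      · rw [map_mul, aeval_X]
    · refine Rp_C ?_ ?_
      · refine (totalDegree_rename_le _ _).trans ((hpd k).trans ?_)
        omega
      · rw [hp', aeval_ren]
        simp only [x]
        field_simp
    · refine Rp_XC ?_ ?_
      · refine totalDegree_finsetSum_le fun k _ => ?_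
        refine (totalDegree_mul _ _).trans ?_
        have h1 := (totalDegree_rename_le (Sum.inl : σ → σ ⊕ σ) (A j k)).trans (hAd j k)
        have h2 := (totalDegree_rename_le (Sum.inl : σ → σ ⊕ σ) (p k)).trans (hpd k)
        omega
      · rw [hp', hWmul, map_sum]
        refine Finset.sum_congr rfl fun k _ => ?_
        rw [map_mul, aeval_ren, aeval_ren]
  have hL3 : L ≤ L ^ 3 := le_self_pow₀ hL1 (by norm_num)
  have hgl : ∀ i, pN len (g i) ≤ L ^ 3 := by
    rintro (i | k | j)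
    · show pN len (Polynomial.C (X i * p')) ≤ L ^ 3
      rw [pN_C isNm_len]
      refine (isNm_len.mul _ _).trans ?_
      rw [len_X, one_mul]
      exact hp'l.trans hL3
    · show pN len (Polynomial.C (rename Sum.inl (p k))) ≤ L ^ 3
      rw [pN_C isNm_len, len_ren]
      exact (hpl k).trans hL3
    · show pN len (Polynomial.X * Polynomial.C (∑ k, rename Sum.inl (A j k) *
        rename Sum.inl (p k))) ≤ L ^ 3
      refine ((isNm_pN isNm_len).mul _ _).trans ?_
      rw [pN_C isNm_len]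
      have h1 : len (∑ k, rename Sum.inl (A j k) * rename Sum.inl (p k) :
          MvPolynomial (σ ⊕ σ) ℤ) ≤ L ^ 3 := by
        refine (len_sum _ _).trans ?_
        calc ∑ k, len (rename Sum.inl (A j k) * rename Sum.inl (p k) :
              MvPolynomial (σ ⊕ σ) ℤ) ≤ ∑ _k : Fin K, L * L := by
              refine Finset.sum_le_sum fun k _ => (isNm_len.mul _ _).trans ?_
              rw [len_ren, len_ren]
              exact mul_le_mul (hAl j k) (hpl k) (len_nonneg _) hL0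
          _ = K * (L * L) := by
              rw [Finset.sum_const, Finset.card_univ, Fintype.card_fin, nsmul_eq_mul]
          _ ≤ L * (L * L) := mul_le_mul_of_nonneg_right hK (by positivity)
          _ = L ^ 3 := by ring
      calc pN len (Polynomial.X : Polynomial (MvPolynomial (σ ⊕ σ) ℤ)) * len
            (∑ k, rename Sum.inl (A j k) * rename Sum.inl (p k) : MvPolynomial (σ ⊕ σ) ℤ) ≤
            1 * L ^ 3 := mul_le_mul (pN_X isNm_len) h1 (len_nonneg _) zero_le_one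
        _ = L ^ 3 := one_mul _
  have hv : ∀ i, v i ∈ VX (pm ρ) p' (2 * N + 1) := fun i => ⟨g i, hvg i⟩
  -- generators
  have hadj : ∀ y ∈ Algebra.adjoin ℚ (Set.range (pm ρ) ∪ Set.range x),
      Polynomial.C y ∈ Algebra.adjoin ℚ (Set.range v) := by
    intro y hy
    induction hy using Algebra.adjoin_induction with
    | mem y hy =>
      rcases hy with ⟨i, rfl⟩ | ⟨k, rfl⟩
      · exact Algebra.subset_adjoin ⟨Sum.inl i, rfl⟩
      · exact Algebra.subset_adjoin ⟨Sum.inr (Sum.inl k), rfl⟩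
    | algebraMap r =>
      have : Polynomial.C (algebraMap ℚ ℂ r) = algebraMap ℚ (Polynomial ℂ) r := rfl
      rw [this]
      exact Subalgebra.algebraMap_mem _ _
    | add y z _ _ h1 h2 =>
      rw [Polynomial.C_add]
      exact Subalgebra.add_mem _ h1 h2
    | mul y z _ _ h1 h2 =>
      rw [Polynomial.C_mul]
      exact Subalgebra.mul_mem _ h1 h2
  have hθv : ∀ j, Polynomial.C (θ j) ∈ Algebra.adjoin ℚ (Set.range v) := fun j =>
    hadj _ (Algebra.adjoin_mono Set.subset_union_left (hθm j))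
  have hXv : Polynomial.X ∈ Algebra.adjoin ℚ (Set.range v) := by
    have h1 : (Polynomial.X : Polynomial ℂ) =
        ∑ j, Polynomial.C (b j) * (Polynomial.X * Polynomial.C (W j)) := by
      have h2 := congrArg (Polynomial.C : ℂ → Polynomial ℂ) hb1
      rw [map_sum, Polynomial.C_1] at h2
      calc (Polynomial.X : Polynomial ℂ) = Polynomial.X * 1 := (mul_one _).symm
        _ = _ := by
          rw [← h2, Finset.mul_sum]
          refine Finset.sum_congr rfl fun j _ => ?_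
          rw [Polynomial.C_mul]
          ring
    rw [h1]
    exact Subalgebra.sum_mem _ fun j _ => Subalgebra.mul_mem _ (hadj _ (hb j))
      (Algebra.subset_adjoin ⟨Sum.inr (Sum.inr j), rfl⟩)
  have hp'd' : p'.totalDegree ≤ 2 * N + 1 := hp'd.trans (by omega)
  have hp'0 : aeval (pm ρ) p' ≠ 0 := by rw [hp']; exact hP0'
  obtain ⟨γ, hγ, hind, m, b', hb', hlead, hm0⟩ := alg_x (VX (pm ρ) p' (2 * N + 1))
    (relx_Q (pm ρ) s C (2 * N + 1) hC hE (by omega) p' hp'0 hp'd') v hv θ hθ hθv hXv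
  let w : Fin (s + 1) → Polynomial ℂ := fun i => -∑ j, (γ i j : Polynomial ℂ) * v j
  let gw : Fin (s + 1) → Polynomial (MvPolynomial (σ ⊕ σ) ℤ) := fun i =>
    -∑ j, (γ i j : Polynomial (MvPolynomial (σ ⊕ σ) ℤ)) * g j
  have hwg : ∀ i, Rp (pm ρ) p' (2 * N + 1) (w i) (gw i) := fun i =>
    Rp_neg (Rp_sum _ fun j => Rp_nat (hvg j) _)
  obtain ⟨t, ht⟩ : ∃ t, t = Fintype.card (σ ⊕ σ) := ⟨_, rfl⟩
  rw [← ht] at he1
  have hcard : (Fintype.card ι : ℝ) ≤ t + 2 * L := by
    have h1 : Fintype.card ι = Fintype.card (σ ⊕ σ) + (K + M) := by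
      simp only [ι]
      rw [Fintype.card_sum, Fintype.card_sum (α := Fin K), Fintype.card_fin, Fintype.card_fin]
    rw [h1, ← ht]
    push_cast
    linarith
  have hg0 : (0 : ℝ) ≤ gX s C N := by positivity
  have hγ' : ∀ i j, (γ i j : ℝ) ≤ gX s C N := fun i j => by exact_mod_cast hγ i j
  have hJ : ∀ (i : Fin (s + 1)) (y : ι → ℝ) (B : ℝ), 0 ≤ B → (∀ j, y j ≤ B) →
      ∑ j, (γ i j : ℝ) * y j ≤ (t + 2 * L) * gX s C N * B := by
    intro i y B hB hy
    calc ∑ j, (γ i j : ℝ) * y j ≤ ∑ _j : ι, (gX s C N : ℝ) * B := by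
          refine Finset.sum_le_sum fun j _ => ?_
          calc (γ i j : ℝ) * y j ≤ (γ i j : ℝ) * B :=
                mul_le_mul_of_nonneg_left (hy j) (by positivity)
            _ ≤ (gX s C N : ℝ) * B := mul_le_mul_of_nonneg_right (hγ' i j) hB
      _ = Fintype.card ι * (gX s C N * B) := by
          rw [Finset.sum_const, Finset.card_univ, nsmul_eq_mul]
      _ ≤ (t + 2 * L) * (gX s C N * B) := mul_le_mul_of_nonneg_right hcard (by positivity)
      _ = _ := by ring
  have hnm := isNm_pN (isNm_len (σ := σ ⊕ σ))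
  have hwl : ∀ i, pN len (gw i) ≤ hX s C t N L := by
    intro i
    simp only [gw]
    rw [hnm.neg]
    refine (hnm.sum_le _ _).trans ?_
    have h1 := hJ i (fun j => pN len (g j)) (L ^ 3) (by positivity) hgl
    have h2 : ∑ j, pN len ((γ i j : Polynomial (MvPolynomial (σ ⊕ σ) ℤ)) * g j) ≤
        ∑ j, (γ i j : ℝ) * pN len (g j) := by
      refine Finset.sum_le_sum fun j _ => (hnm.mul _ _).trans ?_
      exact mul_le_mul_of_nonneg_right (hnm.natCast_le _) (hnm.nn _)
    unfold hX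
    linarith
  have hXL : L ≤ hX s C t N L := by
    have hg1 : (1 : ℝ) ≤ gX s C N := by
      have : 1 ≤ gX s C N := by
        unfold gX DX
        exact Nat.one_le_iff_ne_zero.2 (by positivity)
      exact_mod_cast this
    unfold hX
    have h1 : L ≤ (t + 2 * L) * gX s C N * L ^ 3 := by
      calc L = L * 1 * 1 := by ring
        _ ≤ (t + 2 * L) * gX s C N * L ^ 3 := by
          refine mul_le_mul (mul_le_mul ?_ hg1 zero_le_one (by positivity))
            (one_le_pow₀ hL1) zero_le_one (by positivity)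
          have : (0 : ℝ) ≤ t := by positivity
          linarith
    linarith
  have hz : Rp (pm ρ) p' (2 * N + 1) Polynomial.X (Polynomial.X * Polynomial.C p') := by
    have h1 := Rp_XC (ρ := pm ρ) (p := p') (q := p') (y := 1) hp'd' (one_mul _)
    rwa [Polynomial.C_1, mul_one] at h1
  have hzl : pN len (Polynomial.X * Polynomial.C p') ≤ hX s C t N L := by
    refine (hnm.mul _ _).trans ?_
    rw [pN_C isNm_len]
    calc pN len (Polynomial.X : Polynomial (MvPolynomial (σ ⊕ σ) ℤ)) * len p' ≤ 1 * L :=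
          mul_le_mul (pN_X isNm_len) hp'l (len_nonneg _) zero_le_one
      _ = L := one_mul _
      _ ≤ _ := hXL
  obtain ⟨E0, hE0, hEd, hEc, hEa⟩ := rel_x (pm ρ) s C (2 * N + 1) hC hE (by omega) p' hp'0
    hp'd' (hX s C t N L) (hL1.trans hXL) (hp'l.trans hXL)
    (Fin.cons Polynomial.X w : Fin (s + 2) → Polynomial ℂ)
    (Fin.cons (Polynomial.X * Polynomial.C p') gw :
      Fin (s + 2) → Polynomial (MvPolynomial (σ ⊕ σ) ℤ))
    (fun i => by
      refine Fin.cases ?_ (fun j => ?_) i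
      · rw [Fin.cons_zero, Fin.cons_zero]
        exact hz
      · rw [Fin.cons_succ, Fin.cons_succ]
        exact hwg j)
    (fun i => by
      refine Fin.cases ?_ (fun j => ?_) i
      · rw [Fin.cons_zero]
        exact hzl
      · rw [Fin.cons_succ]
        exact hwl j)
  obtain ⟨E, G, a, hEG, hEa', ha, hlc⟩ := exists_E_x w hind m b' hb' hlead hm0 E0 hE0 hEa
  -- evaluation
  let c : Fin (s + 1) → ℂ := fun i => -(∑ j : σ ⊕ σ, (γ i (Sum.inl j) : ℂ) * pm ρ j +
    ∑ k : Fin K, (γ i (Sum.inr (Sum.inl k)) : ℂ) * x k)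
  let q : Fin (s + 1) → ℂ := fun i => -∑ j : Fin M, (γ i (Sum.inr (Sum.inr j)) : ℂ) * W j
  have hw : ∀ i, w i = Polynomial.C (c i) + Polynomial.X * Polynomial.C (q i) := by
    intro i
    simp only [w, c, q, ι]
    rw [sum3]
    simp only [v, Sum.elim_inl, Sum.elim_inr]
    simp only [Polynomial.C_neg, Polynomial.C_add, map_sum, Polynomial.C_mul, map_natCast,
      mul_neg, Finset.mul_sum]
    rw [← add_assoc, neg_add]
    congr 2
    refine Finset.sum_congr rfl fun j _ => ?_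
    ring
  have hev : ∀ z : ℂ, aeval (Fin.cons z (fun i => c i + z * q i) : Fin (s + 2) → ℂ) E = 0 := by
    intro z
    have h1 := congrArg (Polynomial.evalRingHom z) hEa'
    rw [map_zero] at h1
    rw [← h1]
    have h2 : (Polynomial.evalRingHom z).comp
        (aeval (Fin.cons Polynomial.X w : Fin (s + 2) → Polynomial ℂ) :
          MvPolynomial (Fin (s + 2)) ℤ →ₐ[ℤ] _).toRingHom =
        (aeval (Fin.cons z (fun i => c i + z * q i) : Fin (s + 2) → ℂ) :
          MvPolynomial (Fin (s + 2)) ℤ →ₐ[ℤ] ℂ).toRingHom := by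
      apply ringHom_ext
      · intro c
        simp
      · intro k
        refine Fin.cases ?_ (fun i => ?_) k
        · simp
        · show Polynomial.eval z (aeval (Fin.cons Polynomial.X w : Fin (s + 2) → Polynomial ℂ)
            (X i.succ)) = aeval (Fin.cons z (fun i => c i + z * q i) : Fin (s + 2) → ℂ) (X i.succ)
          rw [aeval_X, aeval_X, Fin.cons_succ, Fin.cons_succ, hw, Polynomial.eval_add,
            Polynomial.eval_mul, Polynomial.eval_C, Polynomial.eval_C, Polynomial.eval_X]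
    exact (RingHom.congr_fun h2 E).symm
  have hnR : ∀ i, ‖c i‖ + 1 ≤ RX s C t N L r0 := by
    intro i
    have h1 := hJ i (fun j => Sum.elim (fun j => ‖pm ρ j‖) (Sum.elim (fun k => ‖x k‖)
      fun _ => (0 : ℝ)) j) r0 (by linarith) (by
        rintro (j | k | j)
        · exact hrρ j
        · exact (hx1 k).trans hr0
        · show (0 : ℝ) ≤ r0
          linarith)
    rw [show ∑ j : ι, (γ i j : ℝ) * Sum.elim (fun j => ‖pm ρ j‖) (Sum.elim (fun k => ‖x k‖)
      fun _ => (0 : ℝ)) j = (∑ j, (γ i (Sum.inl j) : ℝ) * ‖pm ρ j‖) +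
        ∑ k, (γ i (Sum.inr (Sum.inl k)) : ℝ) * ‖x k‖ by
      rw [sum3]
      simp] at h1
    have h2 : ‖c i‖ ≤ (∑ j, (γ i (Sum.inl j) : ℝ) * ‖pm ρ j‖) +
        ∑ k, (γ i (Sum.inr (Sum.inl k)) : ℝ) * ‖x k‖ := by
      simp only [c]
      rw [norm_neg]
      refine (norm_add_le _ _).trans (add_le_add ?_ ?_)
      · refine (norm_sum_le _ _).trans (Finset.sum_le_sum fun j _ => ?_)
        rw [norm_mul, Complex.norm_natCast]
      · refine (norm_sum_le _ _).trans (Finset.sum_le_sum fun j _ => ?_)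
        rw [norm_mul, Complex.norm_natCast]
    unfold RX
    linarith
  have hR1 : 1 ≤ RX s C t N L r0 := by
    unfold RX
    have : (0 : ℝ) ≤ (t + 2 * L) * gX s C N * r0 := by positivity
    linarith
  have hnq : ∀ i, ‖q i‖ ≤ L * gX s C N * ε := by
    intro i
    simp only [q]
    rw [norm_neg]
    calc ‖∑ j : Fin M, (γ i (Sum.inr (Sum.inr j)) : ℂ) * W j‖
        ≤ ∑ _j : Fin M, (gX s C N : ℝ) * ε := by
          refine (norm_sum_le _ _).trans (Finset.sum_le_sum fun j _ => ?_)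
          rw [norm_mul, Complex.norm_natCast]
          exact mul_le_mul (hγ' _ _) (hW j) (norm_nonneg _) hg0
      _ = M * (gX s C N * ε) := by
          rw [Finset.sum_const, Finset.card_univ, Fintype.card_fin, nsmul_eq_mul]
      _ ≤ L * (gX s C N * ε) := mul_le_mul_of_nonneg_right hM (by positivity)
      _ = _ := by ring
  rcases le_or_gt (L * gX s C N * ε) 1 with hcase | hcase
  · have hfin := fin_est E G a ha hlc (by rw [hEG]; exact hE0) (fun i => by rw [hEG]; exact hEd i)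
      (HX s C t N L) (fun m => by rw [hEG]; exact hEc m) c q hev (RX s C t N L r0) hR1 hnR
      (L * gX s C N * ε) (by positivity) hcase hnq
    calc (1 : ℝ) ≤ 4 * BS (s + 2) (DX s C (2 * N + 1)) (HX s C t N L) (RX s C t N L r0) *
          (L * gX s C N * ε) := hfin
      _ = (4 * BS (s + 2) (DX s C (2 * N + 1)) (HX s C t N L) (RX s C t N L r0) *
          (L * gX s C N)) * ε := by ring
      _ ≤ Real.exp (K0 * S ^ (s + 1)) * ε := mul_le_mul_of_nonneg_right he1 hε
      _ = _ := mul_comm _ _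
  · calc (1 : ℝ) ≤ L * gX s C N * ε := hcase.le
      _ ≤ Real.exp (K0 * S ^ (s + 1)) * ε := mul_le_mul_of_nonneg_right he2 hε
      _ = _ := mul_comm _ _

/-- THE MATRIX CRITERION. -/
theorem C_mat {σ : Type} [Fintype σ] (n : ℕ) (ρ : σ → ℂ) (h0 : ∀ i, ρ i ≠ 0)
    (htr : ∀ f : Fin (n + 1) → σ, ¬ AlgebraicIndependent ℚ (fun i => ρ (f i)))
    (κ : ℝ) (hκ : (n : ℝ) + 1 < κ) :
    ∃ S0 : ℝ, ∀ S : ℝ, S0 ≤ S → ∀ (K M : ℕ) (p : Fin K → MvPolynomial σ ℤ)
      (A : Fin M → Fin K → MvPolynomial σ ℤ), (K : ℝ) ≤ Real.exp S →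
      (∀ k, ((p k).totalDegree : ℝ) ≤ S) →
      (∀ k m, |(((p k).coeff m : ℤ) : ℝ)| ≤ Real.exp S) →
      (∀ j k, ((A j k).totalDegree : ℝ) ≤ S) →
      (∀ j k m, |(((A j k).coeff m : ℤ) : ℝ)| ≤ Real.exp S) →
      ∀ k0, aeval ρ (p k0) ≠ 0 → (∀ k, ‖aeval ρ (p k)‖ ≤ ‖aeval ρ (p k0)‖) →
      (∀ j, ‖∑ k, aeval ρ (A j k) * aeval ρ (p k)‖ ≤
        Real.exp (-S ^ κ) * ‖aeval ρ (p k0)‖) →
      ∃ (X : σ → ℂ) (x : Fin K → ℂ), (∀ i, X i ≠ 0) ∧ x k0 = 1 ∧
        ∀ j, ∑ k, aeval X (A j k) * x k = 0 := by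
  classical
  obtain ⟨s, hs, hcore⟩ := core_x n ρ h0 htr
  obtain ⟨t, ht⟩ : ∃ t, t = Fintype.card σ := ⟨_, rfl⟩
  obtain ⟨K0, hK0, hcore⟩ := hcore (t + 2) (by positivity)
  have hpos : (0 : ℝ) < κ - (s + 1) := by
    have : (s : ℝ) ≤ n := by exact_mod_cast hs
    linarith
  have htend := tendsto_rpow_atTop hpos
  obtain ⟨S1, hS1⟩ := Filter.eventually_atTop.mp (htend.eventually_gt_atTop K0)
  refine ⟨max 1 S1, ?_⟩
  intro S hS K M p A hK hpd hpc hAd hAc k0 hp0 hpm hsmall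
  have hS1' : 1 ≤ S := (le_max_left _ _).trans hS
  have hSS : S1 ≤ S := (le_max_right _ _).trans hS
  have hS0 : 0 < S := by linarith
  obtain ⟨N, hN⟩ : ∃ N, N = ⌊S⌋₊ := ⟨_, rfl⟩
  have hNS : (N : ℝ) ≤ S := by
    rw [hN]
    exact Nat.floor_le hS0.le
  have hN1 : 1 ≤ N := by
    rw [hN]
    exact Nat.le_floor (by exact_mod_cast hS1')
  have hdeg : ∀ q : MvPolynomial σ ℤ, (q.totalDegree : ℝ) ≤ S → q.totalDegree ≤ N := by
    intro q hq
    rw [hN]
    exact Nat.le_floor hq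
  have hNt : (((N + 1) ^ t : ℕ) : ℝ) ≤ Real.exp (t * S) := by
    have h1 : (N : ℝ) + 1 ≤ Real.exp S := by
      have := Real.add_one_le_exp S
      linarith
    calc (((N + 1) ^ t : ℕ) : ℝ) = ((N : ℝ) + 1) ^ t := by push_cast; rfl
      _ ≤ Real.exp S ^ t := pow_le_pow_left₀ (by positivity) h1 t
      _ = Real.exp (t * S) := by rw [← Real.exp_nat_mul]
  have hlen : ∀ q : MvPolynomial σ ℤ, (q.totalDegree : ℝ) ≤ S →
      (∀ m, |((q.coeff m : ℤ) : ℝ)| ≤ Real.exp S) → len q ≤ Real.exp ((t + 2) * S) := by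
    intro q hq1 hq2
    calc len q ≤ ∑ _m ∈ q.support, Real.exp S := Finset.sum_le_sum fun m _ => hq2 m
      _ = q.support.card * Real.exp S := by rw [Finset.sum_const, nsmul_eq_mul]
      _ ≤ Real.exp (t * S) * Real.exp S := by
          refine mul_le_mul_of_nonneg_right (le_trans ?_ hNt) (Real.exp_pos _).le
          have := card_support_le q N (hdeg q hq1)
          rw [← ht] at this
          exact_mod_cast this
      _ = Real.exp ((t + 1) * S) := by rw [← Real.exp_add]; congr 1; ring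
      _ ≤ Real.exp ((t + 2) * S) := Real.exp_le_exp.2 (by nlinarith)
  by_contra hno
  push Not at hno
  obtain ⟨M', A', hM', hA', hz⟩ := fam_x N K (fun B => ∃ j, B = A j)
    (by
      rintro B ⟨j, rfl⟩ k
      exact hdeg _ (hAd j k))
    {t | (∀ i, t.1 i ≠ 0) ∧ t.2 k0 = 1}
    (by
      rintro ⟨X, x⟩ ⟨h1, h2⟩
      obtain ⟨j, hj⟩ := hno X x h1 h2
      exact ⟨A j, ⟨j, rfl⟩, hj⟩)
  choose e he using hA'
  rw [← ht] at hM'
  have hM'' : (M' : ℝ) ≤ Real.exp ((t + 2) * S) := by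
    calc (M' : ℝ) ≤ ((K * (N + 1) ^ t : ℕ) : ℝ) := by exact_mod_cast hM'
      _ = K * (((N + 1) ^ t : ℕ) : ℝ) := by push_cast; rfl
      _ ≤ Real.exp S * Real.exp (t * S) :=
          mul_le_mul hK hNt (by positivity) (Real.exp_pos _).le
      _ = Real.exp ((t + 1) * S) := by rw [← Real.exp_add]; congr 1; ring
      _ ≤ Real.exp ((t + 2) * S) := Real.exp_le_exp.2 (by nlinarith)
  have hK'' : (K : ℝ) ≤ Real.exp ((t + 2) * S) := by
    refine hK.trans (Real.exp_le_exp.2 ?_)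
    have : (0 : ℝ) ≤ t * S := by positivity
    nlinarith
  have hfin := hcore S hS1' N hN1 hNS K M' hK'' hM'' p A' (fun k => hdeg _ (hpd k))
    (fun k => hlen _ (hpd k) (hpc k)) (fun j k => by rw [he j]; exact hdeg _ (hAd _ k))
    (fun j k => by rw [he j]; exact hlen _ (hAd _ k) (hAc _ k)) k0 hp0 hpm
    (fun X x h1 h2 => hz (X, x) ⟨h1, h2⟩) (Real.exp (-S ^ κ)) (Real.exp_pos _).le
    (fun j => by rw [he j]; exact hsmall _)
  rw [← Real.exp_add, ← Real.exp_zero, Real.exp_le_exp] at hfin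
  have h4 : S ^ κ = S ^ (κ - (s + 1)) * S ^ (s + 1) := by
    rw [← Real.rpow_natCast S (s + 1), ← Real.rpow_add hS0]
    congr 1
    push_cast
    ring
  have h5 : 0 < S ^ (s + 1) := by positivity
  have h6 : K0 * S ^ (s + 1) < S ^ κ := by
    rw [h4]
    exact mul_lt_mul_of_pos_right (hS1 S hSS) h5
  linarith

end

end Pool.Agent.Helper29.CN
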